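import Mathlib
import Pool.Agent.Helper5.Pe.Defs

set_option autoImplicit false

open MeasureTheory Set Filter Topology

namespace Pool.Agent.Helper5.PG

/-- kernel `∑_{n≥1} (-t)^n/n! ρ^{*n}(y)` -/
noncomputable def rk (ρ : ℝ → ℂ) (t y : ℝ) : ℂ :=
  ∑' n : ℕ, ((-(t : ℂ)) ^ (n + 1) / ((n + 1).factorial : ℂ)) * cpow ρ n y

/-- the homomorphism `h ↦ ∑_{n≥0} (-1)^n/n! ρ^{*n} * (t^n h)` -/
noncomputable def TTr (ρ h : ℝ → ℂ) (x : ℝ) : ℂ := h x + ∫ t in (0:ℝ)..x, rk ρ t (x - t) * h t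

/-- `t^{a-1} e^{ct}` on `t > 0` -/
noncomputable def pT (a : ℝ) (c : ℂ) (t : ℝ) : ℂ := if 0 < t then pw a c t else 0

/-- `t^{a-1} + b t^a + ∫_0^t (t-s)^a k(s) ds` on `t > 0` -/
noncomputable def FF (a : ℝ) (b : ℂ) (k : ℝ → ℂ) (t : ℝ) : ℂ :=
  if 0 < t then ((t ^ (a - 1) : ℝ) : ℂ) + b * ((t ^ a : ℝ) : ℂ) +
    ∫ s in (0:ℝ)..t, (((t - s) ^ a : ℝ) : ℂ) * k s else 0

theorem pt_eqns : True := by
  have _h1 := @TTr.eq_1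
  have _h2 := @rk.eq_1
  have _h3 := @pT.eq_1
  have _h4 := @FF.eq_1
  trivial

end Pool.Agent.Helper5.PG
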