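import Mathlib
import Pool.Agent.Helper5.Pt.Defs
import Pool.Agent.Helper5.Pe.Ring
import Pool.Agent.Helper5.Pe.CvEbd
import Pool.Agent.Helper5.Pe.LapCv

set_option autoImplicit false
open MeasureTheory Set Filter Topology

namespace Pool.Agent.Helper5.PG

theorem cpow_bd (C m : ℝ) (ρ : ℝ → ℂ) (hρ : EBd C m ρ) (n : ℕ) :
    (∀ t : ℝ, 0 < t → ‖cpow ρ n t‖ ≤ C ^ (n + 1) * (t ^ n / (n.factorial : ℝ)) * Real.exp (m * t)) ∧
    Measurable (cpow ρ n) ∧ (∀ t : ℝ, t ≤ 0 → cpow ρ n t = 0) ∧
    (∀ z : ℂ, m < z.re → lap (cpow ρ n) z = (lap ρ z) ^ (n + 1)) := by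
  have hC : 0 ≤ C := hρ.nonneg
  induction n with
  | zero =>
    refine ⟨fun t ht => ?_, hρ.meas, hρ.zero, fun z _ => ?_⟩
    · have := hρ.bd t ht
      simpa [cpow] using this
    · simp [cpow]
  | succ n ih =>
    obtain ⟨hb, hmeas, hz, hl⟩ := ih
    have hE : ∀ δ : ℝ, 0 < δ → EBd (C ^ (n + 1) * (δ ^ n)⁻¹) (m + δ) (cpow ρ n) := by
      intro δ hδ
      refine ⟨hmeas, hz, fun t ht => (hb t ht).trans ?_⟩
      have h1 : (δ * t) ^ n / (n.factorial : ℝ) ≤ Real.exp (δ * t) :=
        Real.pow_div_factorial_le_exp _ (by positivity) n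
      have hδn : 0 < δ ^ n := by positivity
      have h2 : t ^ n / (n.factorial : ℝ) ≤ (δ ^ n)⁻¹ * Real.exp (δ * t) := by
        rw [mul_pow] at h1
        calc t ^ n / (n.factorial : ℝ) = (δ ^ n)⁻¹ * (δ ^ n * t ^ n / (n.factorial : ℝ)) := by
              field_simp
          _ ≤ (δ ^ n)⁻¹ * Real.exp (δ * t) := mul_le_mul_of_nonneg_left h1 (by positivity)
      calc C ^ (n + 1) * (t ^ n / (n.factorial : ℝ)) * Real.exp (m * t)
          ≤ C ^ (n + 1) * ((δ ^ n)⁻¹ * Real.exp (δ * t)) * Real.exp (m * t) := by gcongr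
        _ = C ^ (n + 1) * (δ ^ n)⁻¹ * (Real.exp (m * t) * Real.exp (δ * t)) := by ring
        _ = C ^ (n + 1) * (δ ^ n)⁻¹ * Real.exp ((m + δ) * t) := by
            rw [← Real.exp_add]; ring_nf
    have hE1 := hE 1 one_pos
    have hρ1 : EBd C (m + 1) ρ := hρ.mono le_rfl (by linarith)
    obtain ⟨_, hcv⟩ := cv_ebd C (C ^ (n + 1) * (1 ^ n)⁻¹) (m + 1) hC hE1.nonneg ρ (cpow ρ n) hρ1 hE1
    refine ⟨fun t ht => ?_, hcv.meas, hcv.zero, fun z hzr => ?_⟩
    · show ‖∫ s in (0:ℝ)..t, ρ (t - s) * cpow ρ n s‖ ≤ _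
      have hg : IntervalIntegrable (fun s : ℝ => C ^ (n + 2) * Real.exp (m * t) /
          (n.factorial : ℝ) * s ^ n) volume 0 t := by
        apply Continuous.intervalIntegrable
        fun_prop
      have hle := intervalIntegral.norm_integral_le_of_norm_le (f := fun s => ρ (t - s) * cpow ρ n s)
        ht.le (μ := volume) (Filter.Eventually.of_forall (fun s hs => by
          show ‖ρ (t - s) * cpow ρ n s‖ ≤ C ^ (n + 2) * Real.exp (m * t) /
            (n.factorial : ℝ) * s ^ n
          rcases eq_or_lt_of_le hs.2 with h | h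
          · rw [h, sub_self, hρ.zero 0 le_rfl, zero_mul, norm_zero]
            positivity
          · rw [norm_mul]
            have h1 := hρ.bd (t - s) (by linarith)
            have h2 := hb s hs.1
            calc ‖ρ (t - s)‖ * ‖cpow ρ n s‖
                ≤ (C * Real.exp (m * (t - s))) *
                  (C ^ (n + 1) * (s ^ n / (n.factorial : ℝ)) * Real.exp (m * s)) :=
                  mul_le_mul h1 h2 (norm_nonneg _) (by positivity)
              _ = C ^ (n + 2) * (Real.exp (m * (t - s)) * Real.exp (m * s)) /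
                  (n.factorial : ℝ) * s ^ n := by ring
              _ = C ^ (n + 2) * Real.exp (m * t) / (n.factorial : ℝ) * s ^ n := by
                  rw [← Real.exp_add]
                  congr 4
                  ring)) hg
      refine hle.trans (le_of_eq ?_)
      rw [intervalIntegral.integral_const_mul, integral_pow, Nat.factorial_succ]
      have hf : (n.factorial : ℝ) ≠ 0 := by positivity
      have hn : ((n : ℝ) + 1) ≠ 0 := by positivity
      push_cast
      rw [zero_pow (by omega)]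
      field_simp
      ring
    · show lap (cv ρ (cpow ρ n)) z = _
      obtain ⟨δ, hδ, hδz⟩ : ∃ δ : ℝ, 0 < δ ∧ m + δ < z.re := ⟨(z.re - m) / 2, by linarith, by linarith⟩
      have hEδ := hE δ hδ
      have e1 : EBd (max C (C ^ (n + 1) * (δ ^ n)⁻¹)) (m + δ) ρ :=
        hρ.mono (le_max_left _ _) (by linarith)
      have e2 : EBd (max C (C ^ (n + 1) * (δ ^ n)⁻¹)) (m + δ) (cpow ρ n) :=
        hEδ.mono (le_max_right _ _) le_rfl
      rw [lap_cv _ (m + δ) (hC.trans (le_max_left _ _)) ρ (cpow ρ n) e1 e2 z hδz, hl z hzr]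
      ring

end Pool.Agent.Helper5.PG
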