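import Mathlib
import Pool.Agent.Helper5.Pt.Defs
import Pool.Agent.Helper5.Pe.Ring
import Pool.Agent.Helper5.Pt.CpowBd
import Pool.Agent.Helper5.Pe.EeConv

set_option autoImplicit false
open MeasureTheory Set Filter Topology

namespace Pool.Agent.Helper5.PG

/-- `exp` series with a constant -/
theorem fc_hs (a x : ℝ) : HasSum (fun n : ℕ => a * (x ^ n / (n.factorial : ℝ))) (a * Real.exp x) := by
  have := (NormedSpace.expSeries_div_hasSum_exp (x : ℝ)).mul_left a
  rwa [← Real.exp_eq_exp_ℝ] at this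

theorem fc_bd (C m : ℝ) (X : ℝ → ℂ) (hX : EBd C m X) (γ : ℕ → ℂ) (K r : ℝ)
    (hγ : ∀ n, ‖γ n‖ ≤ K * r ^ n) (n : ℕ) (t : ℝ) (ht : 0 < t) :
    ‖γ n * cpow X n t‖ ≤ (K * C * Real.exp (m * t)) * ((|r| * C * t) ^ n / (n.factorial : ℝ)) := by
  have hK : 0 ≤ K := by
    have := (norm_nonneg _).trans (hγ 0)
    simpa using this
  have hC : 0 ≤ C := hX.nonneg
  have h1 := (cpow_bd C m X hX n).1 t ht
  have h2 : ‖γ n‖ ≤ K * |r| ^ n := by
    refine (hγ n).trans ?_
    rw [← abs_pow]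
    gcongr
    exact le_abs_self _
  rw [norm_mul]
  calc ‖γ n‖ * ‖cpow X n t‖
      ≤ (K * |r| ^ n) * (C ^ (n + 1) * (t ^ n / (n.factorial : ℝ)) * Real.exp (m * t)) := by
        gcongr
    _ = _ := by
        rw [mul_pow, mul_pow, pow_succ]
        ring

theorem fc_sum (C m : ℝ) (X : ℝ → ℂ) (hX : EBd C m X) (γ : ℕ → ℂ) (K r : ℝ)
    (hγ : ∀ n, ‖γ n‖ ≤ K * r ^ n) (t : ℝ) : Summable (fun n => γ n * cpow X n t) := by
  by_cases ht : 0 < t
  · exact Summable.of_norm_bounded (fc_hs _ _).summable (fun n => fc_bd C m X hX γ K r hγ n t ht)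
  · have : (fun n => γ n * cpow X n t) = fun _ => 0 := by
      funext n
      rw [(cpow_bd C m X hX n).2.2.1 t (not_lt.1 ht), mul_zero]
    rw [this]
    exact summable_zero

theorem fc_ebd (C m : ℝ) (X : ℝ → ℂ) (hX : EBd C m X) (γ : ℕ → ℂ) (K r : ℝ)
    (hγ : ∀ n, ‖γ n‖ ≤ K * r ^ n) :
    EBd (K * C) (m + |r| * C) (fun t => ∑' n, γ n * cpow X n t) := by
  refine ⟨?_, ?_, ?_⟩
  · refine measurable_of_tendsto_metrizable
      (f := fun (N : ℕ) (t : ℝ) => ∑ n ∈ Finset.range N, γ n * cpow X n t) ?_ ?_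
    · intro N
      exact Finset.measurable_fun_sum _ fun n _ => ((cpow_bd C m X hX n).2.1).const_mul (γ n)
    · rw [tendsto_pi_nhds]
      intro t
      exact (fc_sum C m X hX γ K r hγ t).hasSum.tendsto_sum_nat
  · intro t ht
    have : (fun n => γ n * cpow X n t) = fun _ => 0 := by
      funext n
      rw [(cpow_bd C m X hX n).2.2.1 t ht, mul_zero]
    show ∑' n, γ n * cpow X n t = 0
    rw [this]
    simp
  · intro t ht
    have h := tsum_of_norm_bounded (fc_hs (K * C * Real.exp (m * t)) (|r| * C * t))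
      (fun n => fc_bd C m X hX γ K r hγ n t ht)
    refine h.trans (le_of_eq ?_)
    rw [mul_assoc, ← Real.exp_add]
    congr 2
    ring



theorem fcalc (C m : ℝ) (X : ℝ → ℂ) (hX : EBd C m X) (γ : ℕ → ℂ) (K r : ℝ)
    (hγ : ∀ n, ‖γ n‖ ≤ K * r ^ n) :
    ∃ (Y : ℝ → ℂ) (C' m' M : ℝ), EBd C' m' Y ∧
      ∀ z : ℂ, M ≤ z.re → HasSum (fun n => γ n * (lap X z) ^ (n + 1)) (lap Y z) := by
  have hC : 0 ≤ C := hX.nonneg
  refine ⟨fun t => ∑' n, γ n * cpow X n t, K * C, m + |r| * C, m + |r| * C + 1,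
    fc_ebd C m X hX γ K r hγ, ?_⟩
  intro z hz
  have hrC : 0 ≤ |r| * C := by positivity
  have hmz : m < z.re := by linarith
  have key := hasSum_integral_of_dominated_convergence (μ := volume.restrict (Ioi (0:ℝ)))
    (F := fun (n : ℕ) (t : ℝ) => Complex.exp (-(z * t)) * (γ n * cpow X n t))
    (f := fun t => Complex.exp (-(z * t)) * ∑' n, γ n * cpow X n t)
    (fun n t => (K * C * Real.exp (m * t) * Real.exp (-(z.re * t))) *
      ((|r| * C * t) ^ n / (n.factorial : ℝ))) ?_ ?_ ?_ ?_ ?_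
  · have e : (fun n : ℕ => γ n * (lap X z) ^ (n + 1)) =
        fun n : ℕ => ∫ t in Ioi (0:ℝ), Complex.exp (-(z * t)) * (γ n * cpow X n t) := by
      funext n
      rw [← (cpow_bd C m X hX n).2.2.2 z hmz, lap, ← integral_const_mul]
      congr 1
      funext t
      ring
    rw [e]
    exact key
  · intro n
    refine Measurable.aestronglyMeasurable ?_
    refine Measurable.mul (by fun_prop) ?_
    exact ((cpow_bd C m X hX n).2.1).const_mul (γ n)
  · intro n
    refine (ae_restrict_iff' measurableSet_Ioi).2 (Eventually.of_forall fun t ht => ?_)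
    have h1 := fc_bd C m X hX γ K r hγ n t ht
    have h2 : ‖Complex.exp (-(z * t))‖ = Real.exp (-(z.re * t)) := by
      rw [Complex.norm_exp]
      simp
    rw [norm_mul, h2]
    calc Real.exp (-(z.re * t)) * ‖γ n * cpow X n t‖
        ≤ Real.exp (-(z.re * t)) * ((K * C * Real.exp (m * t)) *
          ((|r| * C * t) ^ n / (n.factorial : ℝ))) := by gcongr
      _ = _ := by ring
  · exact Eventually.of_forall fun t => (fc_hs _ _).summable
  · have e : (fun t : ℝ => ∑' n : ℕ, (K * C * Real.exp (m * t) * Real.exp (-(z.re * t))) *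
        ((|r| * C * t) ^ n / (n.factorial : ℝ))) =
        fun t : ℝ => (K * C) * Real.exp (-(z.re - m - |r| * C) * t) := by
      funext t
      rw [(fc_hs _ _).tsum_eq, mul_assoc, mul_assoc, ← Real.exp_add, ← Real.exp_add]
      congr 2
      ring
    rw [e]
    exact (exp_neg_integrableOn_Ioi 0 (by linarith)).const_mul (K * C)
  · refine Eventually.of_forall fun t => ?_
    exact (fc_sum C m X hX γ K r hγ t).hasSum.mul_left _

end Pool.Agent.Helper5.PG
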