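import Mathlib
import Pool.Agent.Helper5.Pt.Defs
import Pool.Agent.Helper5.Pe.Ring
import Pool.Agent.Helper5.Pt.Fcalc
import Pool.Agent.Helper5.Pe.LapCv
import Pool.Agent.Helper5.Pe.EeConv
import Pool.Agent.Helper5.Pe.CvEbd

set_option autoImplicit false
open MeasureTheory Set Filter Topology

namespace Pool.Agent.Helper5.PG

theorem binom_35564 (s : ℂ) : ∃ β : ℕ → ℂ, β 0 = 1 ∧ β 1 = s ∧
    (∃ K : ℝ, ∀ n, ‖β n‖ ≤ K * 2 ^ n) ∧
    ∀ x : ℂ, ‖x‖ < 1 → HasSum (fun n => β n * x ^ n) ((1 + x) ^ s) := by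
  refine ⟨fun n => Ring.choose s n, by simp, by simp, ?_, ?_⟩
  · have hr : (((1 / 2 : NNReal)) : ENNReal) < (binomialSeries ℂ s).radius := by
      refine lt_of_lt_of_le ?_ (binomialSeries_radius_ge_one (a := s) (𝔸 := ℂ))
      have : (1 / 2 : NNReal) < 1 := by norm_num
      exact_mod_cast this
    obtain ⟨K, -, hK⟩ := (binomialSeries ℂ s).norm_mul_pow_le_of_lt_radius hr
    refine ⟨K, fun n => ?_⟩
    have h1 : ‖Ring.choose s n‖ ≤ ‖binomialSeries ℂ s n‖ := by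
      have := (binomialSeries ℂ s n).le_opNorm (fun _ => (1 : ℂ))
      rw [binomialSeries_apply] at this
      simpa using this
    have h2 := hK n
    have h3 : (((1 / 2 : NNReal) : ℝ)) ^ n * 2 ^ n = 1 := by
      rw [← mul_pow]; norm_num
    calc ‖Ring.choose s n‖ ≤ ‖binomialSeries ℂ s n‖ := h1
      _ = ‖binomialSeries ℂ s n‖ * ((((1 / 2 : NNReal) : ℝ)) ^ n * 2 ^ n) := by rw [h3, mul_one]
      _ = (‖binomialSeries ℂ s n‖ * (((1 / 2 : NNReal) : ℝ)) ^ n) * 2 ^ n := by ring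
      _ ≤ K * 2 ^ n := by gcongr
  · intro x hx
    have hmem : x ∈ Metric.eball (0 : ℂ) 1 := by
      rw [← ENNReal.ofReal_one, Metric.eball_ofReal, mem_ball_zero_iff]
      exact hx
    have h1 := (Complex.one_add_cpow_hasFPowerSeriesOnBall_zero (a := s)).hasSum hmem
    rw [zero_add] at h1
    refine h1.congr_fun ?_ |> fun h => h
    intro n
    rw [binomialSeries_apply]
    simp

theorem lap_int_35564 {C m : ℝ} {f : ℝ → ℂ} (hf : EBd C m f) (z : ℂ) (hz : m < z.re) :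
    IntegrableOn (fun r : ℝ => Complex.exp (-(z * r)) * f r) (Ioi 0) := by
  have hg : IntegrableOn (fun r : ℝ => C * Real.exp ((m - z.re) * r)) (Ioi 0) :=
    (integrableOn_exp_mul_Ioi (a := m - z.re) (by linarith) 0).const_mul C
  refine Integrable.mono' hg ?_ ?_
  · refine Measurable.aestronglyMeasurable ?_
    refine Measurable.mul ?_ hf.meas
    fun_prop
  · refine ae_restrict_of_forall_mem measurableSet_Ioi (fun r hr => ?_)
    have h1 := hf.bd r hr
    rw [norm_mul, Complex.norm_exp]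
    have h2 : (-(z * (r : ℂ))).re = -(z.re * r) := by simp
    rw [h2]
    calc Real.exp (-(z.re * r)) * ‖f r‖ ≤ Real.exp (-(z.re * r)) * (C * Real.exp (m * r)) := by
          gcongr
      _ = C * (Real.exp (-(z.re * r)) * Real.exp (m * r)) := by ring
      _ = C * Real.exp ((m - z.re) * r) := by
          rw [← Real.exp_add]; congr 2; ring

theorem lap_add_35564 {C m C' m' : ℝ} {f g : ℝ → ℂ} (hf : EBd C m f) (hg : EBd C' m' g) (z : ℂ)
    (hz : m < z.re) (hz' : m' < z.re) : lap (f + g) z = lap f z + lap g z := by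
  unfold lap
  rw [← integral_add (lap_int_35564 hf z hz) (lap_int_35564 hg z hz')]
  congr 1
  funext r
  rw [Pi.add_apply, mul_add]

theorem lap_smul_35564 (c : ℂ) (f : ℝ → ℂ) (z : ℂ) : lap (c • f) z = c * lap f z := by
  unfold lap
  rw [← integral_const_mul]
  congr 1
  funext r
  rw [Pi.smul_apply, smul_eq_mul]
  ring

theorem lap_uu_35564 (z : ℂ) (hz : 0 < z.re) : lap uu z = 1 / z := by
  unfold lap
  have h1 : ∫ r in Ioi (0:ℝ), Complex.exp (-(z * r)) * uu r =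
      ∫ r in Ioi (0:ℝ), Complex.exp ((-z) * r) := by
    refine setIntegral_congr_fun measurableSet_Ioi (fun r hr => ?_)
    have hr' : (0 : ℝ) < r := hr
    simp only [uu, if_pos hr', mul_one, neg_mul]
  rw [h1, integral_exp_mul_complex_Ioi (by simpa using hz) 0]
  simp

theorem class_rho (a : ℝ) (ha : 0 < a) (b : ℂ) (C m : ℝ) (k : ℝ → ℂ) (hk : EBd C m k) :
    ∃ (ρ : ℝ → ℂ) (C' m' M : ℝ), EBd C' m' ρ ∧
      ∀ z : ℂ, M ≤ z.re → z - b + lap ρ z =
        z * (1 + (a * b + a * lap k z) / z) ^ (-(1 / a : ℝ) : ℂ) := by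
  obtain ⟨β, hβ0, hβ1, ⟨K, hK⟩, hβ⟩ := binom_35564 (-(1 / a : ℝ) : ℂ)
  set s : ℂ := (-(1 / a : ℝ) : ℂ) with hs
  set κ0 : ℂ := (a : ℂ) * b with hκ0
  set κ1 : ℝ → ℂ := (a : ℂ) • k with hκ1
  have hk0 := hk.nonneg
  set C1 : ℝ := ‖(a : ℂ)‖ * C with hC1
  have hC10 : 0 ≤ C1 := mul_nonneg (norm_nonneg _) hk0
  set m1 : ℝ := max m 0 with hm1
  have hκ : EBd C1 m1 κ1 := (hk.smul (a : ℂ)).mono le_rfl (le_max_left _ _)
  have hu1 : EBd 1 m1 uu := uu_ebd.mono le_rfl (le_max_right _ _)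
  have hcv := (cv_ebd 1 C1 m1 zero_le_one hC10 uu κ1 hu1 hκ).2
  set X : ℝ → ℂ := κ0 • uu + cv uu κ1 with hX
  have hXE := (hu1.smul κ0).add hcv
  obtain ⟨Y, CY, mY, MY, hY, hYs⟩ := fcalc _ _ X hXE (fun n => β (n + 2)) (K * 4) 2
    (by
      intro n
      have := hK (n + 2)
      rw [pow_add] at this
      calc ‖β (n + 2)‖ ≤ K * (2 ^ n * 2 ^ 2) := this
        _ = K * 4 * 2 ^ n := by ring)
  have hCY := hY.nonneg
  set CC : ℝ := max C1 CY with hCC
  set mm : ℝ := max m1 mY with hmm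
  have hCC0 : 0 ≤ CC := hC10.trans (le_max_left _ _)
  have hκ' : EBd CC mm κ1 := hκ.mono (le_max_left _ _) (le_max_left _ _)
  have hY' : EBd CC mm Y := hY.mono (le_max_right _ _) (le_max_right _ _)
  have hcv2 := (cv_ebd CC CC mm hCC0 hCC0 κ1 Y hκ' hY').2
  have hρ := ((hκ'.smul s).add (hY'.smul κ0)).add hcv2
  refine ⟨s • κ1 + κ0 • Y + cv κ1 Y, _, _,
    max MY (max (mm + 2) (2 * (‖κ0‖ + C1) + 2)), hρ, ?_⟩
  intro z hz
  have hz1 : MY ≤ z.re := (le_max_left _ _).trans hz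
  have hz2 : mm + 2 ≤ z.re := ((le_max_left _ _).trans (le_max_right _ _)).trans hz
  have hz3 : 2 * (‖κ0‖ + C1) + 2 ≤ z.re := ((le_max_right _ _).trans (le_max_right _ _)).trans hz
  have hmm1 : m1 ≤ mm := le_max_left _ _
  have hmmY : mY ≤ mm := le_max_right _ _
  have hm10 : 0 ≤ m1 := le_max_right _ _
  have hz0 : 0 < z.re := by linarith
  have hzne : z ≠ 0 := fun h => by rw [h] at hz0; simp at hz0
  have hzn : z.re ≤ ‖z‖ := Complex.re_le_norm z
  have hzn0 : 0 < ‖z‖ := hz0.trans_le hzn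
  have hlap1 : ‖lap κ1 z‖ ≤ C1 := by
    have h1 := (ee_conv C1 m1 hC10 κ1 hκ z (by linarith)).2.1
    refine h1.trans ?_
    rw [div_le_iff₀ (by linarith)]
    nlinarith
  have hXz : lap X z = (κ0 + lap κ1 z) / z := by
    rw [hX, lap_add_35564 (hu1.smul κ0) hcv z (by linarith) (by linarith), lap_smul_35564,
      lap_uu_35564 z hz0, lap_cv (max 1 C1) m1 (zero_le_one.trans (le_max_left _ _)) uu κ1
        (hu1.mono (le_max_left _ _) le_rfl) (hκ.mono (le_max_right _ _) le_rfl) z (by linarith),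
      lap_uu_35564 z hz0]
    field_simp
  set x : ℂ := lap X z with hx
  have hxn : ‖x‖ < 1 := by
    rw [hXz, norm_div, div_lt_one hzn0]
    calc ‖κ0 + lap κ1 z‖ ≤ ‖κ0‖ + ‖lap κ1 z‖ := norm_add_le _ _
      _ ≤ ‖κ0‖ + C1 := by linarith
      _ < z.re := by
          have := norm_nonneg κ0
          linarith
      _ ≤ ‖z‖ := hzn
  have h1 := hβ x hxn
  have h2 := (hasSum_nat_add_iff' 2).2 h1
  have h3 := (hYs z hz1).mul_left x
  have h4 : (1 + x) ^ s - ∑ i ∈ Finset.range 2, β i * x ^ i = x * lap Y z := by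
    refine h2.unique ?_
    refine h3.congr_fun ?_ |> fun h => h
    intro n
    ring
  rw [Finset.sum_range_succ, Finset.sum_range_one, hβ0, hβ1] at h4
  have h5 : (1 + x) ^ s = 1 + s * x + x * lap Y z := by
    linear_combination h4
  have hlk : lap κ1 z = a * lap k z := lap_smul_35564 _ _ _
  have h6 : (1 : ℂ) + (a * b + a * lap k z) / z = 1 + x := by
    rw [hXz, hlk]
  have hzx : z * x = κ0 + lap κ1 z := by
    rw [hXz]; field_simp
  have hρz : lap (s • κ1 + κ0 • Y + cv κ1 Y) z =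
      s * lap κ1 z + κ0 * lap Y z + lap κ1 z * lap Y z := by
    rw [lap_add_35564 ((hκ'.smul s).add (hY'.smul κ0)) hcv2 z (by simp; linarith) (by linarith),
      lap_add_35564 (hκ'.smul s) (hY'.smul κ0) z (by linarith) (by linarith),
      lap_smul_35564 s κ1, lap_smul_35564 κ0 Y, lap_cv CC mm hCC0 κ1 Y hκ' hY' z (by linarith)]
  have hsb : s * κ0 = -b := by
    rw [hs, hκ0]
    have : (a : ℂ) ≠ 0 := by exact_mod_cast ha.ne'
    push_cast
    field_simp
  rw [h6, h5, hρz]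
  linear_combination (-1 : ℂ) * hsb - (s + lap Y z) * hzx

end Pool.Agent.Helper5.PG
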