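import Mathlib
import Pool.Agent.Helper5.Pt.Defs
import Pool.Agent.Helper5.Pe.Ring

set_option autoImplicit false
open MeasureTheory Set Filter Topology

namespace Pool.Agent.Helper5.PG

theorem lap_pT_int (s : ℝ) (hs : -1 < s) (b : ℝ) (hb : 0 < b) :
    IntegrableOn (fun t : ℝ => t ^ s * Real.exp (-b * t)) (Ioi 0) := by
  have h := integrableOn_rpow_mul_exp_neg_mul_rpow (p := 1) hs one_pos hb
  simpa only [Real.rpow_one] using h

theorem lap_pT_meas (s : ℝ) (r : ℂ) :
    AEStronglyMeasurable (fun t : ℝ => ((t ^ s : ℝ) : ℂ) * Complex.exp (-(r * t)))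
      (volume.restrict (Ioi 0)) := by
  apply Measurable.aestronglyMeasurable
  fun_prop

theorem lap_pT_diff (a : ℝ) (ha : 1 ≤ a) (r0 : ℂ) (hr : 0 < r0.re) :
    DifferentiableAt ℂ (fun r : ℂ => ∫ t in Ioi (0:ℝ),
      ((t ^ (a - 1) : ℝ) : ℂ) * Complex.exp (-(r * t))) r0 := by
  have hnorm : ∀ (r : ℂ) (t : ℝ), 0 < t → ‖((t ^ (a - 1) : ℝ) : ℂ) * Complex.exp (-(r * t))‖ =
      t ^ (a - 1) * Real.exp (-r.re * t) := by
    intro r t ht
    rw [norm_mul, Complex.norm_real, Real.norm_eq_abs, abs_of_nonneg (Real.rpow_nonneg ht.le _),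
      Complex.norm_exp]
    simp
  have h := hasDerivAt_integral_of_dominated_loc_of_deriv_le (𝕜 := ℂ)
    (μ := volume.restrict (Ioi (0:ℝ))) (x₀ := r0) (s := Metric.ball r0 (r0.re / 2))
    (F := fun (r : ℂ) (t : ℝ) => ((t ^ (a - 1) : ℝ) : ℂ) * Complex.exp (-(r * t)))
    (F' := fun (r : ℂ) (t : ℝ) => ((t ^ (a - 1) : ℝ) : ℂ) * Complex.exp (-(r * t)) * (-(t : ℂ)))
    (bound := fun t : ℝ => t ^ a * Real.exp (-(r0.re / 2) * t))
    (Metric.ball_mem_nhds _ (by positivity)) (Eventually.of_forall fun r => lap_pT_meas _ r)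
    ?_ ?_ ?_ ?_ ?_
  · exact h.2.differentiableAt
  · refine Integrable.mono' (lap_pT_int (a - 1) (by linarith) r0.re hr) (lap_pT_meas _ r0) ?_
    refine ae_restrict_of_forall_mem measurableSet_Ioi fun t ht => ?_
    exact (hnorm r0 t ht).le
  · apply Measurable.aestronglyMeasurable
    fun_prop
  · refine ae_restrict_of_forall_mem measurableSet_Ioi fun t ht r hrb => ?_
    have ht' : (0:ℝ) < t := ht
    rw [norm_mul, hnorm r t ht', norm_neg, Complex.norm_real, Real.norm_eq_abs, abs_of_pos ht']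
    have h1 : r0.re / 2 ≤ r.re := by
      have h2 : |(r - r0).re| ≤ ‖r - r0‖ := Complex.abs_re_le_norm _
      rw [Metric.mem_ball, dist_eq_norm] at hrb
      rw [Complex.sub_re] at h2
      have h3 := (abs_le.1 (le_trans h2 hrb.le)).1
      linarith
    have h4 : t ^ a = t ^ (a - 1) * t := by
      rw [Real.rpow_sub_one ht'.ne']
      field_simp
    rw [h4]
    have h5 : Real.exp (-r.re * t) ≤ Real.exp (-(r0.re / 2) * t) := by
      apply Real.exp_le_exp.2
      nlinarith
    calc t ^ (a - 1) * Real.exp (-r.re * t) * t = t ^ (a - 1) * t * Real.exp (-r.re * t) := by ring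
      _ ≤ t ^ (a - 1) * t * Real.exp (-(r0.re / 2) * t) :=
        mul_le_mul_of_nonneg_left h5 (mul_nonneg (Real.rpow_nonneg ht'.le _) ht'.le)
  · exact lap_pT_int a (by linarith) (r0.re / 2) (by positivity)
  · refine ae_restrict_of_forall_mem measurableSet_Ioi fun t ht r hrb => ?_
    have h1 : HasDerivAt (fun r : ℂ => -(r * (t : ℂ))) (-(t : ℂ)) r := by
      have := ((hasDerivAt_id r).mul_const (t : ℂ)).neg
      exact this.congr_deriv (by simp)
    have h2 := (h1.cexp).const_mul (((t ^ (a - 1) : ℝ) : ℂ))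
    exact h2.congr_deriv (by ring)

theorem lap_pT_key (a : ℝ) (ha : 1 ≤ a) (r : ℂ) (hr : 0 < r.re) :
    ∫ t in Ioi (0:ℝ), ((t ^ (a - 1) : ℝ) : ℂ) * Complex.exp (-(r * t)) =
      (Real.Gamma a : ℂ) * r ^ (-(a : ℂ)) := by
  have hopen : IsOpen {r : ℂ | 0 < r.re} := isOpen_lt continuous_const Complex.continuous_re
  have hA : AnalyticOnNhd ℂ (fun r : ℂ => ∫ t in Ioi (0:ℝ),
      ((t ^ (a - 1) : ℝ) : ℂ) * Complex.exp (-(r * t))) {r : ℂ | 0 < r.re} :=
    DifferentiableOn.analyticOnNhd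
      (fun r hr => (lap_pT_diff a ha r hr).differentiableWithinAt) hopen
  have hB : AnalyticOnNhd ℂ (fun r : ℂ => (Real.Gamma a : ℂ) * r ^ (-(a : ℂ))) {r : ℂ | 0 < r.re} := by
    apply DifferentiableOn.analyticOnNhd _ hopen
    intro r hr
    apply DifferentiableAt.differentiableWithinAt
    have h1 : DifferentiableAt ℂ (fun r : ℂ => r ^ (-(a : ℂ))) r :=
      DifferentiableAt.cpow differentiableAt_id (differentiableAt_const _) (Or.inl hr)
    exact h1.const_mul _
  have hconn : IsPreconnected {r : ℂ | 0 < r.re} := (convex_halfSpace_re_gt 0).isPreconnected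
  have hreal : ∀ x : ℝ, 0 < x → (fun r : ℂ => ∫ t in Ioi (0:ℝ),
      ((t ^ (a - 1) : ℝ) : ℂ) * Complex.exp (-(r * t))) (x : ℂ) =
      (fun r : ℂ => (Real.Gamma a : ℂ) * r ^ (-(a : ℂ))) (x : ℂ) := by
    intro x hx
    have h1 := Complex.integral_cpow_mul_exp_neg_mul_Ioi (a := (a : ℂ)) (r := x)
      (by rw [Complex.ofReal_re]; linarith) hx
    have h2 : ∫ t in Ioi (0:ℝ), ((t ^ (a - 1) : ℝ) : ℂ) * Complex.exp (-((x:ℂ) * t)) =
        ∫ t in Ioi (0:ℝ), (t : ℂ) ^ ((a : ℂ) - 1) * Complex.exp (-((x:ℂ) * t)) := by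
      apply setIntegral_congr_fun measurableSet_Ioi
      intro t ht
      have ht' : (0:ℝ) < t := ht
      show ((t ^ (a - 1) : ℝ) : ℂ) * Complex.exp (-((x:ℂ) * t)) = _
      rw [Complex.ofReal_cpow ht'.le]
      push_cast
      rfl
    show ∫ t in Ioi (0:ℝ), ((t ^ (a - 1) : ℝ) : ℂ) * Complex.exp (-((x:ℂ) * t)) =
      (Real.Gamma a : ℂ) * (x : ℂ) ^ (-(a : ℂ))
    rw [h2, h1, Complex.Gamma_ofReal, one_div, Complex.inv_cpow, Complex.cpow_neg, mul_comm]
    rw [Complex.arg_ofReal_of_nonneg hx.le]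
    exact Real.pi_ne_zero.symm
  have hfreq : ∃ᶠ z in 𝓝[≠] (1 : ℂ), (fun r : ℂ => ∫ t in Ioi (0:ℝ),
      ((t ^ (a - 1) : ℝ) : ℂ) * Complex.exp (-(r * t))) z =
      (fun r : ℂ => (Real.Gamma a : ℂ) * r ^ (-(a : ℂ))) z := by
    have ht : Tendsto (fun n : ℕ => (((1 + 1 / ((n : ℝ) + 1) : ℝ)) : ℂ)) atTop (𝓝[≠] (1 : ℂ)) := by
      apply tendsto_nhdsWithin_of_tendsto_nhds_of_eventually_within
      · have h1 : Tendsto (fun n : ℕ => (1 + 1 / ((n : ℝ) + 1) : ℝ)) atTop (𝓝 (1 + 0)) :=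
          tendsto_const_nhds.add tendsto_one_div_add_atTop_nhds_zero_nat
        rw [add_zero] at h1
        have h2 := (Complex.continuous_ofReal.tendsto 1).comp h1
        rw [Complex.ofReal_one] at h2
        exact h2
      · apply Eventually.of_forall
        intro n
        show (((1 + 1 / ((n : ℝ) + 1) : ℝ)) : ℂ) ≠ 1
        intro hh
        have h3 : (1 + 1 / ((n : ℝ) + 1) : ℝ) = 1 := by exact_mod_cast hh
        have h4 : (0 : ℝ) < 1 / ((n : ℝ) + 1) := by positivity
        linarith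
    exact ht.frequently (Frequently.of_forall fun n => hreal _ (by positivity))
  exact hA.eqOn_of_preconnected_of_frequently_eq hB hconn (by simp : (1 : ℂ) ∈ {r : ℂ | 0 < r.re})
    hfreq hr

theorem lap_pT (a : ℝ) (ha : 1 ≤ a) (c : ℂ) :
    (∃ C m : ℝ, EBd C m (pT a c)) ∧
    ∀ z : ℂ, c.re < z.re → lap (pT a c) z = (Real.Gamma a : ℂ) * (z - c) ^ (-(a : ℂ)) := by
  constructor
  · refine ⟨1 + (⌈a - 1⌉₊.factorial : ℝ), c.re + 1, ?_, ?_, ?_⟩
    · unfold pT
      refine Measurable.ite measurableSet_Ioi ?_ measurable_const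
      unfold pw
      fun_prop
    · intro t ht
      simp [pT, not_lt.mpr ht]
    · intro t ht
      have h1 : ‖pT a c t‖ = t ^ (a - 1) * Real.exp (c.re * t) := by
        unfold pT pw
        rw [if_pos ht, norm_mul, Complex.norm_real, Real.norm_eq_abs,
          abs_of_nonneg (Real.rpow_nonneg ht.le _), Complex.norm_exp]
        simp
      have h2 : t ^ (a - 1) ≤ (1 + (⌈a - 1⌉₊.factorial : ℝ)) * Real.exp t := by
        have hf : (1 : ℝ) ≤ (⌈a - 1⌉₊.factorial : ℝ) := by
          exact_mod_cast Nat.one_le_iff_ne_zero.2 (Nat.factorial_ne_zero _)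
        have he : 1 ≤ Real.exp t := Real.one_le_exp ht.le
        rcases le_or_gt t 1 with h | h
        · have h3 : t ^ (a - 1) ≤ 1 := Real.rpow_le_one ht.le h (by linarith)
          nlinarith
        · have h3 : t ^ (a - 1) ≤ t ^ (⌈a - 1⌉₊ : ℝ) :=
            Real.rpow_le_rpow_of_exponent_le h.le (Nat.le_ceil _)
          rw [Real.rpow_natCast] at h3
          have h4 := Real.pow_div_factorial_le_exp t ht.le ⌈a - 1⌉₊
          rw [div_le_iff₀ (by linarith)] at h4
          nlinarith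
      rw [h1]
      have h3 : Real.exp ((c.re + 1) * t) = Real.exp t * Real.exp (c.re * t) := by
        rw [← Real.exp_add]
        congr 1
        ring
      rw [h3, ← mul_assoc]
      exact mul_le_mul_of_nonneg_right h2 (Real.exp_pos _).le
  · intro z hz
    have hr : 0 < (z - c).re := by
      rw [Complex.sub_re]
      linarith
    rw [← lap_pT_key a ha (z - c) hr]
    unfold lap
    apply setIntegral_congr_fun measurableSet_Ioi
    intro t ht
    have ht' : (0:ℝ) < t := ht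
    show Complex.exp (-(z * t)) * pT a c t = _
    unfold pT pw
    rw [if_pos ht']
    have e : Complex.exp (-((z - c) * t)) = Complex.exp (-(z * t)) * Complex.exp (c * t) := by
      rw [← Complex.exp_add]
      congr 1
      ring
    show _ = ((t ^ (a - 1) : ℝ) : ℂ) * Complex.exp (-((z - c) * t))
    rw [e]
    ring

end Pool.Agent.Helper5.PG
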