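import Mathlib
import Pool.Agent.Helper5.Pt.Defs
import Pool.Agent.Helper5.Pe.Ring
import Pool.Agent.Helper5.Pe.LapCv
import Pool.Agent.Helper5.Pt.LapPT

set_option autoImplicit false
open MeasureTheory Set Filter Topology

namespace Pool.Agent.Helper5.PG

theorem cv_eq_aux {C m C' m' : ℝ} {f g : ℝ → ℂ} (hf : EBd C m f) (hg : EBd C' m' g) :
    cv f g = fun t => ∫ s : ℝ, f (t - s) * g s := by
  funext t
  unfold cv
  rcases le_or_gt t 0 with ht | ht
  · have h1 : (∫ s : ℝ, f (t - s) * g s) = 0 := by
      rw [integral_eq_zero_of_ae]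
      refine Filter.Eventually.of_forall fun s => ?_
      rcases le_or_gt s 0 with hs | hs
      · simp [hg.zero s hs]
      · simp [hf.zero (t - s) (by linarith)]
    rw [h1]
    rw [intervalIntegral.integral_of_ge ht, setIntegral_eq_zero_of_forall_eq_zero, neg_zero]
    intro s hs
    rw [hg.zero s hs.2, mul_zero]
  · rw [intervalIntegral.integral_of_le ht.le]
    symm
    rw [← integral_indicator measurableSet_Ioc]
    congr 1
    funext s
    by_cases hs : s ∈ Ioc 0 t
    · rw [indicator_of_mem hs]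
    · rw [indicator_of_notMem hs]
      rcases le_or_gt s 0 with h | h
      · simp [hg.zero s h]
      · have : t < s := by
          by_contra hc
          push Not at hc
          exact hs ⟨h, hc⟩
        simp [hf.zero (t - s) (by linarith)]

theorem cv_ebd_aux {C m C' m' : ℝ} {f g : ℝ → ℂ} (hf : EBd C m f) (hg : EBd C' m' g) :
    EBd (C * C') (max (max m m') 0 + 1) (cv f g) := by
  have hC := hf.nonneg
  have hC' := hg.nonneg
  refine ⟨?_, fun t ht => ?_, fun t ht => ?_⟩
  · rw [cv_eq_aux hf hg]
    have h1 : Measurable (Function.uncurry fun (t s : ℝ) => f (t - s) * g s) :=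
      (hf.meas.comp (measurable_fst.sub measurable_snd)).mul (hg.meas.comp measurable_snd)
    exact (h1.stronglyMeasurable.integral_prod_right).measurable
  · rw [cv_eq_aux hf hg]
    show (∫ s : ℝ, f (t - s) * g s) = 0
    rw [integral_eq_zero_of_ae]
    refine Filter.Eventually.of_forall fun s => ?_
    rcases le_or_gt s 0 with hs | hs
    · simp [hg.zero s hs]
    · simp [hf.zero (t - s) (by linarith)]
  · set M := max (max m m') 0 with hM
    have hM0 : 0 ≤ M := le_max_right _ _
    have hm : m ≤ M := (le_max_left m m').trans (le_max_left _ _)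
    have hm' : m' ≤ M := (le_max_right m m').trans (le_max_left _ _)
    have hb : ‖cv f g t‖ ≤ (C * C' * Real.exp (M * t)) * |t - 0| := by
      unfold cv
      refine intervalIntegral.norm_integral_le_of_norm_le_const fun s hs => ?_
      rw [uIoc_of_le ht.le] at hs
      rcases eq_or_lt_of_le hs.2 with h | h
      · rw [h, sub_self, hf.zero 0 le_rfl, zero_mul, norm_zero]
        positivity
      · have h1 := (hf.mono le_rfl hm).bd (t - s) (by linarith)
        have h2 := (hg.mono le_rfl hm').bd s hs.1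
        rw [norm_mul]
        calc ‖f (t - s)‖ * ‖g s‖ ≤ (C * Real.exp (M * (t - s))) * (C' * Real.exp (M * s)) := by
              gcongr
          _ = C * C' * (Real.exp (M * (t - s)) * Real.exp (M * s)) := by ring
          _ = C * C' * Real.exp (M * t) := by
              rw [← Real.exp_add]; congr 2; ring
    have ht1 : |t - 0| ≤ Real.exp t := by
      rw [sub_zero, abs_of_pos ht]
      have := Real.add_one_le_exp t
      linarith
    calc ‖cv f g t‖ ≤ (C * C' * Real.exp (M * t)) * |t - 0| := hb
      _ ≤ (C * C' * Real.exp (M * t)) * Real.exp t := by gcongr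
      _ = C * C' * (Real.exp (M * t) * Real.exp t) := by ring
      _ = C * C' * Real.exp ((M + 1) * t) := by
          rw [← Real.exp_add]; congr 2; ring

theorem lap_int_aux {C m : ℝ} {f : ℝ → ℂ} (hf : EBd C m f) (z : ℂ) (hz : m < z.re) :
    IntegrableOn (fun r : ℝ => Complex.exp (-(z * r)) * f r) (Ioi 0) := by
  have h1 : IntegrableOn (fun r : ℝ => C * Real.exp (-(z.re - m) * r)) (Ioi 0) :=
    (exp_neg_integrableOn_Ioi 0 (sub_pos.2 hz)).const_mul C
  refine Integrable.mono' h1 ?_ ?_
  · have : Measurable fun r : ℝ => Complex.exp (-(z * r)) * f r :=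
      (Complex.measurable_exp.comp (by fun_prop)).mul hf.meas
    exact this.aestronglyMeasurable
  · refine (ae_restrict_iff' measurableSet_Ioi).2 (Filter.Eventually.of_forall fun r hr => ?_)
    have h2 := hf.bd r hr
    rw [norm_mul, Complex.norm_exp]
    have h3 : (-(z * (r : ℂ))).re = -(z.re * r) := by simp
    rw [h3]
    calc Real.exp (-(z.re * r)) * ‖f r‖ ≤ Real.exp (-(z.re * r)) * (C * Real.exp (m * r)) := by
          gcongr
      _ = C * (Real.exp (-(z.re * r)) * Real.exp (m * r)) := by ring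
      _ = C * Real.exp (-(z.re - m) * r) := by
          rw [← Real.exp_add]; congr 2; ring

theorem lap_add_aux {C m C' m' : ℝ} {f g : ℝ → ℂ} (hf : EBd C m f) (hg : EBd C' m' g) (z : ℂ)
    (hz : m < z.re) (hz' : m' < z.re) : lap (f + g) z = lap f z + lap g z := by
  unfold lap
  rw [← integral_add (lap_int_aux hf z hz) (lap_int_aux hg z hz')]
  congr 1
  funext r
  simp only [Pi.add_apply]
  ring

theorem lap_smul_aux (b : ℂ) (f : ℝ → ℂ) (z : ℂ) : lap (b • f) z = b * lap f z := by
  unfold lap
  rw [← integral_const_mul]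
  congr 1
  funext r
  simp only [Pi.smul_apply, smul_eq_mul]
  ring

theorem lap_FF (a : ℝ) (ha : 1 ≤ a) (b : ℂ) (C m : ℝ) (k : ℝ → ℂ) (hk : EBd C m k) :
    (∃ C' m' : ℝ, EBd C' m' (FF a b k)) ∧
    ∃ M : ℝ, ∀ z : ℂ, M ≤ z.re → lap (FF a b k) z =
      (Real.Gamma a : ℂ) * z ^ (-(a : ℂ)) * (1 + (a * b + a * lap k z) / z) := by
  obtain ⟨⟨C1, m1, hp1⟩, hl1⟩ := lap_pT a ha 0
  obtain ⟨⟨C2, m2, hp2⟩, hl2⟩ := lap_pT (a + 1) (by linarith) 0
  have ha0 : a ≠ 0 := by linarith
  have hFF : FF a b k = pT a 0 + b • pT (a + 1) 0 + cv (pT (a + 1) 0) k := by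
    funext t
    simp only [Pi.add_apply, Pi.smul_apply, smul_eq_mul]
    by_cases ht : 0 < t
    · unfold FF
      rw [if_pos ht]
      congr 1
      · unfold pT pw
        rw [if_pos ht, if_pos ht]
        simp
      · unfold cv
        refine intervalIntegral.integral_congr_ae (Filter.Eventually.of_forall fun s hs => ?_)
        rw [uIoc_of_le ht.le] at hs
        rcases eq_or_lt_of_le hs.2 with h | h
        · rw [h, sub_self]
          simp [pT, Real.zero_rpow ha0]
        · have : 0 < t - s := by linarith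
          unfold pT pw
          rw [if_pos this]
          simp
    · have h3 := (cv_ebd_aux hp2 hk).zero t (not_lt.1 ht)
      unfold FF
      rw [if_neg ht, h3]
      simp [pT, ht]
  have hb1 := hp2.smul b
  have hc := cv_ebd_aux hp2 hk
  rw [hFF]
  refine ⟨⟨_, _, (hp1.add hb1).add hc⟩, ?_⟩
  set M0 := max (max (max m1 m2) (max (max m2 m) 0 + 1)) (max m 0) + 1 with hM0
  refine ⟨M0, fun z hz => ?_⟩
  have e1 : m1 < z.re := by
    have : m1 ≤ max (max (max m1 m2) (max (max m2 m) 0 + 1)) (max m 0) :=
      (le_max_left m1 m2).trans ((le_max_left _ _).trans (le_max_left _ _))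
    linarith
  have e2 : m2 < z.re := by
    have : m2 ≤ max (max (max m1 m2) (max (max m2 m) 0 + 1)) (max m 0) :=
      (le_max_right m1 m2).trans ((le_max_left _ _).trans (le_max_left _ _))
    linarith
  have e3 : max (max m2 m) 0 + 1 < z.re := by
    have : max (max m2 m) 0 + 1 ≤ max (max (max m1 m2) (max (max m2 m) 0 + 1)) (max m 0) :=
      (le_max_right _ _).trans (le_max_left _ _)
    linarith
  have e4 : m < z.re := by
    have : m ≤ max (max (max m1 m2) (max (max m2 m) 0 + 1)) (max m 0) :=
      (le_max_left m 0).trans (le_max_right _ _)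
    linarith
  have e5 : 0 < z.re := by
    have : (0:ℝ) ≤ max (max (max m1 m2) (max (max m2 m) 0 + 1)) (max m 0) :=
      (le_max_right m 0).trans (le_max_right _ _)
    linarith
  have hz0 : z ≠ 0 := by
    intro h; rw [h] at e5; simp at e5
  have e6 : max m1 m2 < z.re := max_lt e1 e2
  rw [lap_add_aux (hp1.add hb1) hc z e6 e3, lap_add_aux hp1 hb1 z e1 e2, lap_smul_aux,
    hl1 z (by simpa using e5), hl2 z (by simpa using e5)]
  have hmax : ∃ D : ℝ, 0 ≤ D ∧ EBd D (max m2 m) (pT (a + 1) 0) ∧ EBd D (max m2 m) k := by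
    refine ⟨max C2 C, (hp2.nonneg).trans (le_max_left _ _),
      hp2.mono (le_max_left _ _) (le_max_left _ _), hk.mono (le_max_right _ _) (le_max_right _ _)⟩
  obtain ⟨D, hD, hD1, hD2⟩ := hmax
  rw [lap_cv D (max m2 m) hD _ _ hD1 hD2 z (max_lt e2 e4), hl2 z (by simpa using e5)]
  rw [sub_zero, Real.Gamma_add_one ha0]
  have hpow : z ^ (-((a + 1 : ℝ) : ℂ)) = z ^ (-(a : ℂ)) / z := by
    push_cast
    rw [show (-((a : ℂ) + 1)) = -(a : ℂ) - 1 by ring, Complex.cpow_sub _ _ hz0, Complex.cpow_one]
  rw [hpow]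
  push_cast
  field_simp
  ring

end Pool.Agent.Helper5.PG
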