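import Mathlib
import Pool.Agent.Helper5.Pt.Defs
import Pool.Agent.Helper5.Pe.Ring

set_option autoImplicit false
open MeasureTheory Set Filter Topology

namespace Pool.Agent.Helper5.PG

open scoped FourierTransform Real SchwartzMap ContDiff in
theorem ae_zero_of_fourier_zero (u : ℝ → ℂ) (hu : Integrable u)
    (h : ∀ w : ℝ, ∫ v : ℝ, Complex.exp (((-2 * π * v * w : ℝ) : ℂ) * Complex.I) • u v = 0) :
    ∀ᵐ t, u t = 0 := by
  have hF : ∀ w, 𝓕 u w = 0 := by
    intro w
    rw [Real.fourier_real_eq_integral_exp_smul]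
    exact h w
  refine ae_eq_zero_of_integral_contDiff_smul_eq_zero hu.locallyIntegrable ?_
  intro g hg hgs
  have hG1 : HasCompactSupport (fun x : ℝ => (g x : ℂ)) := by
    refine hgs.comp_left (g := fun r : ℝ => (r : ℂ)) ?_
    simp
  have hG2 : ContDiff ℝ ∞ (fun x : ℝ => (g x : ℂ)) :=
    Complex.ofRealCLM.contDiff.comp hg
  let G : 𝓢(ℝ, ℂ) := hG1.toSchwartzMap hG2
  let P : 𝓢(ℝ, ℂ) := 𝓕⁻ G
  have hGφ : 𝓕 P = G := FourierTransform.fourier_fourierInv_eq G
  have key : ∫ ξ, (𝓕 P) ξ • u ξ = ∫ x, P x • 𝓕 u x := by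
    have := VectorFourier.integral_fourierIntegral_smul_eq_flip (L := innerₗ ℝ)
      (e := Real.fourierChar) (μ := volume) (ν := volume) (f := ⇑P) (g := u)
      Real.continuous_fourierChar continuous_inner P.integrable hu
    simpa using! this
  rw [hGφ] at key
  have h0 : ∫ x, P x • 𝓕 u x = 0 := by
    simp [hF]
  rw [h0] at key
  exact key

theorem EBd.intOn {C m : ℝ} {f : ℝ → ℂ} (hf : EBd C m f) (z : ℂ) (hz : m < z.re) :
    IntegrableOn (fun r : ℝ => Complex.exp (-(z * r)) * f r) (Ioi (0 : ℝ)) := by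
  have h1 : IntegrableOn (fun x : ℝ => C * Real.exp (-(z.re - m) * x)) (Ioi (0 : ℝ)) :=
    (exp_neg_integrableOn_Ioi 0 (by linarith)).const_mul C
  refine Integrable.mono' h1 ?_ ?_
  · refine (Measurable.aestronglyMeasurable ?_)
    exact Measurable.mul (by fun_prop) hf.meas
  · refine (ae_restrict_iff' measurableSet_Ioi).2 (Filter.Eventually.of_forall fun t ht => ?_)
    have ht' : 0 < t := ht
    rw [norm_mul, Complex.norm_exp]
    have h2 : (-(z * (t : ℂ))).re = -(z.re * t) := by simp
    rw [h2]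
    calc Real.exp (-(z.re * t)) * ‖f t‖ ≤ Real.exp (-(z.re * t)) * (C * Real.exp (m * t)) :=
          mul_le_mul_of_nonneg_left (hf.bd t ht') (Real.exp_pos _).le
      _ = C * (Real.exp (-(z.re * t)) * Real.exp (m * t)) := by ring
      _ = C * Real.exp (-(z.re - m) * t) := by rw [← Real.exp_add]; ring_nf

theorem lap_inj (C m D m' M : ℝ) (f g : ℝ → ℂ) (hf : EBd C m f) (hg : EBd D m' g)
    (h : ∀ z : ℂ, M ≤ z.re → lap f z = lap g z) : f =ᵐ[volume] g := by
  set K : ℝ := max M (max m m') + 1 with hK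
  have hM : M ≤ K := by linarith [le_max_left M (max m m')]
  have hm : m < K := by linarith [le_max_right M (max m m'), le_max_left m m']
  have hm' : m' < K := by linarith [le_max_right M (max m m'), le_max_right m m']
  have e1 : ∀ r : ℝ, r ∉ Ioi (0 : ℝ) → f r = 0 := fun r hr => hf.zero r (not_lt.1 hr)
  have e2 : ∀ r : ℝ, r ∉ Ioi (0 : ℝ) → g r = 0 := fun r hr => hg.zero r (not_lt.1 hr)
  let u : ℝ → ℂ := fun r => Complex.exp (-((K : ℂ) * r)) * f r - Complex.exp (-((K : ℂ) * r)) * g r
  have hu0 : ∀ r : ℝ, r ∉ Ioi (0 : ℝ) → u r = 0 := fun r hr => by simp [u, e1 r hr, e2 r hr]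
  have hui : Integrable u := by
    have h1 : IntegrableOn u (Ioi (0 : ℝ)) :=
      (hf.intOn (K : ℂ) (by simpa using hm)).sub (hg.intOn (K : ℂ) (by simpa using hm'))
    have h2 : u = (Ioi (0 : ℝ)).indicator u := by
      funext r
      by_cases hr : r ∈ Ioi (0 : ℝ)
      · rw [indicator_of_mem hr]
      · rw [indicator_of_notMem hr, hu0 r hr]
    rw [h2]
    exact (integrable_indicator_iff measurableSet_Ioi).2 h1
  have hz := ae_zero_of_fourier_zero u hui (by
    intro w
    have h1 : ∫ v : ℝ, Complex.exp (((-2 * Real.pi * v * w : ℝ) : ℂ) * Complex.I) • u v =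
        ∫ v in Ioi (0 : ℝ), Complex.exp (((-2 * Real.pi * v * w : ℝ) : ℂ) * Complex.I) • u v := by
      symm
      apply setIntegral_eq_integral_of_forall_compl_eq_zero
      intro r hr
      rw [hu0 r hr, smul_zero]
    rw [h1]
    let z : ℂ := (K : ℂ) + ((2 * Real.pi * w : ℝ) : ℂ) * Complex.I
    have hzre : z.re = K := by simp [z]
    have h2 : ∀ v : ℝ, Complex.exp (((-2 * Real.pi * v * w : ℝ) : ℂ) * Complex.I) • u v =
        Complex.exp (-(z * v)) * f v - Complex.exp (-(z * v)) * g v := by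
      intro v
      have h3 : Complex.exp (-(z * v)) =
          Complex.exp (((-2 * Real.pi * v * w : ℝ) : ℂ) * Complex.I) *
            Complex.exp (-((K : ℂ) * v)) := by
        rw [← Complex.exp_add]
        congr 1
        simp only [z]
        push_cast
        ring
      rw [h3]
      simp only [u, smul_eq_mul]
      ring
    simp_rw [h2]
    rw [integral_sub (hf.intOn z (by rw [hzre]; exact hm)) (hg.intOn z (by rw [hzre]; exact hm'))]
    have h4 := h z (by rw [hzre]; exact hM)
    unfold lap at h4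
    rw [h4, sub_self])
  filter_upwards [hz] with t ht
  have h5 : Complex.exp (-((K : ℂ) * t)) * (f t - g t) = 0 := by
    rw [mul_sub]
    exact ht
  rcases mul_eq_zero.1 h5 with h6 | h6
  · exact absurd h6 (Complex.exp_ne_zero _)
  · exact sub_eq_zero.1 h6

end Pool.Agent.Helper5.PG
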