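import Mathlib
import Pool.Agent.Helper5.Pt.Defs
import Pool.Agent.Helper5.Pe.Ring
import Pool.Agent.Helper5.Pt.CpowBd

set_option autoImplicit false
open MeasureTheory Set Filter Topology

namespace Pool.Agent.Helper5.PG

theorem term_bd_TtEbd (C m : ℝ) (ρ : ℝ → ℂ) (hρ : EBd C m ρ) (t y : ℝ) (hy : 0 < y) (n : ℕ) :
    ‖((-(t : ℂ)) ^ (n + 1) / ((n + 1).factorial : ℂ)) * cpow ρ n y‖ ≤
      ((C * |t|) ^ (n + 1) / ((n + 1).factorial : ℝ)) * (Real.exp y * Real.exp (m * y)) := by
  have h1 := (cpow_bd C m ρ hρ n).1 y hy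
  have hC := hρ.nonneg
  have h2 : y ^ n / (n.factorial : ℝ) ≤ Real.exp y := Real.pow_div_factorial_le_exp y hy.le n
  rw [norm_mul, norm_div, norm_pow, norm_neg, Complex.norm_real, Complex.norm_natCast,
    Real.norm_eq_abs]
  calc |t| ^ (n + 1) / ((n + 1).factorial : ℝ) * ‖cpow ρ n y‖
      ≤ |t| ^ (n + 1) / ((n + 1).factorial : ℝ) *
        (C ^ (n + 1) * Real.exp y * Real.exp (m * y)) := by
        gcongr
        refine h1.trans ?_
        gcongr
    _ = _ := by rw [mul_pow]; ring

theorem term_summ (C m : ℝ) (ρ : ℝ → ℂ) (hρ : EBd C m ρ) (t y : ℝ) :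
    Summable (fun n : ℕ => ((-(t : ℂ)) ^ (n + 1) / ((n + 1).factorial : ℂ)) * cpow ρ n y) := by
  rcases lt_or_ge 0 y with hy | hy
  · refine Summable.of_norm_bounded
      (g := fun n : ℕ => ((C * |t|) ^ (n + 1) / ((n + 1).factorial : ℝ)) *
        (Real.exp y * Real.exp (m * y))) ?_ (term_bd_TtEbd C m ρ hρ t y hy)
    exact (((summable_nat_add_iff 1).mpr (Real.summable_pow_div_factorial (C * |t|)))).mul_right _
  · have : (fun n : ℕ => ((-(t : ℂ)) ^ (n + 1) / ((n + 1).factorial : ℂ)) * cpow ρ n y)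
        = fun _ => 0 := by
      funext n
      rw [(cpow_bd C m ρ hρ n).2.2.1 y hy, mul_zero]
    rw [this]
    exact summable_zero

theorem rk_zero_TtEbd (C m : ℝ) (ρ : ℝ → ℂ) (hρ : EBd C m ρ) (t y : ℝ) (hy : y ≤ 0) :
    rk ρ t y = 0 := by
  unfold rk
  have : (fun n : ℕ => ((-(t : ℂ)) ^ (n + 1) / ((n + 1).factorial : ℂ)) * cpow ρ n y)
      = fun _ => 0 := by
    funext n
    rw [(cpow_bd C m ρ hρ n).2.2.1 y hy, mul_zero]
  rw [this, tsum_zero]

theorem rk_bd_TtEbd (C m : ℝ) (ρ : ℝ → ℂ) (hρ : EBd C m ρ) (t y : ℝ) (hy : 0 < y) :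
    ‖rk ρ t y‖ ≤ Real.exp (C * |t|) * (Real.exp y * Real.exp (m * y)) := by
  have hs : Summable (fun n : ℕ => ((C * |t|) ^ (n + 1) / ((n + 1).factorial : ℝ))) :=
    (summable_nat_add_iff 1).mpr (Real.summable_pow_div_factorial (C * |t|))
  have h1 := tsum_of_norm_bounded ((hs.mul_right (Real.exp y * Real.exp (m * y))).hasSum)
    (term_bd_TtEbd C m ρ hρ t y hy)
  refine h1.trans ?_
  rw [tsum_mul_right]
  have h2 : ∑' n : ℕ, ((C * |t|) ^ (n + 1) / ((n + 1).factorial : ℝ)) ≤ Real.exp (C * |t|) := by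
    have h3 : Real.exp (C * |t|) = ∑' n : ℕ, (C * |t|) ^ n / (n.factorial : ℝ) := by
      rw [Real.exp_eq_exp_ℝ, NormedSpace.exp_eq_tsum_div]
    have h4 := (Real.summable_pow_div_factorial (C * |t|)).tsum_eq_zero_add
    rw [h3, h4]
    simp
  gcongr

theorem rk_meas_TtEbd (C m : ℝ) (ρ : ℝ → ℂ) (hρ : EBd C m ρ) :
    Measurable (fun p : ℝ × ℝ => rk ρ p.1 p.2) := by
  refine measurable_of_tendsto_metrizable
    (f := fun (N : ℕ) (p : ℝ × ℝ) => ∑ n ∈ Finset.range N,
      ((-(p.1 : ℂ)) ^ (n + 1) / ((n + 1).factorial : ℂ)) * cpow ρ n p.2) ?_ ?_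
  · intro N
    refine Finset.measurable_sum _ fun n _ => ?_
    have h1 := (cpow_bd C m ρ hρ n).2.1
    refine Measurable.mul ?_ (h1.comp measurable_snd)
    fun_prop
  · rw [tendsto_pi_nhds]
    intro p
    exact (term_summ C m ρ hρ p.1 p.2).hasSum.tendsto_sum_nat

theorem int_eq (C m D m' : ℝ) (ρ h : ℝ → ℂ) (hρ : EBd C m ρ) (hh : EBd D m' h) (x : ℝ) :
    ∫ t in (0:ℝ)..x, rk ρ t (x - t) * h t = ∫ t : ℝ, rk ρ t (x - t) * h t := by
  rcases lt_or_ge 0 x with hx | hx
  · rw [intervalIntegral.integral_of_le hx.le]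
    refine setIntegral_eq_integral_of_forall_compl_eq_zero fun t ht => ?_
    rw [mem_Ioc, not_and_or, not_lt, not_le] at ht
    rcases ht with ht | ht
    · rw [hh.zero t ht, mul_zero]
    · rw [rk_zero_TtEbd C m ρ hρ t (x - t) (by linarith), zero_mul]
  · have h1 : ∀ t : ℝ, rk ρ t (x - t) * h t = 0 := by
      intro t
      rcases lt_or_ge 0 t with ht | ht
      · rw [rk_zero_TtEbd C m ρ hρ t (x - t) (by linarith), zero_mul]
      · rw [hh.zero t ht, mul_zero]
    simp [h1]

theorem meas_aux (K : ℝ × ℝ → ℂ) (hK : Measurable K) (h : ℝ → ℂ) (hh : Measurable h) :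
    Measurable (fun x : ℝ => h x + ∫ t : ℝ, K (t, x - t) * h t) := by
  have h3 : Measurable (fun p : ℝ × ℝ => ((p.2, p.1 - p.2) : ℝ × ℝ)) :=
    measurable_snd.prodMk (measurable_fst.sub measurable_snd)
  have h4 : Measurable (fun p : ℝ × ℝ => K (p.2, p.1 - p.2)) := hK.comp h3
  have h5 : Measurable (fun p : ℝ × ℝ => h p.2) := hh.comp measurable_snd
  have h2 : Measurable (fun p : ℝ × ℝ => K (p.2, p.1 - p.2) * h p.2) := h4.mul h5
  have h6 : Measurable (fun x : ℝ => ∫ t : ℝ, K (t, x - t) * h t) :=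
    (StronglyMeasurable.integral_prod_right' (ν := (volume : Measure ℝ))
      (f := fun p : ℝ × ℝ => K (p.2, p.1 - p.2) * h p.2) h2.stronglyMeasurable).measurable
  exact hh.add h6

theorem tt_meas (C m D m' : ℝ) (ρ h : ℝ → ℂ) (hρ : EBd C m ρ) (hh : EBd D m' h) :
    Measurable (TTr ρ h) := by
  have h1 : TTr ρ h = fun x => h x + ∫ t : ℝ, rk ρ t (x - t) * h t := by
    funext x
    unfold TTr
    rw [int_eq C m D m' ρ h hρ hh x]
  rw [h1]
  exact meas_aux (fun p : ℝ × ℝ => rk ρ p.1 p.2) (rk_meas_TtEbd C m ρ hρ) h hh.meas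

theorem tt_ebd (C m D m' : ℝ) (ρ h : ℝ → ℂ) (hρ : EBd C m ρ) (hh : EBd D m' h) :
    ∃ C' m'' : ℝ, EBd C' m'' (TTr ρ h) := by
  have hC := hρ.nonneg
  have hD := hh.nonneg
  refine ⟨D, (C + |1 + m| + |m'|) + 1, tt_meas C m D m' ρ h hρ hh, ?_, ?_⟩
  · intro x hx
    unfold TTr
    rw [int_eq C m D m' ρ h hρ hh x, hh.zero x hx, zero_add]
    have h1 : ∀ t : ℝ, rk ρ t (x - t) * h t = 0 := by
      intro t
      rcases lt_or_ge 0 t with ht | ht
      · rw [rk_zero_TtEbd C m ρ hρ t (x - t) (by linarith), zero_mul]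
      · rw [hh.zero t ht, mul_zero]
    simp [h1]
  · intro x hx
    set M : ℝ := C + |1 + m| + |m'| with hM
    have hb : ∀ t ∈ Set.uIoc (0:ℝ) x, ‖rk ρ t (x - t) * h t‖ ≤ D * Real.exp (M * x) := by
      intro t ht
      rw [Set.uIoc_of_le hx.le] at ht
      obtain ⟨ht0, htx⟩ := ht
      rcases htx.lt_or_eq with htx | htx
      · have e1 := rk_bd_TtEbd C m ρ hρ t (x - t) (by linarith)
        have e2 := hh.bd t ht0
        rw [norm_mul]
        calc ‖rk ρ t (x - t)‖ * ‖h t‖
            ≤ (Real.exp (C * |t|) * (Real.exp (x - t) * Real.exp (m * (x - t)))) *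
              (D * Real.exp (m' * t)) := by gcongr
          _ = D * Real.exp (C * |t| + ((x - t) + m * (x - t)) + m' * t) := by
              rw [Real.exp_add, Real.exp_add, Real.exp_add]; ring
          _ ≤ D * Real.exp (M * x) := by
              gcongr
              rw [abs_of_pos ht0]
              have a1 : (x - t) + m * (x - t) ≤ |1 + m| * x := by
                have : (x - t) + m * (x - t) = (1 + m) * (x - t) := by ring
                rw [this]
                calc (1 + m) * (x - t) ≤ |1 + m| * (x - t) :=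
                      mul_le_mul_of_nonneg_right (le_abs_self _) (by linarith)
                  _ ≤ |1 + m| * x := by
                      have := abs_nonneg (1 + m)
                      nlinarith
              have a2 : m' * t ≤ |m'| * x := by
                calc m' * t ≤ |m'| * t := by
                      gcongr
                      exact le_abs_self _
                  _ ≤ |m'| * x := by
                      gcongr
              have a3 : C * t ≤ C * x := by gcongr
              rw [hM]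
              nlinarith
      · rw [rk_zero_TtEbd C m ρ hρ t (x - t) (by linarith), zero_mul, norm_zero]
        positivity
    have h1 := intervalIntegral.norm_integral_le_of_norm_le_const hb
    have h2 := hh.bd x hx
    have h3 : Real.exp (m' * x) ≤ Real.exp (M * x) := by
      apply Real.exp_le_exp.mpr
      have : m' ≤ M := by
        rw [hM]
        have := le_abs_self m'
        have := abs_nonneg (1 + m)
        linarith
      exact mul_le_mul_of_nonneg_right this hx.le
    rw [sub_zero, abs_of_pos hx] at h1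
    have h4 : 1 + x ≤ Real.exp x := by
      have := Real.add_one_le_exp x
      linarith
    calc ‖TTr ρ h x‖ ≤ ‖h x‖ + ‖∫ t in (0:ℝ)..x, rk ρ t (x - t) * h t‖ := norm_add_le _ _
      _ ≤ D * Real.exp (M * x) + D * Real.exp (M * x) * x := by
          refine add_le_add (h2.trans ?_) h1
          gcongr
      _ = D * Real.exp (M * x) * (1 + x) := by ring
      _ ≤ D * Real.exp (M * x) * Real.exp x := by gcongr
      _ = D * Real.exp ((M + 1) * x) := by
          rw [mul_assoc, ← Real.exp_add]; ring_nf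

end Pool.Agent.Helper5.PG
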