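import Mathlib
import Pool.Agent.Helper5.Pt.Defs
import Pool.Agent.Helper5.Pe.Ring
import Pool.Agent.Helper5.Pt.CpowBd
import Pool.Agent.Helper5.Pt.TtEbd
import Pool.Agent.Helper5.Pe.EeConv

set_option autoImplicit false
open MeasureTheory Set Filter Topology

namespace Pool.Agent.Helper5.PG

theorem lap_full (g : ℝ → ℂ) (hg : ∀ t : ℝ, t ≤ 0 → g t = 0) (z : ℂ) :
    lap g z = ∫ r : ℝ, Complex.exp (-(z * r)) * g r := by
  unfold lap
  exact setIntegral_eq_integral_of_forall_compl_eq_zero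
    (fun x hx => by rw [hg x (not_lt.1 hx), mul_zero])

theorem rexp_shift (x : ℝ) :
    HasSum (fun n : ℕ => x ^ (n + 1) / ((n + 1).factorial : ℝ)) (Real.exp x - 1) := by
  have h := NormedSpace.expSeries_div_hasSum_exp (𝔸 := ℝ) x
  rw [← Real.exp_eq_exp_ℝ] at h
  have h2 := (hasSum_nat_add_iff' 1).2 h
  simpa using h2

theorem cexp_shift (x : ℂ) :
    HasSum (fun n : ℕ => x ^ (n + 1) / ((n + 1).factorial : ℂ)) (Complex.exp x - 1) := by
  have h := NormedSpace.expSeries_div_hasSum_exp (𝔸 := ℂ) x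
  rw [← Complex.exp_eq_exp_ℂ] at h
  have h2 := (hasSum_nat_add_iff' 1).2 h
  simpa using h2

theorem term_bd (C m : ℝ) (ρ : ℝ → ℂ) (hρ : EBd C m ρ) (n : ℕ) (t y : ℝ) (hy : 0 < y) :
    ‖((-(t : ℂ)) ^ (n + 1) / ((n + 1).factorial : ℂ)) * cpow ρ n y‖ ≤
      (C * |t|) ^ (n + 1) / ((n + 1).factorial : ℝ) * (Real.exp y * Real.exp (m * y)) := by
  have hC := hρ.nonneg
  have h1 := (cpow_bd C m ρ hρ n).1 y hy
  have h2 : y ^ n / (n.factorial : ℝ) ≤ Real.exp y := Real.pow_div_factorial_le_exp y hy.le n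
  have h3 : C ^ (n + 1) * (y ^ n / (n.factorial : ℝ)) * Real.exp (m * y) ≤
      C ^ (n + 1) * Real.exp y * Real.exp (m * y) := by gcongr
  rw [norm_mul, norm_div, norm_pow, norm_neg, Complex.norm_real, Real.norm_eq_abs,
    Complex.norm_natCast]
  calc |t| ^ (n + 1) / ((n + 1).factorial : ℝ) * ‖cpow ρ n y‖
      ≤ |t| ^ (n + 1) / ((n + 1).factorial : ℝ) *
        (C ^ (n + 1) * Real.exp y * Real.exp (m * y)) :=
        mul_le_mul_of_nonneg_left (h1.trans h3) (by positivity)
    _ = (C * |t|) ^ (n + 1) / ((n + 1).factorial : ℝ) * (Real.exp y * Real.exp (m * y)) := by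
        rw [mul_pow]; ring

theorem rk_zero (C m : ℝ) (ρ : ℝ → ℂ) (hρ : EBd C m ρ) (t y : ℝ) (hy : y ≤ 0) :
    rk ρ t y = 0 := by
  unfold rk
  have : (fun n : ℕ => ((-(t : ℂ)) ^ (n + 1) / ((n + 1).factorial : ℂ)) * cpow ρ n y) =
      fun _ => 0 := by
    funext n
    rw [(cpow_bd C m ρ hρ n).2.2.1 y hy, mul_zero]
  rw [this, tsum_zero]

theorem rk_hasSum (C m : ℝ) (ρ : ℝ → ℂ) (hρ : EBd C m ρ) (t y : ℝ) :
    HasSum (fun n : ℕ => ((-(t : ℂ)) ^ (n + 1) / ((n + 1).factorial : ℂ)) * cpow ρ n y)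
      (rk ρ t y) := by
  rcases le_or_gt y 0 with hy | hy
  · rw [rk_zero C m ρ hρ t y hy]
    have : (fun n : ℕ => ((-(t : ℂ)) ^ (n + 1) / ((n + 1).factorial : ℂ)) * cpow ρ n y) =
        fun _ => 0 := by
      funext n
      rw [(cpow_bd C m ρ hρ n).2.2.1 y hy, mul_zero]
    rw [this]
    exact hasSum_zero
  · have hs : Summable (fun n : ℕ => (C * |t|) ^ (n + 1) / ((n + 1).factorial : ℝ) *
        (Real.exp y * Real.exp (m * y))) := (rexp_shift (C * |t|)).summable.mul_right _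
    exact (Summable.of_norm_bounded hs (fun n => term_bd C m ρ hρ n t y hy)).hasSum

theorem rk_bd (C m : ℝ) (ρ : ℝ → ℂ) (hρ : EBd C m ρ) (t y : ℝ) (hy : 0 < y) :
    ‖rk ρ t y‖ ≤ Real.exp (C * |t|) * (Real.exp y * Real.exp (m * y)) := by
  have h := tsum_of_norm_bounded ((rexp_shift (C * |t|)).mul_right
    (Real.exp y * Real.exp (m * y))) (fun n => term_bd C m ρ hρ n t y hy)
  refine h.trans (mul_le_mul_of_nonneg_right (by linarith) (by positivity))

theorem rk_meas (C m : ℝ) (ρ : ℝ → ℂ) (hρ : EBd C m ρ) :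
    Measurable (fun p : ℝ × ℝ => rk ρ p.1 p.2) := by
  refine measurable_of_tendsto_metrizable (f := fun (N : ℕ) (p : ℝ × ℝ) =>
    ∑ n ∈ Finset.range N, ((-(p.1 : ℂ)) ^ (n + 1) / ((n + 1).factorial : ℂ)) * cpow ρ n p.2)
    (fun N => ?_) (tendsto_pi_nhds.2 fun p => (rk_hasSum C m ρ hρ p.1 p.2).tendsto_sum_nat)
  refine Finset.measurable_sum _ (fun n _ => ?_)
  have hm := (cpow_bd C m ρ hρ n).2.1
  exact ((((Complex.measurable_ofReal.comp measurable_fst).neg.pow_const (n+1)).div_const _).mul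
    (hm.comp measurable_snd))

theorem exp_ind_int (a : ℝ) (ha : 0 < a) :
    Integrable (Set.indicator (Ioi (0:ℝ)) (fun t : ℝ => Real.exp (-a * t))) := by
  rw [integrable_indicator_iff measurableSet_Ioi]
  exact exp_neg_integrableOn_Ioi 0 ha

theorem norm_exp_zr (z : ℂ) (r : ℝ) : ‖Complex.exp (-(z * r))‖ = Real.exp (-(z.re * r)) := by
  rw [Complex.norm_exp]
  simp

theorem h_int (D m' : ℝ) (h : ℝ → ℂ) (hh : EBd D m' h) (z : ℂ) (hz : m' < z.re) :
    Integrable (fun t : ℝ => Complex.exp (-(z * t)) * h t) := by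
  refine Integrable.mono' ((exp_ind_int (z.re - m') (by linarith)).const_mul D) ?_ ?_
  · exact ((by fun_prop : Measurable (fun t : ℝ => Complex.exp (-(z * t)))).mul
      hh.meas).aestronglyMeasurable
  · refine Filter.Eventually.of_forall (fun t => ?_)
    rcases le_or_gt t 0 with ht | ht
    · rw [hh.zero t ht, mul_zero, norm_zero]
      simp [not_lt.2 ht]
    · rw [norm_mul, norm_exp_zr, Set.indicator_of_mem (show t ∈ Ioi (0:ℝ) from ht)]
      have h1 := hh.bd t ht
      calc Real.exp (-(z.re * t)) * ‖h t‖ ≤ Real.exp (-(z.re * t)) * (D * Real.exp (m' * t)) :=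
            mul_le_mul_of_nonneg_left h1 (Real.exp_pos _).le
        _ = D * (Real.exp (-(z.re * t)) * Real.exp (m' * t)) := by ring
        _ = D * Real.exp (-(z.re - m') * t) := by rw [← Real.exp_add]; congr 2; ring

theorem rk_lap (C m : ℝ) (ρ : ℝ → ℂ) (hρ : EBd C m ρ) (z : ℂ) (hz : m + 1 < z.re) (t : ℝ) :
    ∫ y : ℝ, Complex.exp (-(z * y)) * rk ρ t y = Complex.exp (-(t * lap ρ z)) - 1 := by
  have hfull : ∫ y : ℝ, Complex.exp (-(z * y)) * rk ρ t y =
      ∫ y in Ioi (0:ℝ), Complex.exp (-(z * y)) * rk ρ t y := by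
    symm
    exact setIntegral_eq_integral_of_forall_compl_eq_zero
      (fun x hx => by rw [rk_zero C m ρ hρ t x (not_lt.1 hx), mul_zero])
  rw [hfull]
  have key : HasSum (fun n : ℕ => ∫ y in Ioi (0:ℝ), Complex.exp (-(z * y)) *
      (((-(t : ℂ)) ^ (n + 1) / ((n + 1).factorial : ℂ)) * cpow ρ n y))
      (∫ y in Ioi (0:ℝ), Complex.exp (-(z * y)) * rk ρ t y) := by
    refine hasSum_integral_of_dominated_convergence
      (bound := fun (n : ℕ) (y : ℝ) => (C * |t|) ^ (n + 1) / ((n + 1).factorial : ℝ) *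
        Real.exp (-(z.re - m - 1) * y)) ?_ ?_ ?_ ?_ ?_
    · intro n
      have hm := (cpow_bd C m ρ hρ n).2.1
      exact ((by fun_prop : Measurable (fun t : ℝ => Complex.exp (-(z * t)))).mul
        (measurable_const.mul hm)).aestronglyMeasurable
    · intro n
      refine (ae_restrict_iff' measurableSet_Ioi).2 (Filter.Eventually.of_forall (fun y hy => ?_))
      have h1 := term_bd C m ρ hρ n t y hy
      rw [norm_mul, norm_exp_zr]
      calc Real.exp (-(z.re * y)) * ‖((-(t : ℂ)) ^ (n + 1) / ((n + 1).factorial : ℂ)) * cpow ρ n y‖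
          ≤ Real.exp (-(z.re * y)) * ((C * |t|) ^ (n + 1) / ((n + 1).factorial : ℝ) *
            (Real.exp y * Real.exp (m * y))) := mul_le_mul_of_nonneg_left h1 (Real.exp_pos _).le
        _ = (C * |t|) ^ (n + 1) / ((n + 1).factorial : ℝ) *
            (Real.exp (-(z.re * y)) * (Real.exp y * Real.exp (m * y))) := by ring
        _ = (C * |t|) ^ (n + 1) / ((n + 1).factorial : ℝ) * Real.exp (-(z.re - m - 1) * y) := by
            rw [← Real.exp_add, ← Real.exp_add]; congr 2; ring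
    · exact Filter.Eventually.of_forall (fun y => (rexp_shift (C * |t|)).summable.mul_right _)
    · have : (fun y : ℝ => ∑' n : ℕ, (C * |t|) ^ (n + 1) / ((n + 1).factorial : ℝ) *
          Real.exp (-(z.re - m - 1) * y)) =
          fun y : ℝ => (Real.exp (C * |t|) - 1) * Real.exp (-(z.re - m - 1) * y) := by
        funext y
        exact ((rexp_shift (C * |t|)).mul_right _).tsum_eq
      rw [this]
      exact (exp_neg_integrableOn_Ioi 0 (by linarith : 0 < z.re - m - 1)).const_mul _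
    · exact Filter.Eventually.of_forall (fun y => (rk_hasSum C m ρ hρ t y).mul_left _)
  have hterm : ∀ n : ℕ, ∫ y in Ioi (0:ℝ), Complex.exp (-(z * y)) *
      (((-(t : ℂ)) ^ (n + 1) / ((n + 1).factorial : ℂ)) * cpow ρ n y) =
      (-(t * lap ρ z)) ^ (n + 1) / ((n + 1).factorial : ℂ) := by
    intro n
    have h1 := (cpow_bd C m ρ hρ n).2.2.2 z (by linarith)
    have h2 : (fun y : ℝ => Complex.exp (-(z * y)) *
      (((-(t : ℂ)) ^ (n + 1) / ((n + 1).factorial : ℂ)) * cpow ρ n y)) =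
      fun y : ℝ => ((-(t : ℂ)) ^ (n + 1) / ((n + 1).factorial : ℂ)) *
        (Complex.exp (-(z * y)) * cpow ρ n y) := by
      funext y; ring
    rw [h2, integral_const_mul]
    have h3 : ∫ y in Ioi (0:ℝ), Complex.exp (-(z * y)) * cpow ρ n y = lap ρ z ^ (n + 1) := h1
    rw [h3, ← neg_mul, mul_pow]
    ring
  simp only [hterm] at key
  exact key.unique (cexp_shift _)

theorem tt_lap (C m D m' : ℝ) (ρ h : ℝ → ℂ) (hρ : EBd C m ρ) (hh : EBd D m' h) :
    ∃ M : ℝ, ∀ z : ℂ, M ≤ z.re → lap (TTr ρ h) z = lap h (z + lap ρ z) := by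
  have hC := hρ.nonneg
  have hD := hh.nonneg
  refine ⟨max (m' + C) (m + 1) + 1, fun z hz => ?_⟩
  have hz1 : m' + C < z.re := by
    have := le_max_left (m' + C) (m + 1); linarith
  have hz2 : m + 1 < z.re := by
    have := le_max_right (m' + C) (m + 1); linarith
  have hz3 : m' < z.re := by linarith
  obtain ⟨R, hRdef⟩ : ∃ R : ℝ × ℝ → ℂ, ∀ p, R p =
    (Complex.exp (-(z * (p.1 : ℝ))) * h p.1) * (Complex.exp (-(z * (p.2 : ℝ))) * rk ρ p.1 p.2) :=
    ⟨_, fun _ => rfl⟩
  have hRfun : R = fun p : ℝ × ℝ => (Complex.exp (-(z * (p.1 : ℝ))) * h p.1) *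
      (Complex.exp (-(z * (p.2 : ℝ))) * rk ρ p.1 p.2) := funext hRdef
  have hRm : Measurable R := by
    rw [hRfun]
    have m1 : Measurable (fun t : ℝ => Complex.exp (-(z * t)) * h t) :=
      (by fun_prop : Measurable (fun t : ℝ => Complex.exp (-(z * t)))).mul hh.meas
    have m2 : Measurable (fun p : ℝ × ℝ => Complex.exp (-(z * (p.2 : ℝ)))) := by fun_prop
    exact (m1.comp measurable_fst).mul (m2.mul (rk_meas C m ρ hρ))
  have hRi : Integrable R ((volume : Measure ℝ).prod (volume : Measure ℝ)) := by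
    refine Integrable.mono' (((exp_ind_int (z.re - m' - C) (by linarith)).mul_prod
      (exp_ind_int (z.re - m - 1) (by linarith))).const_mul D) hRm.aestronglyMeasurable ?_
    refine Filter.Eventually.of_forall (fun p => ?_)
    have hnn : ∀ (a t : ℝ), 0 ≤ Set.indicator (Ioi (0:ℝ)) (fun t : ℝ => Real.exp (-a * t)) t :=
      fun a t => Set.indicator_nonneg (fun _ _ => (Real.exp_pos _).le) t
    rcases le_or_gt p.1 0 with h1 | h1
    · rw [hRdef, hh.zero p.1 h1, mul_zero, zero_mul, norm_zero]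
      exact mul_nonneg hD (mul_nonneg (hnn _ _) (hnn _ _))
    rcases le_or_gt p.2 0 with h2 | h2
    · rw [hRdef, rk_zero C m ρ hρ p.1 p.2 h2, mul_zero, mul_zero, norm_zero]
      exact mul_nonneg hD (mul_nonneg (hnn _ _) (hnn _ _))
    rw [hRdef, norm_mul, norm_mul, norm_mul, norm_exp_zr, norm_exp_zr,
      Set.indicator_of_mem (show p.1 ∈ Ioi (0:ℝ) from h1),
      Set.indicator_of_mem (show p.2 ∈ Ioi (0:ℝ) from h2)]
    have b1 := hh.bd p.1 h1
    have b2 := rk_bd C m ρ hρ p.1 p.2 h2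
    rw [abs_of_pos h1] at b2
    calc Real.exp (-(z.re * p.1)) * ‖h p.1‖ * (Real.exp (-(z.re * p.2)) * ‖rk ρ p.1 p.2‖)
        ≤ Real.exp (-(z.re * p.1)) * (D * Real.exp (m' * p.1)) * (Real.exp (-(z.re * p.2)) *
          (Real.exp (C * p.1) * (Real.exp p.2 * Real.exp (m * p.2)))) := by gcongr
      _ = D * ((Real.exp (-(z.re * p.1)) * (Real.exp (m' * p.1) * Real.exp (C * p.1))) *
          (Real.exp (-(z.re * p.2)) * (Real.exp p.2 * Real.exp (m * p.2)))) := by ring
      _ = D * (Real.exp (-(z.re - m' - C) * p.1) * Real.exp (-(z.re - m - 1) * p.2)) := by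
          rw [← Real.exp_add, ← Real.exp_add, ← Real.exp_add, ← Real.exp_add]
          congr 3 <;> ring
  have hφ := measurePreserving_prod_neg_add (volume : Measure ℝ) (volume : Measure ℝ)
  have hRφ : Integrable (fun p : ℝ × ℝ => R (p.1, -p.1 + p.2))
      ((volume : Measure ℝ).prod (volume : Measure ℝ)) :=
    hφ.integrable_comp_of_integrable hRi
  have hint : ∫ p, R (p.1, -p.1 + p.2) ∂((volume : Measure ℝ).prod (volume : Measure ℝ)) =
      ∫ p, R p ∂((volume : Measure ℝ).prod (volume : Measure ℝ)) := by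
    have h1 := integral_map (μ := (volume : Measure ℝ).prod (volume : Measure ℝ))
      hφ.measurable.aemeasurable (f := R) hRm.aestronglyMeasurable
    rw [hφ.map_eq] at h1
    exact h1.symm
  rw [integral_prod_symm _ hRφ, integral_prod _ hRi] at hint
  -- the inner integrals
  have hA : ∀ t : ℝ, ∫ y : ℝ, R (t, y) =
      (Complex.exp (-(z * t)) * h t) * (Complex.exp (-(t * lap ρ z)) - 1) := by
    intro t
    rw [← rk_lap C m ρ hρ z hz2 t, ← integral_const_mul]
    congr 1
    funext y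
    rw [hRdef]
  have hS : ∀ x : ℝ, 0 < x → ∫ t : ℝ, R (t, -t + x) =
      Complex.exp (-(z * x)) * ∫ t in (0:ℝ)..x, rk ρ t (x - t) * h t := by
    intro x hx
    rw [intervalIntegral.integral_of_le hx.le, ← integral_const_mul]
    have h1 : ∫ t in Ioc 0 x, R (t, -t + x) = ∫ t : ℝ, R (t, -t + x) := by
      refine setIntegral_eq_integral_of_forall_compl_eq_zero (fun t ht => ?_)
      rw [hRdef]
      by_cases h0 : t ≤ 0
      · simp only [hh.zero t h0, mul_zero, zero_mul]
      · have h2 : x < t := by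
          by_contra hc
          exact ht ⟨not_le.1 h0, not_lt.1 hc⟩
        simp only [rk_zero C m ρ hρ t (-t + x) (by linarith), mul_zero]
    rw [← h1]
    congr 1
    funext t
    rw [hRdef]
    have e1 : Complex.exp (-(z * (x : ℝ))) =
        Complex.exp (-(z * (t : ℝ))) * Complex.exp (-(z * ((-t + x : ℝ) : ℂ))) := by
      rw [← Complex.exp_add]; congr 1; push_cast; ring
    have e2 : x - t = -t + x := by ring
    rw [e1, e2]
    ring
  have hS0 : ∀ x : ℝ, x ≤ 0 → ∫ t : ℝ, R (t, -t + x) = 0 := by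
    intro x hx
    have : (fun t : ℝ => R (t, -t + x)) = fun _ => 0 := by
      funext t
      rw [hRdef]
      by_cases h0 : t ≤ 0
      · simp only [hh.zero t h0, mul_zero, zero_mul]
      · simp only [rk_zero C m ρ hρ t (-t + x) (by linarith [not_le.1 h0]), mul_zero]
    rw [this, integral_zero]
  have hSi : Integrable (fun x : ℝ => ∫ t : ℝ, R (t, -t + x)) := hRφ.integral_prod_right
  have hAi : Integrable (fun t : ℝ => ∫ y : ℝ, R (t, y)) := hRi.integral_prod_left
  have hBi := h_int D m' h hh z hz3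
  -- left side
  have hL : lap (TTr ρ h) z = ∫ x : ℝ, ((Complex.exp (-(z * x)) * h x) +
      ∫ t : ℝ, R (t, -t + x)) := by
    unfold lap
    have hr : ∫ x in Ioi (0:ℝ), ((Complex.exp (-(z * x)) * h x) + ∫ t : ℝ, R (t, -t + x)) =
        ∫ x : ℝ, ((Complex.exp (-(z * x)) * h x) + ∫ t : ℝ, R (t, -t + x)) :=
      setIntegral_eq_integral_of_forall_compl_eq_zero
        (fun x hx => by
          rw [hh.zero x (not_lt.1 hx), hS0 x (not_lt.1 hx)]; simp)
    rw [← hr]
    refine setIntegral_congr_fun measurableSet_Ioi (fun x hx => ?_)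
    have hx' : (0:ℝ) < x := hx
    simp only [TTr]
    rw [hS x hx']
    ring
  rw [hL, integral_add hBi hSi, hint, ← integral_add hBi hAi, lap_full h hh.zero]
  congr 1
  funext t
  rw [hA t]
  have e3 : Complex.exp (-((z + lap ρ z) * (t : ℝ))) =
      Complex.exp (-(z * (t : ℝ))) * Complex.exp (-((t : ℝ) * lap ρ z)) := by
    rw [← Complex.exp_add]; congr 1; ring
  rw [e3]
  ring

end Pool.Agent.Helper5.PG
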