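import Mathlib
import Pool.Agent.Helper5.Pt.Defs
import Pool.Agent.Helper5.Pe.Ring
import Pool.Agent.Helper5.Pt.ClassRho
import Pool.Agent.Helper5.Pt.LapPT
import Pool.Agent.Helper5.Pt.LapFF
import Pool.Agent.Helper5.Pt.TtEbd
import Pool.Agent.Helper5.Pt.TtLap
import Pool.Agent.Helper5.Pt.LapInj
import Pool.Agent.Helper5.Pe.EeConv

set_option autoImplicit false
open MeasureTheory Set Filter Topology

namespace Pool.Agent.Helper5.PG

theorem ff_aux_cpow (a : ℝ) (ha : 1 ≤ a) (z x : ℂ) (hz : 0 < z.re) (hx : ‖x‖ < 1) :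
    (z * (1 + x) ^ (-(1 / a : ℝ) : ℂ)) ^ (-(a : ℂ)) = z ^ (-(a : ℂ)) * (1 + x) := by
  have ha0 : (a : ℂ) ≠ 0 := by
    have : a ≠ 0 := by linarith
    exact_mod_cast this
  have hz0 : z ≠ 0 := by
    rintro rfl
    simp at hz
  have h1x : 0 < (1 + x).re := by
    have := (Complex.abs_re_le_norm x).trans_lt hx
    rw [abs_lt] at this
    simp only [Complex.add_re, Complex.one_re]
    linarith [this.1]
  have h1x0 : 1 + x ≠ 0 := by
    intro h
    rw [h] at h1x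
    simp at h1x
  have hy : (1 + x) ^ (-(1 / a : ℝ) : ℂ) = Complex.exp (Complex.log (1 + x) * (-(1 / a : ℝ) : ℂ)) :=
    Complex.cpow_def_of_ne_zero h1x0 _
  have hy0 : (1 + x) ^ (-(1 / a : ℝ) : ℂ) ≠ 0 := by rw [hy]; exact Complex.exp_ne_zero _
  have harg : |Complex.arg (1 + x)| < Real.pi / 2 :=
    Complex.abs_arg_lt_pi_div_two_iff.mpr (Or.inl h1x)
  have hargz : |Complex.arg z| < Real.pi / 2 :=
    Complex.abs_arg_lt_pi_div_two_iff.mpr (Or.inl hz)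
  have him : (Complex.log (1 + x) * (-(1 / a : ℝ) : ℂ)).im = -(1 / a) * Complex.arg (1 + x) := by
    have e : (-(1 / a : ℝ) : ℂ) = (((-(1 / a) : ℝ)) : ℂ) := by push_cast; ring
    rw [e, Complex.im_mul_ofReal, Complex.log_im]
    ring
  have hbd : |(Complex.log (1 + x) * (-(1 / a : ℝ) : ℂ)).im| < Real.pi / 2 := by
    rw [him, abs_mul, abs_neg]
    have h1 : |1 / a| ≤ 1 := by
      rw [abs_of_nonneg (by positivity)]
      rw [div_le_one (by linarith)]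
      exact ha
    calc |1 / a| * |Complex.arg (1 + x)| ≤ 1 * |Complex.arg (1 + x)| :=
          mul_le_mul_of_nonneg_right h1 (abs_nonneg _)
      _ < Real.pi / 2 := by rw [one_mul]; exact harg
  have hpi := Real.pi_pos
  have hlogy : Complex.log ((1 + x) ^ (-(1 / a : ℝ) : ℂ)) =
      Complex.log (1 + x) * (-(1 / a : ℝ) : ℂ) := by
    rw [hy]
    rw [abs_lt] at hbd
    exact Complex.log_exp (by linarith [hbd.1]) (by linarith [hbd.2])
  have hargy : |Complex.arg ((1 + x) ^ (-(1 / a : ℝ) : ℂ))| < Real.pi / 2 := by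
    rw [← Complex.log_im, hlogy]; exact hbd
  have hlogzy : Complex.log (z * (1 + x) ^ (-(1 / a : ℝ) : ℂ)) = Complex.log z +
      Complex.log ((1 + x) ^ (-(1 / a : ℝ) : ℂ)) := by
    rw [abs_lt] at hargy hargz
    exact Complex.log_mul hz0 hy0 ⟨by linarith [hargy.1, hargz.1], by linarith [hargy.2, hargz.2]⟩
  rw [Complex.cpow_def_of_ne_zero (mul_ne_zero hz0 hy0), hlogzy, hlogy,
    Complex.cpow_def_of_ne_zero hz0]
  have e : (Complex.log z + Complex.log (1 + x) * (-(1 / a : ℝ) : ℂ)) * (-(a : ℂ)) =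
      Complex.log z * (-(a : ℂ)) + Complex.log (1 + x) := by
    push_cast
    field_simp
    ring
  rw [e, Complex.exp_add, Complex.exp_log h1x0]



theorem ff_eq (a : ℝ) (ha : 1 ≤ a) (b : ℂ) (C m : ℝ) (k : ℝ → ℂ) (hk : EBd C m k) :
    ∃ (ρ : ℝ → ℂ) (C' m' : ℝ), EBd C' m' ρ ∧ FF a b k =ᵐ[volume] TTr ρ (pT a b) := by
  obtain ⟨ρ, C1, m1, M1, hρ, hρz⟩ := class_rho a (by linarith) b C m k hk
  obtain ⟨⟨D, mD, hpT⟩, hpTl⟩ := lap_pT a ha b
  obtain ⟨⟨C2, m2, hFF⟩, M2, hFFl⟩ := lap_FF a ha b C m k hk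
  obtain ⟨C3, m3, hTT⟩ := tt_ebd C1 m1 D mD ρ (pT a b) hρ hpT
  obtain ⟨M3, hTTl⟩ := tt_lap C1 m1 D mD ρ (pT a b) hρ hpT
  refine ⟨ρ, C1, m1, hρ, ?_⟩
  have hC := hk.nonneg
  have hC1 := hρ.nonneg
  -- threshold
  refine lap_inj C2 m2 C3 m3 (max (max (max M1 M2) (max M3 (m + 1)))
    (max (max (m1 + 1) (b.re + C1 + 1)) (max 1 (a * ‖b‖ + a * C + 1)))) _ _ hFF hTT ?_
  intro z hz
  simp only [max_le_iff] at hz
  obtain ⟨⟨⟨hz1, hz2⟩, hz3, hz4⟩, ⟨hz5, hz6⟩, hz7, hz8⟩ := hz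
  rw [hFFl z hz2, hTTl z hz3]
  have hlk : ‖lap k z‖ ≤ C := by
    refine ((ee_conv C m hC k hk z (by linarith)).2.1).trans ?_
    exact div_le_self hC (by linarith)
  have hlρ : ‖lap ρ z‖ ≤ C1 := by
    refine ((ee_conv C1 m1 hC1 ρ hρ z (by linarith)).2.1).trans ?_
    exact div_le_self hC1 (by linarith)
  have hre : b.re < (z + lap ρ z).re := by
    have h1 := (Complex.abs_re_le_norm (lap ρ z)).trans hlρ
    rw [abs_le] at h1
    rw [Complex.add_re]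
    linarith [h1.1]
  rw [hpTl _ hre]
  have e1 : z + lap ρ z - b = z - b + lap ρ z := by ring
  rw [e1, hρz z hz1]
  have hzre : 0 < z.re := by linarith
  have hzn : z.re ≤ ‖z‖ := (le_abs_self _).trans (Complex.abs_re_le_norm z)
  have hx : ‖(a * b + a * lap k z) / z‖ < 1 := by
    rw [norm_div, div_lt_one (by linarith)]
    calc ‖(a : ℂ) * b + a * lap k z‖ ≤ ‖(a : ℂ) * b‖ + ‖(a : ℂ) * lap k z‖ := norm_add_le _ _
      _ = a * ‖b‖ + a * ‖lap k z‖ := by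
          rw [norm_mul, norm_mul, Complex.norm_real, Real.norm_of_nonneg (by linarith)]
      _ ≤ a * ‖b‖ + a * C := by gcongr
      _ < ‖z‖ := by linarith
  rw [ff_aux_cpow a ha z _ hzre hx, mul_assoc]

end Pool.Agent.Helper5.PG
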