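import Mathlib
import Pool.Agent.Helper5.Pt.Defs
import Pool.Agent.Helper5.Pe.Ring

set_option autoImplicit false
open MeasureTheory Set Filter Topology

namespace Pool.Agent.Helper5.PG

theorem cpow_ae (f g : ℝ → ℂ) (h : f =ᵐ[volume] g) (k : ℕ) : cpow f k =ᵐ[volume] cpow g k := by
  induction k with
  | zero => exact h
  | succ k ih =>
    refine Filter.Eventually.of_forall fun t => ?_
    change cv f (cpow f k) t = cv g (cpow g k) t
    unfold cv
    refine intervalIntegral.integral_congr_ae ?_
    have h1 : ∀ᵐ s : ℝ, f (t - s) = g (t - s) :=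
      (Measure.measurePreserving_sub_left volume t).quasiMeasurePreserving.ae h
    filter_upwards [h1, ih] with s hs1 hs2 _
    rw [hs1, hs2]

end Pool.Agent.Helper5.PG
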