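import Mathlib
import Pool.Agent.Helper5.Pt.Defs
import Pool.Agent.Helper5.Pe.Ring
import Pool.Agent.Helper5.Pt.CpowAe

set_option autoImplicit false
open MeasureTheory Set Filter Topology

namespace Pool.Agent.Helper5.PG

theorem gen_ae (w : ℝ → ℝ) (hw : IsWeight w) (f g : ℝ → ℂ) (h : f =ᵐ[volume] g)
    (hf : IsPolyGen w f) : IsPolyGen w g := by
  obtain ⟨h1, h2⟩ := hf
  constructor
  · unfold InL1 at h1 ⊢
    refine IntegrableOn.congr_fun_ae h1 ?_
    filter_upwards [ae_restrict_of_ae h] with t ht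
    rw [ht]
  · intro u hu ε hε
    obtain ⟨n, c, hc⟩ := h2 u hu ε hε
    refine ⟨n, c, ?_⟩
    have h3 : ∀ᵐ t ∂(volume.restrict (Ioi (0:ℝ))), ∀ k, cpow f k t = cpow g k t := by
      rw [ae_all_iff]
      intro k
      exact ae_restrict_of_ae (cpow_ae f g h k)
    have h4 : ∫⁻ t in Ioi (0:ℝ), ENNReal.ofReal (‖u t - ∑ k ∈ Finset.range n, c k * cpow g k t‖ * w t) =
        ∫⁻ t in Ioi (0:ℝ), ENNReal.ofReal (‖u t - ∑ k ∈ Finset.range n, c k * cpow f k t‖ * w t) := by
      apply lintegral_congr_ae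
      filter_upwards [h3] with t ht
      simp only [ht]
    rw [h4]
    exact hc

end Pool.Agent.Helper5.PG
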