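import Mathlib
import Pool.Agent.Helper5.Pt.Defs
import Pool.Agent.Helper5.Pe.Ring

set_option autoImplicit false
open MeasureTheory Set Filter Topology

namespace Pool.Agent.Helper5.PG

theorem gen_smul (w : ℝ → ℝ) (hw : IsWeight w) (f : ℝ → ℂ) (c : ℂ) (hc : c ≠ 0)
    (hf : IsPolyGen w f) : IsPolyGen w (c • f) := by
  have hp : ∀ (k : ℕ) (t : ℝ), cpow (c • f) k t = c ^ (k + 1) * cpow f k t := by
    intro k
    induction k with
    | zero => intro t; simp [cpow]
    | succ k ih =>
      intro t
      simp only [cpow, cv]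
      rw [← intervalIntegral.integral_const_mul]
      congr 1
      funext s
      rw [ih s, Pi.smul_apply, smul_eq_mul, pow_succ c (k + 1)]
      ring
  refine ⟨?_, ?_⟩
  · have h1 : IntegrableOn (fun t : ℝ => c * (f t * (w t : ℂ))) (Ioi 0) := Integrable.const_mul hf.1 c
    refine h1.congr_fun ?_ measurableSet_Ioi
    intro t _
    simp only [Pi.smul_apply, smul_eq_mul]
    ring
  · intro h hh ε hε
    obtain ⟨n, d, hd⟩ := hf.2 h hh ε hε
    refine ⟨n, fun k => d k * (c ^ (k + 1))⁻¹, ?_⟩
    have e : ∀ t : ℝ, ∑ k ∈ Finset.range n, d k * (c ^ (k + 1))⁻¹ * cpow (c • f) k t =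
        ∑ k ∈ Finset.range n, d k * cpow f k t := by
      intro t
      apply Finset.sum_congr rfl
      intro k _
      rw [hp k t]
      have : c ^ (k + 1) ≠ 0 := pow_ne_zero _ hc
      field_simp
    simp only [e]
    exact hd

end Pool.Agent.Helper5.PG
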