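import Mathlib

set_option autoImplicit false
open MeasureTheory Set Filter Topology

namespace Pool.Agent.Helper5.PG

theorem lagrange_fix (φ : ℂ → ℂ) (r R M : ℝ) (hr : 0 < r) (hrR : r < R)
    (hφ : DifferentiableOn ℂ φ (Metric.ball 0 R)) (hM : ∀ ζ : ℂ, ‖ζ‖ ≤ r → ‖φ ζ‖ ≤ M)
    (hMr : M < r) : ∃ w : ℂ, ‖w‖ ≤ M ∧ φ w = w := by
  by_contra hcon
  have hne : ∀ ζ : ℂ, ‖ζ‖ ≤ r → ζ - φ ζ ≠ 0 := by
    intro ζ hζ h0
    have h1 : φ ζ = ζ := (sub_eq_zero.1 h0).symm
    have h2 := hM ζ hζ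
    rw [h1] at h2
    exact hcon ⟨ζ, h2, h1⟩
  have hsub : Metric.closedBall (0:ℂ) r ⊆ Metric.ball 0 R := Metric.closedBall_subset_ball hrR
  have hdiff : DifferentiableOn ℂ (fun ζ => Complex.exp (-(ζ / (ζ - φ ζ))))
      (Metric.closedBall 0 r) := by
    apply DifferentiableOn.cexp
    apply DifferentiableOn.neg
    apply DifferentiableOn.div differentiableOn_id
    · exact differentiableOn_id.sub (hφ.mono hsub)
    · intro ζ hζ
      exact hne ζ (by simpa using hζ)
  have hdc : DiffContOnCl ℂ (fun ζ => Complex.exp (-(ζ / (ζ - φ ζ)))) (Metric.ball 0 r) := by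
    apply DifferentiableOn.diffContOnCl
    rw [closure_ball _ hr.ne']
    exact hdiff
  have hbd : ∀ ζ ∈ frontier (Metric.ball (0:ℂ) r),
      ‖Complex.exp (-(ζ / (ζ - φ ζ)))‖ ≤ Real.exp (-(1/2)) := by
    intro ζ hζ
    rw [frontier_ball _ hr.ne', mem_sphere_zero_iff_norm] at hζ
    rw [Complex.norm_exp]
    apply Real.exp_le_exp.2
    rw [Complex.neg_re]
    apply neg_le_neg
    have h1 := hne ζ hζ.le
    have h2 : 0 < Complex.normSq (ζ - φ ζ) := Complex.normSq_pos.2 h1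
    have h3 : Complex.normSq (φ ζ) ≤ Complex.normSq ζ := by
      rw [← Complex.sq_norm, ← Complex.sq_norm, hζ]
      have h4 := hM ζ hζ.le
      have h5 := norm_nonneg (φ ζ)
      nlinarith
    rw [Complex.div_re, ← add_div, le_div_iff₀ h2, Complex.normSq_apply, Complex.sub_re,
      Complex.sub_im]
    rw [Complex.normSq_apply, Complex.normSq_apply] at h3
    nlinarith
  have h6 := Complex.norm_le_of_forall_mem_frontier_norm_le Metric.isBounded_ball hdc hbd
    (subset_closure (Metric.mem_ball_self hr))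
  simp only [zero_div, neg_zero, Complex.exp_zero, norm_one] at h6
  have h7 : Real.exp (-(1/2)) < 1 := by
    rw [Real.exp_lt_one_iff]
    norm_num
  linarith

theorem lagrange_ne (φ : ℂ → ℂ) (r R M : ℝ) (hr : 0 < r) (hrR : r < R)
    (hφ : DifferentiableOn ℂ φ (Metric.ball 0 R)) (hM : ∀ ζ : ℂ, ‖ζ‖ ≤ r → ‖φ ζ‖ ≤ M)
    (hMr : M < r) (w : ℂ) (hw : ‖w‖ ≤ M) (hfix : φ w = w) (z : ℂ) (hz : ‖z‖ ≤ r) :
    dslope φ w z ≠ 1 := by
  have hM0 : 0 ≤ M := (norm_nonneg w).trans hw
  have hsub : Metric.closedBall (0:ℂ) r ⊆ Metric.ball 0 R := Metric.closedBall_subset_ball hrR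
  have hwr : ‖w‖ < r := lt_of_le_of_lt hw hMr
  have hc : 0 < (r^2 - ‖w‖^2) * (r^2 - M^2) := by
    apply mul_pos
    · nlinarith [norm_nonneg w]
    · nlinarith
  have hr4 : 0 < 4 * r^4 := by positivity
  have hslope : ∀ x, (x - w) * dslope φ w x = φ x - w := by
    intro x
    have := sub_smul_dslope φ w x
    rw [hfix, smul_eq_mul] at this
    exact this
  have hden : ∀ x : ℂ, ‖x‖ ≤ r → ((r:ℂ)^2 - (starRingEnd ℂ) w * φ x) ≠ 0 := by
    intro x hx h0
    have h1 : (r:ℂ)^2 = (starRingEnd ℂ) w * φ x := sub_eq_zero.1 h0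
    have h2 := congrArg norm h1
    rw [norm_pow, norm_mul, RCLike.norm_conj, Complex.norm_real, Real.norm_eq_abs,
      abs_of_pos hr] at h2
    have h3 : ‖w‖ * ‖φ x‖ ≤ M * M := mul_le_mul hw (hM x hx) (norm_nonneg _) hM0
    nlinarith
  have hdd : DifferentiableOn ℂ (dslope φ w) (Metric.ball 0 R) := by
    apply (Complex.differentiableOn_dslope _).2 hφ
    exact Metric.isOpen_ball.mem_nhds (by simp; linarith)
  have hQd : DifferentiableOn ℂ (fun x => dslope φ w x * ((r:ℂ)^2 - (starRingEnd ℂ) w * x) /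
      ((r:ℂ)^2 - (starRingEnd ℂ) w * φ x)) (Metric.closedBall 0 r) := by
    apply DifferentiableOn.div
    · apply (hdd.mono hsub).mul
      exact (differentiableOn_const _).sub ((differentiableOn_const _).mul differentiableOn_id)
    · exact (differentiableOn_const _).sub ((differentiableOn_const _).mul (hφ.mono hsub))
    · intro x hx
      exact hden x (by simpa using hx)
  have hdc : DiffContOnCl ℂ (fun x => dslope φ w x * ((r:ℂ)^2 - (starRingEnd ℂ) w * x) /
      ((r:ℂ)^2 - (starRingEnd ℂ) w * φ x)) (Metric.ball 0 r) := by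
    apply DifferentiableOn.diffContOnCl
    rw [closure_ball _ hr.ne']
    exact hQd
  obtain ⟨k, hk⟩ : ∃ k : ℝ, k = Real.sqrt (1 - ((r^2 - ‖w‖^2) * (r^2 - M^2)) / (4 * r^4)) := ⟨_, rfl⟩
  have hk1 : k < 1 := by
    rw [hk, Real.sqrt_lt' one_pos]
    have : 0 < ((r^2 - ‖w‖^2) * (r^2 - M^2)) / (4 * r^4) := div_pos hc hr4
    linarith
  have hk0 : 0 ≤ k := by rw [hk]; exact Real.sqrt_nonneg _
  have hk2 : k^2 = 1 - ((r^2 - ‖w‖^2) * (r^2 - M^2)) / (4 * r^4) := by
    rw [hk, Real.sq_sqrt]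
    rw [sub_nonneg, div_le_one hr4]
    have h1 : (r^2 - ‖w‖^2) ≤ r^2 := by nlinarith [norm_nonneg w]
    have h2 : (r^2 - M^2) ≤ r^2 := by nlinarith
    have h3 : 0 ≤ (r^2 - M^2) := by nlinarith
    calc (r^2 - ‖w‖^2) * (r^2 - M^2) ≤ r^2 * r^2 := mul_le_mul h1 h2 h3 (by positivity)
      _ ≤ 4 * r^4 := by nlinarith [sq_nonneg (r^2)]
  have hbd : ∀ x ∈ frontier (Metric.ball (0:ℂ) r),
      ‖dslope φ w x * ((r:ℂ)^2 - (starRingEnd ℂ) w * x) /
        ((r:ℂ)^2 - (starRingEnd ℂ) w * φ x)‖ ≤ k := by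
    intro x hx
    rw [frontier_ball _ hr.ne', mem_sphere_zero_iff_norm] at hx
    have hden0 := hden x hx.le
    have hD : 0 < ‖(r:ℂ)^2 - (starRingEnd ℂ) w * φ x‖ := norm_pos_iff.2 hden0
    rw [norm_div, norm_mul, div_le_iff₀ hD]
    have h1 : ‖(r:ℂ)^2 - (starRingEnd ℂ) w * x‖ = r * ‖x - w‖ := by
      have h2 : (r:ℂ)^2 = x * (starRingEnd ℂ) x := by
        rw [Complex.mul_conj, ← Complex.sq_norm, hx]
        push_cast
        rfl
      have h3 : (r:ℂ)^2 - (starRingEnd ℂ) w * x = x * (starRingEnd ℂ) (x - w) := by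
        rw [h2, map_sub]
        ring
      rw [h3, norm_mul, RCLike.norm_conj, hx]
    have h4 : ‖x - w‖ * ‖dslope φ w x‖ = ‖φ x - w‖ := by
      rw [← norm_mul, hslope]
    have h5 : ‖dslope φ w x‖ * ‖(r:ℂ)^2 - (starRingEnd ℂ) w * x‖ = r * ‖φ x - w‖ := by
      rw [h1, ← h4]
      ring
    rw [h5, ← pow_le_pow_iff_left₀ (by positivity) (by positivity) two_ne_zero, mul_pow, mul_pow,
      hk2]
    have h6 : r^2 * ‖φ x - w‖^2 = ‖(r:ℂ)^2 - (starRingEnd ℂ) w * φ x‖^2 -
        (r^2 - ‖w‖^2) * (r^2 - ‖φ x‖^2) := by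
      have h7 : ((r:ℂ)^2) = ((r^2 : ℝ) : ℂ) := by push_cast; rfl
      rw [h7]
      simp only [Complex.sq_norm, Complex.normSq_apply, Complex.sub_re, Complex.sub_im,
        Complex.mul_re, Complex.mul_im, Complex.conj_re, Complex.conj_im, Complex.ofReal_re,
        Complex.ofReal_im]
      ring
    have h8 : ‖φ x‖ ≤ M := hM x hx.le
    have h9 : (r^2 - ‖w‖^2) * (r^2 - M^2) ≤ (r^2 - ‖w‖^2) * (r^2 - ‖φ x‖^2) := by
      apply mul_le_mul_of_nonneg_left
      · nlinarith [norm_nonneg (φ x)]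
      · nlinarith [norm_nonneg w]
    have h10 : ‖(r:ℂ)^2 - (starRingEnd ℂ) w * φ x‖ ≤ 2 * r^2 := by
      refine (norm_sub_le _ _).trans ?_
      rw [norm_pow, norm_mul, RCLike.norm_conj, Complex.norm_real, Real.norm_eq_abs,
        abs_of_pos hr]
      have h3 : ‖w‖ * ‖φ x‖ ≤ M * M := mul_le_mul hw h8 (norm_nonneg _) hM0
      nlinarith
    have h11 : ‖(r:ℂ)^2 - (starRingEnd ℂ) w * φ x‖^2 ≤ 4 * r^4 := by
      have := pow_le_pow_left₀ (norm_nonneg _) h10 2
      calc _ ≤ (2 * r^2)^2 := this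
        _ = 4 * r^4 := by ring
    have h12 : ((r^2 - ‖w‖^2) * (r^2 - M^2)) / (4 * r^4) *
        ‖(r:ℂ)^2 - (starRingEnd ℂ) w * φ x‖^2 ≤ (r^2 - ‖w‖^2) * (r^2 - M^2) := by
      calc ((r^2 - ‖w‖^2) * (r^2 - M^2)) / (4 * r^4) *
          ‖(r:ℂ)^2 - (starRingEnd ℂ) w * φ x‖^2 ≤
          ((r^2 - ‖w‖^2) * (r^2 - M^2)) / (4 * r^4) * (4 * r^4) :=
            mul_le_mul_of_nonneg_left h11 (div_pos hc hr4).le
        _ = (r^2 - ‖w‖^2) * (r^2 - M^2) := div_mul_cancel₀ _ hr4.ne'
    have h13 : (1 - ((r^2 - ‖w‖^2) * (r^2 - M^2)) / (4 * r^4)) *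
        ‖(r:ℂ)^2 - (starRingEnd ℂ) w * φ x‖^2 = ‖(r:ℂ)^2 - (starRingEnd ℂ) w * φ x‖^2 -
        ((r^2 - ‖w‖^2) * (r^2 - M^2)) / (4 * r^4) *
          ‖(r:ℂ)^2 - (starRingEnd ℂ) w * φ x‖^2 := by ring
    rw [h6, h13]
    linarith
  intro hd1
  have h6 := Complex.norm_le_of_forall_mem_frontier_norm_le Metric.isBounded_ball hdc hbd
    (z := z) (by
      rw [closure_ball _ hr.ne']
      simpa using hz)
  have h7 : φ z = z := by
    have := hslope z
    rw [hd1, mul_one] at this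
    exact (sub_left_injective this).symm
  have h8 := hden z hz
  rw [h7] at h8
  simp only [hd1, h7, one_mul] at h6
  rw [div_self h8, norm_one] at h6
  linarith

theorem lagrange_int (φ : ℂ → ℂ) (r R M : ℝ) (hr : 0 < r) (hrR : r < R)
    (hφ : DifferentiableOn ℂ φ (Metric.ball 0 R)) (hM : ∀ ζ : ℂ, ‖ζ‖ ≤ r → ‖φ ζ‖ ≤ M)
    (hMr : M < r) (w : ℂ) (hw : ‖w‖ ≤ M) (hfix : φ w = w) :
    (∮ ζ in C(0, r), (φ ζ / ζ - deriv φ ζ) / (1 - φ ζ / ζ)) = 2 * Real.pi * Complex.I * w := by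
  have hsub : Metric.closedBall (0:ℂ) r ⊆ Metric.ball 0 R := Metric.closedBall_subset_ball hrR
  have hwr : ‖w‖ < r := lt_of_le_of_lt hw hMr
  have hslope : ∀ x, φ x = w + (x - w) * dslope φ w x := by
    intro x
    have := sub_smul_dslope φ w x
    rw [hfix, smul_eq_mul] at this
    rw [this]
    ring
  have hdd : DifferentiableOn ℂ (dslope φ w) (Metric.ball 0 R) := by
    apply (Complex.differentiableOn_dslope _).2 hφ
    exact Metric.isOpen_ball.mem_nhds (by simp; linarith)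
  have hdd' : DifferentiableOn ℂ (deriv (dslope φ w)) (Metric.ball 0 R) :=
    hdd.deriv Metric.isOpen_ball
  have hne : ∀ x : ℂ, ‖x‖ ≤ r → 1 - dslope φ w x ≠ 0 := by
    intro x hx h0
    exact lagrange_ne φ r R M hr hrR hφ hM hMr w hw hfix x hx (sub_eq_zero.1 h0).symm
  have hderiv : ∀ x ∈ Metric.ball (0:ℂ) R, deriv φ x =
      dslope φ w x + (x - w) * deriv (dslope φ w) x := by
    intro x hx
    have h1 : HasDerivAt (dslope φ w) (deriv (dslope φ w) x) x :=
      (hdd.differentiableAt (Metric.isOpen_ball.mem_nhds hx)).hasDerivAt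
    have h2 : HasDerivAt (fun y => w + (y - w) * dslope φ w y)
        (1 * dslope φ w x + (x - w) * deriv (dslope φ w) x) x :=
      (((hasDerivAt_id x).sub_const w).mul h1).const_add w
    have h3 : (fun y => w + (y - w) * dslope φ w y) = φ := funext fun y => (hslope y).symm
    rw [h3] at h2
    rw [h2.deriv, one_mul]
  have hK : DifferentiableOn ℂ (fun x => x * deriv (dslope φ w) x / (1 - dslope φ w x))
      (Metric.closedBall 0 r) := by
    apply DifferentiableOn.div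
    · exact differentiableOn_id.mul (hdd'.mono hsub)
    · exact (differentiableOn_const _).sub (hdd.mono hsub)
    · intro x hx
      exact hne x (by simpa using hx)
  have hKdc : DiffContOnCl ℂ (fun x => x * deriv (dslope φ w) x / (1 - dslope φ w x))
      (Metric.ball 0 r) := by
    apply DifferentiableOn.diffContOnCl
    rw [closure_ball _ hr.ne']
    exact hK
  have hK0 := hKdc.circleIntegral_eq_zero hr.le
  have hw1 : w ∈ Metric.ball (0:ℂ) r := by simpa using hwr
  have hI1 : CircleIntegrable (fun x => w * (x - w)⁻¹) 0 r := by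
    apply ContinuousOn.circleIntegrable hr.le
    apply continuousOn_const.mul
    apply ContinuousOn.inv₀ (continuousOn_id.sub continuousOn_const)
    intro x hx h0
    rw [mem_sphere_zero_iff_norm] at hx
    have : x = w := sub_eq_zero.1 h0
    rw [this] at hx
    linarith
  have hI2 : CircleIntegrable (fun x => x * deriv (dslope φ w) x / (1 - dslope φ w x)) 0 r :=
    ContinuousOn.circleIntegrable hr.le (hK.continuousOn.mono Metric.sphere_subset_closedBall)
  have hcongr : (∮ ζ in C(0, r), (φ ζ / ζ - deriv φ ζ) / (1 - φ ζ / ζ)) =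
      ∮ x in C(0, r), (w * (x - w)⁻¹ - x * deriv (dslope φ w) x / (1 - dslope φ w x)) := by
    apply circleIntegral.integral_congr hr.le
    intro x hx
    rw [mem_sphere_zero_iff_norm] at hx
    have hx0 : x ≠ 0 := by
      intro h0
      rw [h0, norm_zero] at hx
      linarith
    have hxw : x - w ≠ 0 := by
      intro h0
      have : x = w := sub_eq_zero.1 h0
      rw [this] at hx
      linarith
    have h1 := hne x hx.le
    have h2 := hderiv x (by simp; linarith)
    have h3 := hslope x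
    show (φ x / x - deriv φ x) / (1 - φ x / x) =
      w * (x - w)⁻¹ - x * deriv (dslope φ w) x / (1 - dslope φ w x)
    rw [h2, h3]
    generalize dslope φ w x = d at *
    generalize deriv (dslope φ w) x = d' at *
    have h4 : x - (w + (x - w) * d) = (x - w) * (1 - d) := by ring
    have h5 : 1 - (w + (x - w) * d) / x = (x - w) * (1 - d) / x := by
      rw [← h4]
      field_simp
    rw [h5]
    field_simp
    ring
  rw [hcongr, circleIntegral.integral_sub hI1 hI2, hK0, sub_zero, circleIntegral.integral_const_mul,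
    circleIntegral.integral_sub_inv_of_mem_ball hw1]
  ring



theorem lagrange (φ : ℂ → ℂ) (r R M : ℝ) (hr : 0 < r) (hrR : r < R)
    (hφ : DifferentiableOn ℂ φ (Metric.ball 0 R)) (hM : ∀ ζ : ℂ, ‖ζ‖ ≤ r → ‖φ ζ‖ ≤ M) (hMr : M < r) :
    ∃ w : ℂ, ‖w‖ < r ∧ φ w = w ∧
      HasSum (fun n : ℕ => iteratedDeriv n (fun ζ => φ ζ ^ (n + 1)) 0 / ((n + 1).factorial : ℂ)) w := by
  obtain ⟨w, hw, hfix⟩ := lagrange_fix φ r R M hr hrR hφ hM hMr
  have hM0 : 0 ≤ M := (norm_nonneg w).trans hw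
  have hwr : ‖w‖ < r := lt_of_le_of_lt hw hMr
  refine ⟨w, hwr, hfix, ?_⟩
  have hsub : Metric.closedBall (0:ℂ) r ⊆ Metric.ball 0 R := Metric.closedBall_subset_ball hrR
  have hint := lagrange_int φ r R M hr hrR hφ hM hMr w hw hfix
  have hsph : ∀ x ∈ Metric.sphere (0:ℂ) r, ‖x‖ = r ∧ x ≠ 0 ∧ x ∈ Metric.ball (0:ℂ) R := by
    intro x hx
    rw [mem_sphere_zero_iff_norm] at hx
    refine ⟨hx, ?_, ?_⟩
    · intro h0
      rw [h0, norm_zero] at hx
      linarith
    · simp
      linarith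
  obtain ⟨q, hq⟩ : ∃ q : ℝ, q = M / r := ⟨_, rfl⟩
  have hq0 : 0 ≤ q := by rw [hq]; positivity
  have hq1 : q < 1 := by rw [hq, div_lt_one hr]; exact hMr
  have hg : ∀ x ∈ Metric.sphere (0:ℂ) r, ‖φ x / x‖ ≤ q := by
    intro x hx
    obtain ⟨h1, h2, h3⟩ := hsph x hx
    rw [norm_div, h1, hq]
    exact div_le_div_of_nonneg_right (hM x h1.le) hr.le
  have hg1 : ∀ x ∈ Metric.sphere (0:ℂ) r, 1 - φ x / x ≠ 0 := by
    intro x hx h0
    have h1 := hg x hx
    rw [← sub_eq_zero.1 h0, norm_one] at h1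
    linarith
  have hφc : ContinuousOn φ (Metric.sphere (0:ℂ) r) :=
    hφ.continuousOn.mono (fun x hx => (hsph x hx).2.2)
  have hφ'c : ContinuousOn (deriv φ) (Metric.sphere (0:ℂ) r) :=
    (hφ.deriv Metric.isOpen_ball).continuousOn.mono (fun x hx => (hsph x hx).2.2)
  have hgc : ContinuousOn (fun x => φ x / x) (Metric.sphere (0:ℂ) r) :=
    hφc.div continuousOn_id (fun x hx => (hsph x hx).2.1)
  have hFc : ContinuousOn (fun x => φ x / x - deriv φ x) (Metric.sphere (0:ℂ) r) := hgc.sub hφ'c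
  have hDc : ContinuousOn (fun x => (φ x / x - deriv φ x) / (1 - φ x / x))
      (Metric.sphere (0:ℂ) r) := hFc.div (continuousOn_const.sub hgc) hg1
  obtain ⟨K, hK⟩ := (isCompact_sphere (0:ℂ) r).exists_bound_of_continuousOn hDc
  have hK0 : 0 ≤ K := by
    have h1 : (r:ℂ) ∈ Metric.sphere (0:ℂ) r := by
      rw [mem_sphere_zero_iff_norm, Complex.norm_real, Real.norm_eq_abs, abs_of_pos hr]
    exact (norm_nonneg _).trans (hK _ h1)
  -- remainders
  obtain ⟨Rm, hRm⟩ : ∃ Rm : ℕ → ℂ, Rm = fun n : ℕ =>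
      ∮ x in C(0, r), (φ x / x) ^ n * ((φ x / x - deriv φ x) / (1 - φ x / x)) := ⟨_, rfl⟩
  obtain ⟨En, hEn⟩ : ∃ En : ℕ → ℂ, En = fun n : ℕ =>
      ∮ x in C(0, r), (φ x / x) ^ n * (φ x / x - deriv φ x) := ⟨_, rfl⟩
  have hIR : ∀ n : ℕ, CircleIntegrable
      (fun x => (φ x / x) ^ n * ((φ x / x - deriv φ x) / (1 - φ x / x))) 0 r := fun n =>
    ContinuousOn.circleIntegrable hr.le ((hgc.pow n).mul hDc)
  have hIE : ∀ n : ℕ, CircleIntegrable
      (fun x => (φ x / x) ^ n * (φ x / x - deriv φ x)) 0 r := fun n =>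
    ContinuousOn.circleIntegrable hr.le ((hgc.pow n).mul hFc)
  have hR0 : Rm 0 = 2 * Real.pi * Complex.I * w := by
    rw [hRm]
    simp only [pow_zero, one_mul]
    exact hint
  have hRE : ∀ n, En n = Rm n - Rm (n + 1) := by
    intro n
    rw [hRm, hEn]
    simp only
    rw [← circleIntegral.integral_sub (hIR n) (hIR (n + 1))]
    apply circleIntegral.integral_congr hr.le
    intro x hx
    have h1 := hg1 x hx
    show (φ x / x) ^ n * (φ x / x - deriv φ x) =
      (φ x / x) ^ n * ((φ x / x - deriv φ x) / (1 - φ x / x)) -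
      (φ x / x) ^ (n + 1) * ((φ x / x - deriv φ x) / (1 - φ x / x))
    generalize φ x / x = g at *
    field_simp
    ring
  have hRb : ∀ n, ‖Rm n‖ ≤ 2 * Real.pi * r * K * q ^ n := by
    intro n
    have h1 : ∀ x ∈ Metric.sphere (0:ℂ) r,
        ‖(φ x / x) ^ n * ((φ x / x - deriv φ x) / (1 - φ x / x))‖ ≤ q ^ n * K := by
      intro x hx
      rw [norm_mul, norm_pow]
      exact mul_le_mul (pow_le_pow_left₀ (norm_nonneg _) (hg x hx) n) (hK x hx) (norm_nonneg _)
        (by positivity)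
    have h2 := circleIntegral.norm_integral_le_of_norm_le_const hr.le h1
    rw [hRm]
    refine h2.trans (le_of_eq ?_)
    ring
  have h2pi : (2 * Real.pi * Complex.I : ℂ) ≠ 0 := Complex.two_pi_I_ne_zero
  -- the coefficients
  have hcoef : ∀ n : ℕ, iteratedDeriv n (fun ζ => φ ζ ^ (n + 1)) 0 / ((n + 1).factorial : ℂ) =
      (2 * Real.pi * Complex.I)⁻¹ * En n := by
    intro n
    have hdc : DiffContOnCl ℂ (fun ζ => φ ζ ^ (n + 1)) (Metric.ball 0 r) := by
      apply DifferentiableOn.diffContOnCl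
      rw [closure_ball _ hr.ne']
      exact (hφ.mono hsub).pow (n + 1)
    have h1 := hdc.circleIntegral_one_div_sub_center_pow_smul hr n
    have h2 : (∮ z in C(0, r), (1 / (z - 0) ^ (n + 1)) • φ z ^ (n + 1)) =
        ∮ z in C(0, r), (φ z / z) ^ (n + 1) := by
      apply circleIntegral.integral_congr hr.le
      intro x hx
      show (1 / (x - 0) ^ (n + 1)) • φ x ^ (n + 1) = (φ x / x) ^ (n + 1)
      rw [sub_zero, smul_eq_mul, div_pow]
      ring
    have h3 : (∮ z in C(0, r), ((φ z / z) ^ (n + 1) -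
        ((n:ℂ) + 1) * ((φ z / z) ^ n * (φ z / z - deriv φ z)))) = 0 := by
      apply circleIntegral.integral_eq_zero_of_hasDerivWithinAt (f := fun z => z * (φ z / z) ^ (n + 1))
        hr.le
      intro x hx
      obtain ⟨e1, e2, e3⟩ := hsph x hx
      have h4 : HasDerivAt φ (deriv φ x) x :=
        (hφ.differentiableAt (Metric.isOpen_ball.mem_nhds e3)).hasDerivAt
      have h5 : HasDerivAt (fun z => φ z / z) ((deriv φ x * x - φ x * 1) / x ^ 2) x :=
        h4.div (hasDerivAt_id x) e2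
      have h6 : HasDerivAt (fun z => z * (φ z / z) ^ (n + 1))
          (1 * (φ x / x) ^ (n + 1) + x * (((n + 1 : ℕ) : ℂ) * (φ x / x) ^ (n + 1 - 1) *
            ((deriv φ x * x - φ x * 1) / x ^ 2))) x :=
        (hasDerivAt_id x).mul (h5.pow (n + 1))
      have h7 : (1 * (φ x / x) ^ (n + 1) + x * (((n + 1 : ℕ) : ℂ) * (φ x / x) ^ (n + 1 - 1) *
            ((deriv φ x * x - φ x * 1) / x ^ 2))) =
          (φ x / x) ^ (n + 1) - ((n:ℂ) + 1) * ((φ x / x) ^ n * (φ x / x - deriv φ x)) := by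
        rw [Nat.add_sub_cancel]
        have h8 : x * ((deriv φ x * x - φ x * 1) / x ^ 2) = deriv φ x - φ x / x := by
          field_simp
        push_cast
        linear_combination (((n:ℂ) + 1) * (φ x / x) ^ n) * h8
      rw [h7] at h6
      exact h6.hasDerivWithinAt
    have hI1 : CircleIntegrable (fun z => (φ z / z) ^ (n + 1)) 0 r :=
      ContinuousOn.circleIntegrable hr.le (hgc.pow (n + 1))
    have hI2 : CircleIntegrable (fun z => ((n:ℂ) + 1) * ((φ z / z) ^ n * (φ z / z - deriv φ z))) 0 r :=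
      ContinuousOn.circleIntegrable hr.le (continuousOn_const.mul ((hgc.pow n).mul hFc))
    rw [circleIntegral.integral_sub hI1 hI2, circleIntegral.integral_const_mul, sub_eq_zero] at h3
    rw [h2, h3] at h1
    have h9 : En n = ∮ z in C(0, r), (φ z / z) ^ n * (φ z / z - deriv φ z) := by rw [hEn]
    rw [← h9, smul_eq_mul] at h1
    have hfac : ((n.factorial : ℕ) : ℂ) ≠ 0 := by exact_mod_cast n.factorial_ne_zero
    have hn1 : ((n:ℂ) + 1) ≠ 0 := by exact_mod_cast (Nat.succ_ne_zero n)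
    rw [Nat.factorial_succ]
    push_cast
    rw [div_eq_iff (mul_ne_zero hn1 hfac)]
    have h10 : iteratedDeriv n (fun ζ => φ ζ ^ (n + 1)) 0 =
        (2 * Real.pi * Complex.I)⁻¹ * ((n.factorial : ℂ) * (((n:ℂ) + 1) * En n)) := by
      rw [h1]
      field_simp
    rw [h10]
    ring
  have hsum : Summable (fun n : ℕ => iteratedDeriv n (fun ζ => φ ζ ^ (n + 1)) 0 /
      ((n + 1).factorial : ℂ)) := by
    apply Summable.of_norm_bounded (g := fun n : ℕ => (‖(2 * Real.pi * Complex.I : ℂ)⁻¹‖ *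
      (2 * (2 * Real.pi * r * K))) * q ^ n)
    · exact (summable_geometric_of_lt_one hq0 hq1).mul_left _
    · intro n
      rw [hcoef, hRE, norm_mul, mul_assoc ‖(2 * Real.pi * Complex.I : ℂ)⁻¹‖ _ (q ^ n)]
      apply mul_le_mul_of_nonneg_left _ (norm_nonneg _)
      refine (norm_sub_le _ _).trans ?_
      have h1 := hRb n
      have h2 := hRb (n + 1)
      have h3 : q ^ (n + 1) ≤ q ^ n := pow_le_pow_of_le_one hq0 hq1.le (Nat.le_succ n)
      have h4 : 0 ≤ 2 * Real.pi * r * K := by positivity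
      have h5 := mul_le_mul_of_nonneg_left h3 h4
      linarith
  rw [hsum.hasSum_iff_tendsto_nat]
  have hpart : ∀ N : ℕ, ∑ n ∈ Finset.range N, iteratedDeriv n (fun ζ => φ ζ ^ (n + 1)) 0 /
      ((n + 1).factorial : ℂ) = w - (2 * Real.pi * Complex.I)⁻¹ * Rm N := by
    intro N
    induction N with
    | zero =>
      rw [Finset.sum_range_zero, hR0, ← mul_assoc, inv_mul_cancel₀ h2pi, one_mul, sub_self]
    | succ N ih =>
      rw [Finset.sum_range_succ, ih, hcoef, hRE]
      ring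
  simp only [hpart]
  have hR : Tendsto Rm atTop (𝓝 0) := by
    apply squeeze_zero_norm hRb
    have := (tendsto_pow_atTop_nhds_zero_of_lt_one hq0 hq1).const_mul (2 * Real.pi * r * K)
    rw [mul_zero] at this
    exact this
  have := (hR.const_mul (2 * Real.pi * Complex.I : ℂ)⁻¹).const_sub w
  rw [mul_zero, sub_zero] at this
  exact this

end Pool.Agent.Helper5.PG
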