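import Mathlib
import Pool.Agent.Helper5.Pt.Defs
import Pool.Agent.Helper5.Pe.Ring

set_option autoImplicit false
open MeasureTheory Set Filter Topology

namespace Pool.Agent.Helper5.PG

/-- exponential type at most `m` -/
def WW (m : ℝ) (g : ℝ → ℂ) : Prop := ∀ m' : ℝ, m < m' → ∃ C : ℝ, EBd C m' g

theorem WW_of {C m : ℝ} {g : ℝ → ℂ} (hg : EBd C m g) : WW m g :=
  fun _ hm' => ⟨C, hg.mono le_rfl hm'.le⟩

theorem WW_mul {m : ℝ} {g : ℝ → ℂ} (hg : WW m g) : WW m (fun t => (t : ℂ) * g t) := by
  intro m' hm'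
  obtain ⟨C, hC⟩ := hg ((m + m') / 2) (by linarith)
  set d : ℝ := m' - (m + m') / 2 with hd
  have hdpos : 0 < d := by rw [hd]; linarith
  refine ⟨C / d, ?_, ?_, ?_⟩
  · exact (by fun_prop : Measurable fun t : ℝ => (t : ℂ)).mul hC.meas
  · intro t ht
    rw [hC.zero t ht, mul_zero]
  · intro t ht
    rw [norm_mul, Complex.norm_real, Real.norm_of_nonneg ht.le]
    have h1 := hC.bd t ht
    have h2 : t ≤ Real.exp (d * t) / d := by
      rw [le_div_iff₀ hdpos]
      have := Real.add_one_le_exp (d * t)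
      linarith
    have hC0 := hC.nonneg
    calc t * ‖g t‖ ≤ (Real.exp (d * t) / d) * (C * Real.exp ((m + m') / 2 * t)) :=
          mul_le_mul h2 h1 (norm_nonneg _) (by positivity)
      _ = C / d * (Real.exp (d * t) * Real.exp ((m + m') / 2 * t)) := by ring
      _ = C / d * Real.exp (m' * t) := by
          rw [← Real.exp_add]
          congr 2
          rw [hd]
          ring

theorem lap_int_LapIter {m : ℝ} {g : ℝ → ℂ} (hg : WW m g) (z : ℂ) (hz : m < z.re) :
    Integrable (fun r : ℝ => Complex.exp (-(z * r)) * g r) (volume.restrict (Ioi 0)) := by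
  obtain ⟨C, hC⟩ := hg ((m + z.re) / 2) (by linarith)
  have hb : Integrable (fun r : ℝ => C * Real.exp (-(z.re - (m + z.re) / 2) * r))
      (volume.restrict (Ioi 0)) :=
    (exp_neg_integrableOn_Ioi 0 (by linarith : 0 < z.re - (m + z.re) / 2)).const_mul C
  refine hb.mono' ?_ ?_
  · exact ((by fun_prop : Measurable fun r : ℝ => Complex.exp (-(z * r))).mul
      hC.meas).aestronglyMeasurable
  · filter_upwards [ae_restrict_mem measurableSet_Ioi] with r hr
    have hr' : 0 < r := hr
    rw [norm_mul, Complex.norm_exp]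
    have h1 := hC.bd r hr'
    have e : (-(z * (r : ℂ))).re = -(z.re * r) := by simp
    rw [e]
    calc Real.exp (-(z.re * r)) * ‖g r‖ ≤
          Real.exp (-(z.re * r)) * (C * Real.exp ((m + z.re) / 2 * r)) :=
          mul_le_mul_of_nonneg_left h1 (Real.exp_pos _).le
      _ = C * (Real.exp (-(z.re * r)) * Real.exp ((m + z.re) / 2 * r)) := by ring
      _ = C * Real.exp (-(z.re - (m + z.re) / 2) * r) := by
          rw [← Real.exp_add]
          congr 2
          ring

theorem lap_deriv {m : ℝ} {g : ℝ → ℂ} (hg : WW m g) (z : ℂ) (hz : m < z.re) :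
    HasDerivAt (lap g) (-(lap (fun t => (t : ℂ) * g t) z)) z := by
  have hg' := WW_mul hg
  obtain ⟨m2, hm2, hm2z⟩ := exists_between hz
  obtain ⟨m1, hm1, hm12⟩ := exists_between hm2
  obtain ⟨C, hC⟩ := hg' m1 hm1
  have hopen : IsOpen {x : ℂ | m2 < x.re} := isOpen_lt continuous_const Complex.continuous_re
  have hs : {x : ℂ | m2 < x.re} ∈ 𝓝 z := hopen.mem_nhds hm2z
  have hb : Integrable (fun r : ℝ => C * Real.exp (-(m2 - m1) * r))
      (volume.restrict (Ioi 0)) :=
    (exp_neg_integrableOn_Ioi 0 (by linarith : 0 < m2 - m1)).const_mul C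
  have key := hasDerivAt_integral_of_dominated_loc_of_deriv_le (μ := volume.restrict (Ioi 0))
    (F := fun (x : ℂ) (r : ℝ) => Complex.exp (-(x * r)) * g r)
    (F' := fun (x : ℂ) (r : ℝ) => -(Complex.exp (-(x * r)) * ((r : ℂ) * g r)))
    (x₀ := z) (s := {x : ℂ | m2 < x.re})
    (bound := fun r : ℝ => C * Real.exp (-(m2 - m1) * r)) hs ?_ (lap_int_LapIter hg z hz) ?_ ?_ hb ?_
  · have h := key.2
    have e : ∫ r in Ioi (0:ℝ), -(Complex.exp (-(z * r)) * ((r : ℂ) * g r)) =
        -(lap (fun t => (t : ℂ) * g t) z) := by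
      rw [integral_neg]
      rfl
    rw [e] at h
    exact h
  · filter_upwards [hs] with x hx
    exact (lap_int_LapIter hg x (hm2.trans hx)).aestronglyMeasurable
  · exact (lap_int_LapIter hg' z hz).aestronglyMeasurable.neg
  · filter_upwards [ae_restrict_mem measurableSet_Ioi] with r hr x hx
    have hr' : 0 < r := hr
    have hx' : m2 < x.re := hx
    rw [norm_neg, norm_mul, Complex.norm_exp]
    have h1 := hC.bd r hr'
    have e : (-(x * (r : ℂ))).re = -(x.re * r) := by simp
    rw [e]
    have h2 : Real.exp (-(x.re * r)) ≤ Real.exp (-(m2 * r)) := by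
      apply Real.exp_le_exp.2
      nlinarith
    calc Real.exp (-(x.re * r)) * ‖(r : ℂ) * g r‖ ≤
          Real.exp (-(m2 * r)) * (C * Real.exp (m1 * r)) :=
          mul_le_mul h2 h1 (norm_nonneg _) (Real.exp_pos _).le
      _ = C * (Real.exp (-(m2 * r)) * Real.exp (m1 * r)) := by ring
      _ = C * Real.exp (-(m2 - m1) * r) := by
          rw [← Real.exp_add]
          congr 2
          ring
  · refine Filter.Eventually.of_forall ?_
    intro r x hx
    have h1 : HasDerivAt (fun x : ℂ => x * (-(r : ℂ))) (1 * (-(r : ℂ))) x :=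
      (hasDerivAt_id' x).mul_const (-(r : ℂ))
    have h2 := (h1.cexp).mul_const (g r)
    have e1 : (fun x : ℂ => Complex.exp (x * (-(r : ℂ))) * g r) =
        fun x : ℂ => Complex.exp (-(x * (r : ℂ))) * g r := by
      funext y
      rw [mul_neg]
    have e2 : Complex.exp (x * (-(r : ℂ))) * (1 * (-(r : ℂ))) * g r =
        -(Complex.exp (-(x * (r : ℂ))) * ((r : ℂ) * g r)) := by
      rw [mul_neg]
      ring
    rw [e1, e2] at h2
    exact h2

theorem WW_pow {m : ℝ} {g : ℝ → ℂ} (hg : WW m g) (n : ℕ) :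
    WW m (fun t => (t : ℂ) ^ n * g t) := by
  induction n with
  | zero => simpa using hg
  | succ n ih =>
    have := WW_mul ih
    refine (by
      have e : (fun t : ℝ => (t : ℂ) ^ (n + 1) * g t) =
          fun t : ℝ => (t : ℂ) * ((t : ℂ) ^ n * g t) := by
        funext t
        ring
      rw [e]
      exact this)



theorem lap_iter (C m : ℝ) (g : ℝ → ℂ) (hg : EBd C m g) :
    DifferentiableOn ℂ (lap g) {z : ℂ | m < z.re} ∧
    ∀ (n : ℕ) (z : ℂ), m < z.re →
      iteratedDeriv n (lap g) z = (-1) ^ n * lap (fun t => (t : ℂ) ^ n * g t) z := by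
  have hW := WW_of hg
  have hopen : IsOpen {z : ℂ | m < z.re} := isOpen_lt continuous_const Complex.continuous_re
  constructor
  · intro z hz
    exact (lap_deriv hW z hz).differentiableAt.differentiableWithinAt
  · intro n
    induction n with
    | zero =>
      intro z _
      simp
    | succ n ih =>
      intro z hz
      rw [iteratedDeriv_succ]
      have hev : iteratedDeriv n (lap g) =ᶠ[𝓝 z]
          fun z => (-1) ^ n * lap (fun t => (t : ℂ) ^ n * g t) z := by
        filter_upwards [hopen.mem_nhds hz] with x hx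
        exact ih x hx
      rw [hev.deriv_eq]
      have h := (lap_deriv (WW_pow hW n) z hz).const_mul ((-1 : ℂ) ^ n)
      rw [h.deriv]
      have e : (fun t : ℝ => (t : ℂ) ^ (n + 1) * g t) =
          fun t : ℝ => (t : ℂ) * ((t : ℂ) ^ n * g t) := by
        funext t
        ring
      rw [e, pow_succ]
      ring

end Pool.Agent.Helper5.PG
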