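import Mathlib
import Pool.Agent.Helper5.Pt.Defs
import Pool.Agent.Helper5.Pe.Ring
import Pool.Agent.Helper5.Pt.CpowBd
import Pool.Agent.Helper5.Pt.LapIter
import Pool.Agent.Helper5.Pt.Lagrange
import Pool.Agent.Helper5.Pe.EeConv

set_option autoImplicit false
open MeasureTheory Set Filter Topology

namespace Pool.Agent.Helper5.PG

theorem sigma_ex (C m : ℝ) (ρ : ℝ → ℂ) (hρ : EBd C m ρ) :
    ∃ (σ : ℝ → ℂ) (C' m' M : ℝ), EBd C' m' σ ∧
      ∀ z : ℂ, M ≤ z.re → lap σ z = -lap ρ (z + lap σ z) := by
  have hC : 0 ≤ C := hρ.nonneg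
  obtain ⟨s, hs⟩ : ∃ s, s = Real.sqrt C := ⟨_, rfl⟩
  have hs0 : 0 ≤ s := by rw [hs]; exact Real.sqrt_nonneg _
  have hss : s * s = C := by rw [hs]; exact Real.mul_self_sqrt hC
  obtain ⟨a, ha⟩ : ∃ a : ℕ → ℝ → ℂ, a = fun (n : ℕ) (t : ℝ) => (t : ℂ) ^ n * cpow ρ n t / ((n + 1).factorial : ℂ) :=
    ⟨_, rfl⟩
  have ha0 : ∀ n t, t ≤ 0 → a n t = 0 := by
    intro n t ht
    simp only [ha]
    rw [(cpow_bd C m ρ hρ n).2.2.1 t ht]; simp
  have ham : ∀ n, Measurable (a n) := by
    intro n
    have h1 := (cpow_bd C m ρ hρ n).2.1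
    simp only [ha]
    fun_prop
  have habd : ∀ n t, 0 < t → ‖a n t‖ ≤
      C * Real.exp ((m + s) * t) * ((s * t) ^ n / (n.factorial : ℝ)) := by
    intro n t ht
    have h1 := (cpow_bd C m ρ hρ n).1 t ht
    have hf : (0 : ℝ) < (n.factorial : ℝ) := by positivity
    have h2 : (n.factorial : ℝ) ≤ ((n + 1).factorial : ℝ) := by
      exact_mod_cast Nat.factorial_le (Nat.le_succ n)
    have h3 := Real.pow_div_factorial_le_exp (s * t) (by positivity) n
    simp only [ha]
    rw [norm_div, norm_mul, norm_pow, Complex.norm_real, Real.norm_eq_abs, abs_of_pos ht,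
      Complex.norm_natCast]
    calc t ^ n * ‖cpow ρ n t‖ / ((n + 1).factorial : ℝ)
        ≤ t ^ n * (C ^ (n + 1) * (t ^ n / (n.factorial : ℝ)) * Real.exp (m * t)) /
            (n.factorial : ℝ) := by
          apply div_le_div₀ (by positivity) _ hf h2
          exact mul_le_mul_of_nonneg_left h1 (by positivity)
      _ = C * Real.exp (m * t) * ((s * t) ^ n / (n.factorial : ℝ)) *
            ((s * t) ^ n / (n.factorial : ℝ)) := by
          rw [← hss]; ring
      _ ≤ C * Real.exp (m * t) * ((s * t) ^ n / (n.factorial : ℝ)) * Real.exp (s * t) := by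
          apply mul_le_mul_of_nonneg_left h3 (by positivity)
      _ = C * Real.exp ((m + s) * t) * ((s * t) ^ n / (n.factorial : ℝ)) := by
          rw [add_mul, Real.exp_add]; ring
  have hsum : ∀ t, HasSum (fun n : ℕ => C * Real.exp ((m + s) * t) *
      ((s * t) ^ n / (n.factorial : ℝ))) (C * Real.exp ((m + 2 * s) * t)) := by
    intro t
    have h1 : HasSum (fun n : ℕ => (s * t) ^ n / (n.factorial : ℝ)) (Real.exp (s * t)) := by
      rw [Real.exp_eq_exp_ℝ]; exact NormedSpace.expSeries_div_hasSum_exp (s*t)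
    have h2 := h1.mul_left (C * Real.exp ((m + s) * t))
    have h3 : C * Real.exp ((m + s) * t) * Real.exp (s * t) = C * Real.exp ((m + 2 * s) * t) := by
      rw [mul_assoc, ← Real.exp_add]; ring_nf
    rwa [h3] at h2
  have hsumm : ∀ t, Summable (fun n => a n t) := by
    intro t
    rcases le_or_gt t 0 with ht | ht
    · have : (fun n => a n t) = fun _ => 0 := by ext n; exact ha0 n t ht
      rw [this]; exact summable_zero
    · exact Summable.of_norm_bounded (hsum t).summable (fun n => habd n t ht)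
  have hlap : ∀ z : ℂ, m + 2 * s < z.re →
      HasSum (fun n => lap (a n) z) (lap (fun t => ∑' n, a n t) z) := by
    intro z hz
    unfold lap
    refine hasSum_integral_of_dominated_convergence (fun n t => Real.exp (-(z.re * t)) *
        (C * Real.exp ((m + s) * t) * ((s * t) ^ n / (n.factorial : ℝ)))) ?_ ?_ ?_ ?_ ?_
    · intro n
      have := ham n
      apply Measurable.aestronglyMeasurable
      fun_prop
    · intro n
      rw [ae_restrict_iff' measurableSet_Ioi]
      filter_upwards with t ht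
      rw [norm_mul, Complex.norm_exp]
      have h1 : (-(z * (t : ℂ))).re = -(z.re * t) := by simp
      rw [h1]
      exact mul_le_mul_of_nonneg_left (habd n t ht) (Real.exp_pos _).le
    · filter_upwards with t
      exact (hsum t).summable.mul_left _
    · have h1 : (fun t : ℝ => ∑' n : ℕ, Real.exp (-(z.re * t)) *
          (C * Real.exp ((m + s) * t) * ((s * t) ^ n / (n.factorial : ℝ)))) =
          fun t => C * Real.exp (-(z.re - (m + 2 * s)) * t) := by
        ext t
        rw [tsum_mul_left, (hsum t).tsum_eq]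
        rw [mul_left_comm, ← Real.exp_add]
        ring_nf
      rw [h1]
      exact (exp_neg_integrableOn_Ioi 0 (by linarith : 0 < z.re - (m + 2 * s))).const_mul C
    · filter_upwards with t
      exact (hsumm t).hasSum.mul_left _
  refine ⟨fun t => -∑' n, a n t, C, m + 2 * s, m + 2 * s + 2 * C + 4, ⟨?_, ?_, ?_⟩, ?_⟩
  · apply Measurable.neg
    refine measurable_of_tendsto_metrizable (f := fun N t => ∑ n ∈ Finset.range N, a n t)
      (fun N => Finset.measurable_fun_sum _ (fun n _ => ham n)) ?_
    rw [tendsto_pi_nhds]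
    intro t
    exact (hsumm t).hasSum.tendsto_sum_nat
  · intro t ht
    simp [ha0 _ t ht]
  · intro t ht
    rw [norm_neg]
    exact tsum_of_norm_bounded (hsum t) (fun n => habd n t ht)
  · intro z hz
    have hzm : m < z.re := by linarith
    have hlapσ : lap (fun t => -∑' n, a n t) z = -lap (fun t => ∑' n, a n t) z := by
      unfold lap
      rw [← integral_neg]
      congr 1
      ext t
      ring
    have hre : ∀ ζ : ℂ, ∀ r : ℝ, ‖ζ‖ ≤ r → z.re - r ≤ (z + ζ).re := by
      intro ζ r hζ
      have h1 := Complex.abs_re_le_norm ζ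
      have h2 := neg_abs_le ζ.re
      rw [Complex.add_re]
      linarith
    have hd1 : DifferentiableOn ℂ (fun ζ => -lap ρ (z + ζ)) (Metric.ball 0 2) := by
      apply DifferentiableOn.neg
      refine ((lap_iter C m ρ hρ).1).comp (t := {z : ℂ | m < z.re})
        (f := fun ζ => z + ζ) (by fun_prop) ?_
      intro ζ hζ
      have h1 : ‖ζ‖ ≤ 2 := by
        have := mem_ball_zero_iff.1 hζ
        exact this.le
      have h2 := hre ζ 2 h1
      show m < (z + ζ).re
      linarith
    obtain ⟨w, hw1, hw2, hw3⟩ := lagrange (fun ζ => -lap ρ (z + ζ)) 1 2 (1/2) one_pos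
      (by norm_num) hd1 (by
        intro ζ hζ
        have h2 := hre ζ 1 hζ
        have h3 := (ee_conv C m hC ρ hρ (z + ζ) (by linarith)).2.1
        rw [norm_neg]
        refine h3.trans ?_
        rw [div_le_iff₀ (by linarith)]
        linarith) (by norm_num)
    have hterm : ∀ n : ℕ, iteratedDeriv n (fun ζ => (-lap ρ (z + ζ)) ^ (n + 1)) 0 /
        ((n + 1).factorial : ℂ) = -lap (a n) z := by
      intro n
      have hev : (fun ζ => (-lap ρ (z + ζ)) ^ (n + 1)) =ᶠ[𝓝 0]
          (fun ζ => (-1 : ℂ) ^ (n + 1) * lap (cpow ρ n) (z + ζ)) := by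
        filter_upwards [Metric.ball_mem_nhds (0 : ℂ) one_pos] with ζ hζ
        have h1 : ‖ζ‖ ≤ 1 := (mem_ball_zero_iff.1 hζ).le
        have h2 := hre ζ 1 h1
        rw [(cpow_bd C m ρ hρ n).2.2.2 (z + ζ) (by linarith), neg_pow]
      rw [hev.iteratedDeriv_eq n]
      have h5 : iteratedDeriv n (fun ζ => (-1 : ℂ) ^ (n + 1) * lap (cpow ρ n) (z + ζ)) 0 =
          (-1 : ℂ) ^ (n + 1) * iteratedDeriv n (lap (cpow ρ n)) z := by
        rw [iteratedDeriv_const_mul_field]
        rw [iteratedDeriv_comp_const_add]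
        simp
      rw [h5]
      have hE : EBd (C ^ (n + 1)) (m + 1) (cpow ρ n) := by
        refine ⟨(cpow_bd C m ρ hρ n).2.1, (cpow_bd C m ρ hρ n).2.2.1, ?_⟩
        intro t ht
        have h1 := (cpow_bd C m ρ hρ n).1 t ht
        have h3 := Real.pow_div_factorial_le_exp t ht.le n
        calc ‖cpow ρ n t‖ ≤ C ^ (n + 1) * (t ^ n / (n.factorial : ℝ)) * Real.exp (m * t) := h1
          _ ≤ C ^ (n + 1) * Real.exp t * Real.exp (m * t) := by
              apply mul_le_mul_of_nonneg_right _ (Real.exp_pos _).le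
              exact mul_le_mul_of_nonneg_left h3 (by positivity)
          _ = C ^ (n + 1) * Real.exp ((m + 1) * t) := by
              rw [mul_assoc, ← Real.exp_add]; ring_nf
      rw [(lap_iter (C ^ (n + 1)) (m + 1) (cpow ρ n) hE).2 n z (by linarith)]
      have h6 : lap (a n) z = lap (fun t => (t : ℂ) ^ n * cpow ρ n t) z /
          ((n + 1).factorial : ℂ) := by
        unfold lap
        rw [← integral_div]
        congr 1
        ext t
        simp only [ha]
        ring
      rw [h6]
      have h7 : (-1 : ℂ) ^ (n + 1) * ((-1 : ℂ) ^ n * lap (fun t => (t : ℂ) ^ n * cpow ρ n t) z) =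
          -lap (fun t => (t : ℂ) ^ n * cpow ρ n t) z := by
        rw [← mul_assoc, ← pow_add]
        have : (-1 : ℂ) ^ (n + 1 + n) = -1 := by
          have h8 : n + 1 + n = 2 * n + 1 := by ring
          rw [h8, pow_succ, pow_mul]; simp
        rw [this]; ring
      rw [h7, neg_div]
    have huniq : w = lap (fun t => -∑' n, a n t) z := by
      rw [hlapσ]
      have h1 := (hlap z (by linarith)).neg
      have h2 : (fun n : ℕ => iteratedDeriv n (fun ζ => (-lap ρ (z + ζ)) ^ (n + 1)) 0 /
        ((n + 1).factorial : ℂ)) = fun n => -lap (a n) z := by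
        ext n; exact hterm n
      rw [h2] at hw3
      exact hw3.unique h1
    rw [← huniq]
    exact hw2.symm

end Pool.Agent.Helper5.PG
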