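import Mathlib
import Pool.Agent.Helper5.Pt.Defs
import Pool.Agent.Helper5.Pe.Ring
import Pool.Agent.Helper5.Pt.CpowBd
import Pool.Agent.Helper5.Pe.CpowEbd
import Pool.Agent.Helper5.Pt.TtEbd
import Pool.Agent.Helper5.Pt.TtLap
import Pool.Agent.Helper5.Pt.LapInj
import Pool.Agent.Helper5.Pe.EeConv

set_option autoImplicit false
open MeasureTheory Set Filter Topology

namespace Pool.Agent.Helper5.PG

theorem tt_cpow (C m D m' : ℝ) (ρ h : ℝ → ℂ) (hρ : EBd C m ρ) (hh : EBd D m' h) (k : ℕ) :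
    cpow (TTr ρ h) k =ᵐ[volume] TTr ρ (cpow h k) := by
  obtain ⟨C1, m1, hT⟩ := tt_ebd C m D m' ρ h hρ hh
  obtain ⟨C2, m2, hC2, hck⟩ := cpow_ebd D m' h hh k
  obtain ⟨C3, m3, hTc⟩ := tt_ebd C m C2 m2 ρ (cpow h k) hρ hck
  obtain ⟨C4, m4, hC4, hcT⟩ := cpow_ebd C1 m1 (TTr ρ h) hT k
  obtain ⟨M1, hM1⟩ := tt_lap C m D m' ρ h hρ hh
  obtain ⟨M2, hM2⟩ := tt_lap C m C2 m2 ρ (cpow h k) hρ hck
  have hC0 : 0 ≤ C := hρ.nonneg
  refine lap_inj C4 m4 C3 m3 (max (max M1 M2) (max (m + 1) (max (m1 + 1) (m' + C + 1)))) _ _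
    hcT hTc ?_
  intro z hz
  have h1 : M1 ≤ z.re := le_trans (le_trans (le_max_left _ _) (le_max_left _ _)) hz
  have h2 : M2 ≤ z.re := le_trans (le_trans (le_max_right _ _) (le_max_left _ _)) hz
  have h3 : m + 1 ≤ z.re := le_trans (le_trans (le_max_left _ _) (le_max_right _ _)) hz
  have h4 : m1 + 1 ≤ z.re :=
    le_trans (le_trans (le_trans (le_max_left _ _) (le_max_right _ _)) (le_max_right _ _)) hz
  have h5 : m' + C + 1 ≤ z.re :=
    le_trans (le_trans (le_trans (le_max_right _ _) (le_max_right _ _)) (le_max_right _ _)) hz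
  have hl : ‖lap ρ z‖ ≤ C := by
    have h6 := (ee_conv C m hC0 ρ hρ z (by linarith)).2.1
    refine h6.trans ?_
    rw [div_le_iff₀ (by linarith)]
    nlinarith
  have hre : m' < (z + lap ρ z).re := by
    have h7 := (abs_le.1 ((Complex.abs_re_le_norm (lap ρ z)).trans hl)).1
    rw [Complex.add_re]
    linarith
  rw [(cpow_bd C1 m1 (TTr ρ h) hT k).2.2.2 z (by linarith), hM1 z h1, hM2 z h2,
    (cpow_bd D m' h hh k).2.2.2 (z + lap ρ z) hre]

end Pool.Agent.Helper5.PG
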