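import Mathlib
import Pool.Agent.Helper5.Pt.Defs
import Pool.Agent.Helper5.Pe.Ring
import Pool.Agent.Helper5.Pt.CpowBd

set_option autoImplicit false
open MeasureTheory Set Filter Topology

namespace Pool.Agent.Helper5.PG

theorem rk_term_bd (C m : ℝ) (ρ : ℝ → ℂ) (hρ : EBd C m ρ) (x t : ℝ) (ht : 0 ≤ t) (htx : t ≤ x) (n : ℕ) :
    ‖((-(t : ℂ)) ^ (n + 1) / ((n + 1).factorial : ℂ)) * cpow ρ n (x - t)‖ ≤
      ((x * C) ^ (n + 1) / ((n + 1).factorial : ℝ)) * (Real.exp x * Real.exp (|m| * x)) := by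
  have hC := hρ.nonneg
  have hx : 0 ≤ x := ht.trans htx
  have hfac : (0:ℝ) < ((n + 1).factorial : ℝ) := by exact_mod_cast Nat.factorial_pos _
  have h1 : ‖((-(t : ℂ)) ^ (n + 1) / ((n + 1).factorial : ℂ))‖ = t ^ (n + 1) / ((n + 1).factorial : ℝ) := by
    rw [norm_div, norm_pow, norm_neg, Complex.norm_natCast, Complex.norm_real, Real.norm_eq_abs,
      abs_of_nonneg ht]
  rw [norm_mul, h1]
  rcases lt_or_ge 0 (x - t) with hy | hy
  · have h2 := (cpow_bd C m ρ hρ n).1 (x - t) hy
    have h3 : (x - t) ^ n / (n.factorial : ℝ) ≤ Real.exp x :=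
      (Real.pow_div_factorial_le_exp (x - t) hy.le n).trans (Real.exp_le_exp.2 (by linarith))
    have h4 : Real.exp (m * (x - t)) ≤ Real.exp (|m| * x) := by
      apply Real.exp_le_exp.2
      have h5 : m * (x - t) ≤ |m| * (x - t) := mul_le_mul_of_nonneg_right (le_abs_self m) hy.le
      have h6 : |m| * (x - t) ≤ |m| * x := mul_le_mul_of_nonneg_left (by linarith) (abs_nonneg m)
      linarith
    calc t ^ (n + 1) / ((n + 1).factorial : ℝ) * ‖cpow ρ n (x - t)‖
        ≤ x ^ (n + 1) / ((n + 1).factorial : ℝ) * (C ^ (n + 1) * Real.exp x * Real.exp (|m| * x)) := by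
          gcongr
          exact h2.trans (by gcongr)
      _ = _ := by rw [mul_pow]; ring
  · rw [(cpow_bd C m ρ hρ n).2.2.1 _ hy, norm_zero, mul_zero]
    positivity

theorem rk_summable_bd (C m x : ℝ) : Summable (fun n : ℕ =>
      ((x * C) ^ (n + 1) / ((n + 1).factorial : ℝ)) * (Real.exp x * Real.exp (|m| * x))) := by
  apply Summable.mul_right
  exact (summable_nat_add_iff (f := fun n : ℕ => (x * C) ^ n / (n.factorial : ℝ)) 1).2
    (Real.summable_pow_div_factorial (x * C))

theorem tt_int (C m D m' : ℝ) (ρ h : ℝ → ℂ) (hρ : EBd C m ρ) (hh : EBd D m' h) (x : ℝ) :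
    IntervalIntegrable (fun t => rk ρ t (x - t) * h t) volume 0 x := by
  rcases lt_or_ge 0 x with hx | hx
  · rw [intervalIntegrable_iff_integrableOn_Ioc_of_le hx.le]
    obtain ⟨K, hK⟩ : ∃ K : ℝ, K = ∑' n : ℕ,
      ((x * C) ^ (n + 1) / ((n + 1).factorial : ℝ)) * (Real.exp x * Real.exp (|m| * x)) := ⟨_, rfl⟩
    have hsum := (rk_summable_bd C m x).hasSum
    rw [← hK] at hsum
    have hrk : ∀ t ∈ Ioc 0 x, ‖rk ρ t (x - t)‖ ≤ K := by
      intro t ht
      exact tsum_of_norm_bounded hsum fun n => rk_term_bd C m ρ hρ x t ht.1.le ht.2 n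
    have hmeas : AEStronglyMeasurable (fun t => rk ρ t (x - t)) (volume.restrict (Ioc 0 x)) := by
      refine aestronglyMeasurable_of_tendsto_ae atTop
        (f := fun N : ℕ => fun t : ℝ => ∑ n ∈ Finset.range N,
          ((-(t : ℂ)) ^ (n + 1) / ((n + 1).factorial : ℂ)) * cpow ρ n (x - t)) ?_ ?_
      · intro N
        apply Measurable.aestronglyMeasurable
        refine Finset.measurable_fun_sum _ fun n _ => ?_
        refine Measurable.mul ?_ ?_
        · fun_prop
        · exact (cpow_bd C m ρ hρ n).2.1.comp (measurable_const.sub measurable_id)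
      · refine (ae_restrict_mem measurableSet_Ioc).mono fun t ht => ?_
        have hs : Summable (fun n : ℕ =>
            ((-(t : ℂ)) ^ (n + 1) / ((n + 1).factorial : ℂ)) * cpow ρ n (x - t)) :=
          Summable.of_norm_bounded (rk_summable_bd C m x)
            fun n => rk_term_bd C m ρ hρ x t ht.1.le ht.2 n
        exact hs.hasSum.tendsto_sum_nat
    refine IntegrableOn.of_bound (by simp) ?_ (K * (D * Real.exp (|m'| * x))) ?_
    · exact hmeas.mul hh.meas.aestronglyMeasurable
    · refine (ae_restrict_mem measurableSet_Ioc).mono fun t ht => ?_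
      rw [norm_mul]
      have h1 := hrk t ht
      have h2 := hh.bd t ht.1
      have hD := hh.nonneg
      have hK0 : 0 ≤ K := (norm_nonneg _).trans h1
      have h3 : Real.exp (m' * t) ≤ Real.exp (|m'| * x) := by
        apply Real.exp_le_exp.2
        have h5 : m' * t ≤ |m'| * t := mul_le_mul_of_nonneg_right (le_abs_self m') ht.1.le
        have h6 : |m'| * t ≤ |m'| * x := mul_le_mul_of_nonneg_left ht.2 (abs_nonneg m')
        linarith
      have h4 : ‖h t‖ ≤ D * Real.exp (|m'| * x) := h2.trans (by gcongr)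
      exact mul_le_mul h1 h4 (norm_nonneg _) hK0
  · rw [intervalIntegrable_iff]
    have h0 : IntegrableOn (fun _ : ℝ => (0 : ℂ)) (Set.uIoc 0 x) volume := integrableOn_zero
    refine h0.congr_fun ?_ measurableSet_uIoc
    intro t ht
    rw [Set.uIoc_of_ge hx] at ht
    simp [hh.zero t ht.2]



theorem tt_lin (C m D m' : ℝ) (ρ h g : ℝ → ℂ) (hρ : EBd C m ρ) (hh : EBd D m' h)
    (hg : EBd D m' g) (c : ℂ) : TTr ρ (c • h + g) = c • TTr ρ h + TTr ρ g := by
  funext x
  have h1 := tt_int C m D m' ρ h hρ hh x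
  have h2 := tt_int C m D m' ρ g hρ hg x
  unfold TTr
  simp only [Pi.add_apply, Pi.smul_apply, smul_eq_mul]
  have h3 : ∀ t, rk ρ t (x - t) * (c * h t + g t) =
      c * (rk ρ t (x - t) * h t) + rk ρ t (x - t) * g t := fun t => by ring
  simp only [h3]
  rw [intervalIntegral.integral_add (h1.const_mul c) h2, intervalIntegral.integral_const_mul]
  ring

end Pool.Agent.Helper5.PG
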