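import Mathlib
import Pool.Agent.Helper5.Pt.Defs
import Pool.Agent.Helper5.Pe.Ring
import Pool.Agent.Helper5.Pt.CpowBd
import Pool.Agent.Helper5.Pt.TtEbd
import Pool.Agent.Helper5.Pe.ExpInt
import Pool.Agent.Helper5.Pg.RadicalBound
import Pool.Agent.Helper5.Pe.Inl1OfEbd

set_option autoImplicit false
open MeasureTheory Set Filter Topology

namespace Pool.Agent.Helper5.PG

theorem aux_exp_hasSum (x : ℝ) :
    HasSum (fun n : ℕ => x ^ (n + 1) / ((n + 1).factorial : ℝ)) (Real.exp x - 1) := by
  have h : HasSum (fun n : ℕ => x ^ n / (n.factorial : ℝ)) (Real.exp x) := by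
    rw [Real.exp_eq_exp_ℝ]
    exact NormedSpace.expSeries_div_hasSum_exp x
  have h2 := (hasSum_nat_add_iff' 1).2 h
  simpa using h2

theorem aux_rk_bd (C m : ℝ) (ρ : ℝ → ℂ) (hρ : EBd C m ρ) (Λ : ℝ) (hΛ : 0 < Λ) (t y : ℝ)
    (ht : 0 ≤ t) (hy : 0 < y) :
    ‖rk ρ t y‖ ≤ Λ * Real.exp (Λ * y) * Real.exp (m * y) * Real.exp (C * t / Λ) := by
  have hC : 0 ≤ C := hρ.nonneg
  have hS : HasSum (fun n : ℕ => Λ * Real.exp (Λ * y) * Real.exp (m * y) *
      ((C * t / Λ) ^ (n + 1) / ((n + 1).factorial : ℝ)))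
      (Λ * Real.exp (Λ * y) * Real.exp (m * y) * (Real.exp (C * t / Λ) - 1)) :=
    (aux_exp_hasSum (C * t / Λ)).mul_left _
  have h1 : ‖rk ρ t y‖ ≤ Λ * Real.exp (Λ * y) * Real.exp (m * y) * (Real.exp (C * t / Λ) - 1) := by
    unfold rk
    refine tsum_of_norm_bounded hS fun n => ?_
    have hb := (cpow_bd C m ρ hρ n).1 y hy
    have he : (Λ * y) ^ n / (n.factorial : ℝ) ≤ Real.exp (Λ * y) :=
      Real.pow_div_factorial_le_exp _ (by positivity) n
    have hyn : y ^ n / (n.factorial : ℝ) ≤ Real.exp (Λ * y) / Λ ^ n := by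
      rw [le_div_iff₀ (by positivity)]
      calc y ^ n / (n.factorial : ℝ) * Λ ^ n = (Λ * y) ^ n / (n.factorial : ℝ) := by
            rw [mul_pow]; ring
        _ ≤ _ := he
    rw [norm_mul, norm_div, norm_pow, norm_neg, Complex.norm_real, Real.norm_of_nonneg ht,
      Complex.norm_natCast]
    calc t ^ (n + 1) / ((n + 1).factorial : ℝ) * ‖cpow ρ n y‖
        ≤ t ^ (n + 1) / ((n + 1).factorial : ℝ) *
          (C ^ (n + 1) * (Real.exp (Λ * y) / Λ ^ n) * Real.exp (m * y)) := by
          refine mul_le_mul_of_nonneg_left (hb.trans ?_) (by positivity)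
          gcongr
      _ = Λ * Real.exp (Λ * y) * Real.exp (m * y) *
          ((C * t / Λ) ^ (n + 1) / ((n + 1).factorial : ℝ)) := by
          rw [div_pow, mul_pow, pow_succ Λ n]
          field_simp
  refine h1.trans ?_
  refine mul_le_mul_of_nonneg_left (by linarith) (by positivity)

theorem aux_rk_zero (C m : ℝ) (ρ : ℝ → ℂ) (hρ : EBd C m ρ) (t y : ℝ) (hy : y ≤ 0) :
    rk ρ t y = 0 := by
  unfold rk
  have : ∀ n : ℕ, ((-(t : ℂ)) ^ (n + 1) / ((n + 1).factorial : ℂ)) * cpow ρ n y = 0 := by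
    intro n
    rw [(cpow_bd C m ρ hρ n).2.2.1 y hy, mul_zero]
  simp only [this, tsum_zero]



theorem tt_norm (w : ℝ → ℝ) (hw : IsWeight w) (hr : IsRadical w) (ε : ℝ) (hε : 0 < ε) (C m : ℝ)
    (ρ : ℝ → ℂ) (hρ : EBd C m ρ) :
    ∃ K : ℝ, 0 < K ∧ ∀ (D m' : ℝ) (h : ℝ → ℂ), EBd D m' h →
      ∫ t in Ioi (0:ℝ), ‖TTr ρ h t‖ * w t ≤
        K * ∫ t in Ioi (0:ℝ), ‖h t‖ * (w t * Real.exp (ε * t)) := by
  have hC : 0 ≤ C := hρ.nonneg
  obtain ⟨Λ, hΛd⟩ : ∃ Λ : ℝ, Λ = C / ε + 1 := ⟨_, rfl⟩
  have hΛ : 0 < Λ := by rw [hΛd]; positivity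
  have hCΛ : C / Λ ≤ ε := by
    rw [div_le_iff₀ hΛ, hΛd]
    have : ε * (C / ε + 1) = C + ε := by field_simp
    rw [this]; linarith
  obtain ⟨A, hA⟩ : ∃ A : ℝ → ℝ, A = (Ioi (0:ℝ)).indicator
    (fun y => Λ * (Real.exp ((Λ + m) * y) * w y)) := ⟨_, rfl⟩
  have hAint : Integrable A := by
    rw [hA, integrable_indicator_iff measurableSet_Ioi]
    have := (exp_int w hw hr 0 (Λ + m)).const_mul Λ
    simpa [IntegrableOn] using this
  have hA0 : ∀ y, 0 ≤ A y := by
    intro y
    rw [hA]
    refine Set.indicator_nonneg (fun y hy => ?_) y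
    have := hw.pos y (le_of_lt hy)
    positivity
  refine ⟨1 + ∫ y, A y, ?_, ?_⟩
  · have : 0 ≤ ∫ y, A y := integral_nonneg hA0
    linarith
  intro D m' h hh
  obtain ⟨F, hF⟩ : ∃ F : ℝ → ℝ, F = (Ioi (0:ℝ)).indicator
    (fun t => ‖h t‖ * (w t * Real.exp (ε * t))) := ⟨_, rfl⟩
  have hF0 : ∀ y, 0 ≤ F y := by
    intro y
    rw [hF]
    refine Set.indicator_nonneg (fun y hy => ?_) y
    have := hw.pos y (le_of_lt hy)
    positivity
  have hwm : AEStronglyMeasurable w (volume.restrict (Ioi (0:ℝ))) :=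
    (hw.cont.mono Ioi_subset_Ici_self).aestronglyMeasurable measurableSet_Ioi
  have hFint : Integrable F := by
    rw [hF, integrable_indicator_iff measurableSet_Ioi]
    have hg := (exp_int w hw hr 0 (m' + ε)).const_mul D
    refine Integrable.mono' hg ?_ ?_
    · refine (hh.meas.norm.aestronglyMeasurable).mul (hwm.mul ?_)
      exact (by fun_prop : Continuous fun t : ℝ => Real.exp (ε * t)).aestronglyMeasurable
    · filter_upwards [ae_restrict_mem measurableSet_Ioi] with t ht
      have hwt := hw.pos t (le_of_lt ht)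
      rw [Real.norm_of_nonneg (by positivity)]
      have hb := hh.bd t ht
      calc ‖h t‖ * (w t * Real.exp (ε * t)) ≤ (D * Real.exp (m' * t)) * (w t * Real.exp (ε * t)) :=
            mul_le_mul_of_nonneg_right hb (by positivity)
        _ = D * (t ^ 0 * Real.exp ((m' + ε) * t) * w t) := by
            rw [add_mul, Real.exp_add]; ring
  obtain ⟨cvl, hcvl⟩ : ∃ cvl : ℝ → ℝ, cvl = MeasureTheory.convolution F A
    (ContinuousLinearMap.mul ℝ ℝ) volume := ⟨_, rfl⟩
  have hcint : Integrable cvl := by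
    rw [hcvl]; exact hFint.integrable_convolution (ContinuousLinearMap.mul ℝ ℝ) hAint
  have hcval : ∫ x, cvl x = (∫ x, F x) * ∫ x, A x := by
    rw [hcvl]
    have := MeasureTheory.integral_convolution (ContinuousLinearMap.mul ℝ ℝ) hFint hAint
    simpa using this
  have hcx : ∀ x, cvl x = ∫ t, F t * A (x - t) := by
    intro x; rw [hcvl]; rfl
  have hc0 : ∀ x, 0 ≤ cvl x := by
    intro x; rw [hcx]; exact integral_nonneg fun t => mul_nonneg (hF0 t) (hA0 _)
  have hex : ∀ᵐ x : ℝ, Integrable (fun t => F t * A (x - t)) := by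
    have := hFint.ae_convolution_exists (ContinuousLinearMap.mul ℝ ℝ) hAint
    filter_upwards [this] with x hx
    exact hx
  have hpt : ∀ᵐ x ∂(volume.restrict (Ioi (0:ℝ))), ‖TTr ρ h x‖ * w x ≤ F x + cvl x := by
    filter_upwards [ae_restrict_of_ae hex, ae_restrict_mem measurableSet_Ioi] with x hx hx0
    have hx0' : (0:ℝ) < x := hx0
    have hwx := hw.pos x hx0'.le
    have hFx : ‖h x‖ * w x ≤ F x := by
      rw [hF, Set.indicator_of_mem hx0]
      have : (1:ℝ) ≤ Real.exp (ε * x) := Real.one_le_exp (by positivity)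
      have h2 : w x ≤ w x * Real.exp (ε * x) := by nlinarith
      exact mul_le_mul_of_nonneg_left h2 (norm_nonneg _)
    have hcint' : cvl x = ∫ t in (0:ℝ)..x, F t * A (x - t) := by
      rw [hcx, intervalIntegral.integral_of_le hx0'.le,
        setIntegral_eq_integral_of_forall_compl_eq_zero]
      intro t ht
      by_cases h0 : 0 < t
      · have htx : x < t := by
          by_contra hcon
          push Not at hcon
          exact ht ⟨h0, hcon⟩
        have : A (x - t) = 0 := by
          rw [hA, Set.indicator_of_notMem]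
          simp only [mem_Ioi, not_lt]; linarith
        rw [this, mul_zero]
      · have : F t = 0 := by
          rw [hF, Set.indicator_of_notMem]
          simpa using h0
        rw [this, zero_mul]
    have hkey : ‖∫ t in (0:ℝ)..x, rk ρ t (x - t) * h t‖ ≤
        ∫ t in (0:ℝ)..x, F t * A (x - t) / w x := by
      refine intervalIntegral.norm_integral_le_of_norm_le hx0'.le ?_ ?_
      · refine Filter.Eventually.of_forall fun t ht => ?_
        obtain ⟨ht0, htx⟩ := ht
        rw [le_div_iff₀ hwx, norm_mul]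
        rcases htx.lt_or_eq with hlt | heq
        · have hy : 0 < x - t := by linarith
          have hb := aux_rk_bd C m ρ hρ Λ hΛ t (x - t) ht0.le hy
          have hwy := hw.pos (x - t) hy.le
          have hwt := hw.pos t ht0.le
          have hsub : w x ≤ w (x - t) * w t := by
            have := hw.submul (x - t) t hy.le ht0.le
            simpa using this
          have hFt : F t = ‖h t‖ * (w t * Real.exp (ε * t)) := by
            rw [hF, Set.indicator_of_mem (show t ∈ Ioi (0:ℝ) from ht0)]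
          have hAt : A (x - t) = Λ * (Real.exp ((Λ + m) * (x - t)) * w (x - t)) := by
            rw [hA, Set.indicator_of_mem (show x - t ∈ Ioi (0:ℝ) from hy)]
          have hexp : Real.exp (C * t / Λ) ≤ Real.exp (ε * t) := by
            apply Real.exp_le_exp.2
            calc C * t / Λ = C / Λ * t := by ring
              _ ≤ ε * t := mul_le_mul_of_nonneg_right hCΛ ht0.le
          have hb2 : ‖rk ρ t (x - t)‖ ≤ Λ * Real.exp ((Λ + m) * (x - t)) * Real.exp (ε * t) := by
            refine hb.trans ?_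
            have e1 : Real.exp ((Λ + m) * (x - t)) = Real.exp (Λ * (x - t)) * Real.exp (m * (x - t)) := by
              rw [← Real.exp_add]; congr 1; ring
            rw [e1]
            calc Λ * Real.exp (Λ * (x - t)) * Real.exp (m * (x - t)) * Real.exp (C * t / Λ)
                ≤ Λ * Real.exp (Λ * (x - t)) * Real.exp (m * (x - t)) * Real.exp (ε * t) := by
                  gcongr
              _ = _ := by ring
          rw [hFt, hAt]
          calc ‖rk ρ t (x - t)‖ * ‖h t‖ * w x
              ≤ (Λ * Real.exp ((Λ + m) * (x - t)) * Real.exp (ε * t)) * ‖h t‖ *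
                (w (x - t) * w t) := by
                gcongr
            _ = _ := by ring
        · rw [heq, sub_self, aux_rk_zero C m ρ hρ x 0 le_rfl]
          simp only [norm_zero, zero_mul]
          exact mul_nonneg (hF0 _) (hA0 _)
      · exact (hx.div_const (w x)).intervalIntegrable
    have hkey2 : ‖∫ t in (0:ℝ)..x, rk ρ t (x - t) * h t‖ * w x ≤ cvl x := by
      rw [intervalIntegral.integral_div, ← hcint', le_div_iff₀ hwx] at hkey
      exact hkey
    unfold TTr
    calc ‖h x + ∫ t in (0:ℝ)..x, rk ρ t (x - t) * h t‖ * w x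
        ≤ (‖h x‖ + ‖∫ t in (0:ℝ)..x, rk ρ t (x - t) * h t‖) * w x := by
          gcongr; exact norm_add_le _ _
      _ = ‖h x‖ * w x + ‖∫ t in (0:ℝ)..x, rk ρ t (x - t) * h t‖ * w x := by ring
      _ ≤ F x + cvl x := add_le_add hFx hkey2
  have hFe : ∫ x, F x = ∫ t in Ioi (0:ℝ), ‖h t‖ * (w t * Real.exp (ε * t)) := by
    rw [hF, integral_indicator measurableSet_Ioi]
  rw [← hFe]
  calc ∫ t in Ioi (0:ℝ), ‖TTr ρ h t‖ * w t ≤ ∫ x in Ioi (0:ℝ), (F x + cvl x) := by
        refine integral_mono_of_nonneg ?_ (hFint.add hcint).integrableOn hpt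
        filter_upwards [ae_restrict_mem measurableSet_Ioi] with t ht
        have := hw.pos t (le_of_lt ht)
        show (0:ℝ) ≤ _
        positivity
    _ ≤ ∫ x, (F x + cvl x) := by
        refine setIntegral_le_integral (hFint.add hcint) ?_
        exact Filter.Eventually.of_forall fun x => add_nonneg (hF0 x) (hc0 x)
    _ = (1 + ∫ y, A y) * ∫ x, F x := by
        rw [integral_add hFint hcint, hcval]; ring

end Pool.Agent.Helper5.PG
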