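import Mathlib
import Pool.Agent.Helper5.Pt.Defs
import Pool.Agent.Helper5.Pe.Ring

set_option autoImplicit false
open MeasureTheory Set Filter Topology

namespace Pool.Agent.Helper5.PG

theorem wexp (w : ℝ → ℝ) (hw : IsWeight w) (hr : IsRadical w) (ε : ℝ) :
    IsWeight (fun t => w t * Real.exp (ε * t)) ∧ IsRadical (fun t => w t * Real.exp (ε * t)) := by
  refine ⟨⟨?_, ?_, ?_⟩, ?_⟩
  · exact hw.cont.mul (by fun_prop)
  · intro t ht
    exact mul_pos (hw.pos t ht) (Real.exp_pos _)
  · intro s t hs ht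
    have h1 := hw.submul s t hs ht
    have h2 : Real.exp (ε * (s + t)) = Real.exp (ε * s) * Real.exp (ε * t) := by
      rw [← Real.exp_add]; ring_nf
    show w (s + t) * Real.exp (ε * (s + t)) ≤
      (w s * Real.exp (ε * s)) * (w t * Real.exp (ε * t))
    rw [h2]
    calc w (s + t) * (Real.exp (ε * s) * Real.exp (ε * t))
        ≤ (w s * w t) * (Real.exp (ε * s) * Real.exp (ε * t)) :=
          mul_le_mul_of_nonneg_right h1 (by positivity)
      _ = _ := by ring
  · unfold IsRadical at hr ⊢
    have h1 : Tendsto (fun t : ℝ => (w t) ^ (1 / t) * Real.exp ε) atTop (𝓝 (0 * Real.exp ε)) :=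
      hr.mul_const _
    rw [zero_mul] at h1
    refine h1.congr' ?_
    filter_upwards [eventually_gt_atTop (0:ℝ)] with t ht
    rw [Real.mul_rpow (hw.pos t ht.le).le (Real.exp_pos _).le, ← Real.exp_mul]
    congr 2
    field_simp

end Pool.Agent.Helper5.PG
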