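import Mathlib
import Pool.Agent.Helper5.Pt.Defs
import Pool.Agent.Helper5.Pe.Ring
import Pool.Agent.Helper5.Pt.TtEbd
import Pool.Agent.Helper5.Pt.TtLin
import Pool.Agent.Helper5.Pt.TtLap
import Pool.Agent.Helper5.Pt.TtCpow
import Pool.Agent.Helper5.Pt.TtNorm
import Pool.Agent.Helper5.Pt.SigmaEx
import Pool.Agent.Helper5.Pt.LapInj
import Pool.Agent.Helper5.Pg.GenRadical
import Pool.Agent.Helper5.Pg.CpowPw
import Pool.Agent.Helper5.Pt.Wexp
import Pool.Agent.Helper5.Pe.CpowEbd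
import Pool.Agent.Helper5.Pt.LapPT
import Pool.Agent.Helper5.Pe.Inl1OfEbd
import Pool.Agent.Helper5.Pt.CpowAe
import Pool.Agent.Helper5.Pe.EeConv
import Pool.Agent.Helper5.Pe.ExpInt

set_option autoImplicit false
open MeasureTheory Set Filter Topology

namespace Pool.Agent.Helper5.PG

theorem gm_cpow_eq (a : ℝ) (b : ℂ) (k : ℕ) : ∀ t : ℝ, 0 < t →
    cpow (pT a b) k t = cpow (pw a b) k t := by
  induction k with
  | zero => intro t ht; simp [cpow, pT, ht]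
  | succ k ih =>
    intro t ht
    show cv (pT a b) (cpow (pT a b) k) t = cv (pw a b) (cpow (pw a b) k) t
    unfold cv
    rw [intervalIntegral.integral_of_le ht.le, intervalIntegral.integral_of_le ht.le,
      integral_Ioc_eq_integral_Ioo, integral_Ioc_eq_integral_Ioo]
    refine setIntegral_congr_fun measurableSet_Ioo fun s hs => ?_
    have h1 : 0 < t - s := sub_pos.mpr hs.2
    simp only [ih s hs.1]
    simp [pT, h1]

theorem gm_inv (C m : ℝ) (ρ : ℝ → ℂ) (hρ : EBd C m ρ) (σ : ℝ → ℂ) (C' m' M : ℝ)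
    (hσ : EBd C' m' σ) (hM : ∀ z : ℂ, M ≤ z.re → lap σ z = -lap ρ (z + lap σ z))
    (D m2 : ℝ) (r : ℝ → ℂ) (hr : EBd D m2 r) : TTr σ (TTr ρ r) =ᵐ[volume] r := by
  obtain ⟨C1, m1, h1⟩ := tt_ebd C m D m2 ρ r hρ hr
  obtain ⟨C2, m3, h2⟩ := tt_ebd C' m' C1 m1 σ (TTr ρ r) hσ h1
  obtain ⟨M1, hM1⟩ := tt_lap C' m' C1 m1 σ (TTr ρ r) hσ h1
  obtain ⟨M2, hM2⟩ := tt_lap C m D m2 ρ r hρ hr
  refine lap_inj C2 m3 D m2 (max (max M M1) (max (m' + 1) (M2 + C'))) _ _ h2 hr ?_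
  intro z hz
  have hz1 : M ≤ z.re := ((le_max_left _ _).trans (le_max_left _ _)).trans hz
  have hz2 : M1 ≤ z.re := ((le_max_right _ _).trans (le_max_left _ _)).trans hz
  have hz3 : m' + 1 ≤ z.re := ((le_max_left _ _).trans (le_max_right _ _)).trans hz
  have hz4 : M2 + C' ≤ z.re := ((le_max_right _ _).trans (le_max_right _ _)).trans hz
  have hC' := hσ.nonneg
  have hn : ‖lap σ z‖ ≤ C' := by
    have h3 := (ee_conv C' m' hC' σ hσ z (by linarith)).2.1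
    refine h3.trans ?_
    rw [div_le_iff₀ (by linarith)]
    nlinarith
  have hre : M2 ≤ (z + lap σ z).re := by
    rw [Complex.add_re]
    have h3 := Complex.abs_re_le_norm (lap σ z)
    have h4 := neg_abs_le (lap σ z).re
    linarith
  rw [hM1 z hz2, hM2 _ hre]
  congr 1
  have := hM z hz1
  linear_combination this

theorem gm_sum_ebd (g : ℕ → ℝ → ℂ) (hg : ∀ k, ∃ C m : ℝ, EBd C m (g k)) (c : ℕ → ℂ) (n : ℕ) :
    ∃ C m : ℝ, EBd C m (∑ k ∈ Finset.range n, c k • g k) := by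
  induction n with
  | zero =>
    refine ⟨0, 0, ?_, fun t _ => by simp, fun t _ => by simp⟩
    simp only [Finset.range_zero, Finset.sum_empty]
    exact measurable_const
  | succ n ih =>
    obtain ⟨C, m, h⟩ := ih
    obtain ⟨C', m', h'⟩ := hg n
    rw [Finset.sum_range_succ]
    exact ⟨_, _, h.add (h'.smul (c n))⟩

theorem gm_lin (C m : ℝ) (ρ : ℝ → ℂ) (hρ : EBd C m ρ) (D1 m1 D2 m2 : ℝ) (h g : ℝ → ℂ)
    (hh : EBd D1 m1 h) (hg : EBd D2 m2 g) (c : ℂ) :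
    TTr ρ (c • h + g) = c • TTr ρ h + TTr ρ g :=
  tt_lin C m (max D1 D2) (max m1 m2) ρ h g hρ (hh.mono (le_max_left _ _) (le_max_left _ _))
    (hg.mono (le_max_right _ _) (le_max_right _ _)) c

theorem gm_tt_sum (C m : ℝ) (ρ : ℝ → ℂ) (hρ : EBd C m ρ) (g : ℕ → ℝ → ℂ)
    (hg : ∀ k, ∃ C m : ℝ, EBd C m (g k)) (c : ℕ → ℂ) (n : ℕ) :
    TTr ρ (∑ k ∈ Finset.range n, c k • g k) = ∑ k ∈ Finset.range n, c k • TTr ρ (g k) := by
  induction n with
  | zero =>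
    funext x
    simp [TTr]
  | succ n ih =>
    obtain ⟨C1, m1, h1⟩ := gm_sum_ebd g hg c n
    obtain ⟨C', m', h'⟩ := hg n
    rw [Finset.sum_range_succ, Finset.sum_range_succ, add_comm,
      gm_lin C m ρ hρ C' m' C1 m1 (g n) _ h' h1 (c n), ih, add_comm]

theorem gminus (w : ℝ → ℝ) (hw : IsWeight w) (hr : IsRadical w) (C m : ℝ) (ρ : ℝ → ℂ)
    (hρ : EBd C m ρ) (a : ℝ) (ha : 1 ≤ a) (b : ℂ) (ε : ℝ) (hε : 0 < ε)
    (hgen : IsPolyGen w (TTr ρ (pT a b))) :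
    IsPolyGen (fun t => w t * Real.exp (-ε * t)) (pw a b) := by
  obtain ⟨hw1, hr1⟩ := wexp w hw hr (-ε)
  obtain ⟨w1, hw1d⟩ : ∃ w1 : ℝ → ℝ, w1 = fun t => w t * Real.exp (-ε * t) := ⟨_, rfl⟩
  rw [← hw1d] at hw1 hr1 ⊢
  obtain ⟨⟨Ca, ma, hpTa⟩, -⟩ := lap_pT a ha b
  obtain ⟨⟨Cb, mb, hpT1⟩, -⟩ := lap_pT 1 le_rfl b
  refine ⟨?_, ?_⟩
  · have h1 := (inl1_of_ebd w1 hw1 hr1 Ca ma hpTa.nonneg _ hpTa).1
    unfold InL1 at h1 ⊢
    refine h1.congr_fun (fun t ht => ?_) measurableSet_Ioi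
    have ht' : 0 < t := ht
    simp [pT, ht']
  intro h hh η hη
  obtain ⟨σ, C', m', M, hσ, hM⟩ := sigma_ex C m ρ hρ
  obtain ⟨K, hK, hKb⟩ := tt_norm w1 hw1 hr1 ε hε C' m' σ hσ
  obtain ⟨-, hg1⟩ := gen_radical w1 hw1 hr1 1 one_pos (by norm_num) b
  obtain ⟨n, d, hd⟩ := hg1 h hh (η / 2) (by positivity)
  have hgk1 : ∀ k, ∃ C m : ℝ, EBd C m (cpow (pT 1 b) k) := fun k => by
    obtain ⟨c1, c2, -, h3⟩ := cpow_ebd Cb mb _ hpT1 k
    exact ⟨c1, c2, h3⟩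
  have hgka : ∀ k, ∃ C m : ℝ, EBd C m (cpow (pT a b) k) := fun k => by
    obtain ⟨c1, c2, -, h3⟩ := cpow_ebd Ca ma _ hpTa k
    exact ⟨c1, c2, h3⟩
  obtain ⟨p, hp⟩ : ∃ p : ℝ → ℂ, p = ∑ k ∈ Finset.range n, d k • cpow (pT 1 b) k := ⟨_, rfl⟩
  obtain ⟨Cp, mp, hpE⟩ := gm_sum_ebd _ hgk1 d n
  rw [← hp] at hpE
  obtain ⟨CP, mP, hPE⟩ := tt_ebd C m Cp mp ρ p hρ hpE
  have hPL := (inl1_of_ebd w hw hr CP mP hPE.nonneg _ hPE).1
  obtain ⟨n', q, hq⟩ := hgen.2 (TTr ρ p) hPL (η / (2 * K)) (by positivity)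
  obtain ⟨qf, hqf⟩ : ∃ qf : ℝ → ℂ, qf = ∑ k ∈ Finset.range n', q k • cpow (pT a b) k := ⟨_, rfl⟩
  obtain ⟨Cq, mq, hqE⟩ := gm_sum_ebd _ hgka q n'
  rw [← hqf] at hqE
  obtain ⟨r, hrd⟩ : ∃ r : ℝ → ℂ, r = (-1 : ℂ) • qf + p := ⟨_, rfl⟩
  have hrE : EBd (‖(-1 : ℂ)‖ * Cq + Cp) (max mq mp) r := by
    rw [hrd]; exact (hqE.smul (-1)).add hpE
  obtain ⟨CR, mR, hRE⟩ := tt_ebd C m _ _ ρ r hρ hrE
  have hTr : TTr ρ r = (-1 : ℂ) • TTr ρ qf + TTr ρ p := by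
    rw [hrd]; exact gm_lin C m ρ hρ Cq mq Cp mp qf p hqE hpE (-1)
  have hTq : TTr ρ qf = ∑ k ∈ Finset.range n', q k • TTr ρ (cpow (pT a b) k) := by
    rw [hqf]; exact gm_tt_sum C m ρ hρ _ hgka q n'
  have hae : ∀ᵐ t ∂(volume : Measure ℝ), ∀ k,
      cpow (TTr ρ (pT a b)) k t = TTr ρ (cpow (pT a b) k) t :=
    ae_all_iff.mpr fun k => tt_cpow C m Ca ma ρ (pT a b) hρ hpTa k
  have hlt : ∫⁻ t in Ioi (0:ℝ), ENNReal.ofReal (‖TTr ρ r t‖ * w t) <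
      ENNReal.ofReal (η / (2 * K)) := by
    refine lt_of_le_of_lt (le_of_eq ?_) hq
    refine lintegral_congr_ae ?_
    filter_upwards [ae_restrict_of_ae hae] with t ht
    have e : TTr ρ r t = TTr ρ p t - ∑ k ∈ Finset.range n', q k * cpow (TTr ρ (pT a b)) k t := by
      rw [hTr, hTq]
      simp only [Pi.add_apply, Pi.smul_apply, Finset.sum_apply, smul_eq_mul]
      have e0 : ∑ k ∈ Finset.range n', q k * cpow (TTr ρ (pT a b)) k t =
          ∑ k ∈ Finset.range n', q k * TTr ρ (cpow (pT a b) k) t :=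
        Finset.sum_congr rfl fun k _ => by rw [ht k]
      rw [e0]
      ring
    rw [e]
  have hnorm : ∀ (v : ℝ → ℝ), IsWeight v → ∀ (g : ℝ → ℂ), InL1 v g →
      IntegrableOn (fun t => ‖g t‖ * v t) (Ioi 0) := by
    intro v hv g hg
    have h1 : IntegrableOn (fun t => ‖g t * (v t : ℂ)‖) (Ioi 0) := hg.norm
    refine h1.congr_fun (fun t ht => ?_) measurableSet_Ioi
    have h2 : 0 < v t := hv.pos t (le_of_lt ht)
    simp only [norm_mul, Complex.norm_real, Real.norm_eq_abs, abs_of_pos h2]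
  have hnn : ∀ (v : ℝ → ℝ), IsWeight v → ∀ (g : ℝ → ℂ),
      0 ≤ᵐ[volume.restrict (Ioi (0:ℝ))] (fun t => ‖g t‖ * v t) := by
    intro v hv g
    filter_upwards [ae_restrict_mem measurableSet_Ioi] with t ht
    exact mul_nonneg (norm_nonneg _) (hv.pos t (le_of_lt ht)).le
  have hRL := (inl1_of_ebd w hw hr CR mR hRE.nonneg _ hRE).1
  have hRI := hnorm w hw _ hRL
  have hRlt : ∫ t in Ioi (0:ℝ), ‖TTr ρ r t‖ * w t < η / (2 * K) := by
    rw [← ENNReal.ofReal_lt_ofReal_iff (by positivity),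
      ofReal_integral_eq_lintegral_ofReal hRI (hnn w hw _)]
    exact hlt
  have hK1 := hKb CR mR (TTr ρ r) hRE
  have hwe : ∀ t : ℝ, w1 t * Real.exp (ε * t) = w t := by
    intro t
    rw [hw1d]
    simp only
    rw [mul_assoc, ← Real.exp_add]
    have : -ε * t + ε * t = 0 := by ring
    rw [this, Real.exp_zero, mul_one]
  simp only [hwe] at hK1
  have hinv := gm_inv C m ρ hρ σ C' m' M hσ hM _ _ r hrE
  have hEq : ∫ t in Ioi (0:ℝ), ‖TTr σ (TTr ρ r) t‖ * w1 t = ∫ t in Ioi (0:ℝ), ‖r t‖ * w1 t := by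
    refine integral_congr_ae ?_
    filter_upwards [ae_restrict_of_ae hinv] with t ht
    rw [ht]
  rw [hEq] at hK1
  have hrlt : ∫ t in Ioi (0:ℝ), ‖r t‖ * w1 t < η / 2 := by
    have h1 : K * ∫ t in Ioi (0:ℝ), ‖TTr ρ r t‖ * w t < K * (η / (2 * K)) :=
      mul_lt_mul_of_pos_left hRlt hK
    have h2 : K * (η / (2 * K)) = η / 2 := by field_simp
    linarith
  have hrL := (inl1_of_ebd w1 hw1 hr1 _ _ hrE.nonneg _ hrE).1
  have hrI := hnorm w1 hw1 _ hrL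
  have hrlt' : ∫⁻ t in Ioi (0:ℝ), ENNReal.ofReal (‖r t‖ * w1 t) < ENNReal.ofReal (η / 2) := by
    rw [← ofReal_integral_eq_lintegral_ofReal hrI (hnn w1 hw1 _)]
    exact (ENNReal.ofReal_lt_ofReal_iff (by positivity)).2 hrlt
  refine ⟨n', q, ?_⟩
  have hle : ∫⁻ t in Ioi (0:ℝ), ENNReal.ofReal
        (‖h t - ∑ k ∈ Finset.range n', q k * cpow (pw a b) k t‖ * w1 t) ≤
      ∫⁻ t in Ioi (0:ℝ), (ENNReal.ofReal
        (‖h t - ∑ k ∈ Finset.range n, d k * cpow (pw 1 b) k t‖ * w1 t) +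
        ENNReal.ofReal (‖r t‖ * w1 t)) := by
    refine setLIntegral_mono' measurableSet_Ioi fun t ht => ?_
    have ht' : 0 < t := ht
    have hwt : 0 < w1 t := hw1.pos t ht'.le
    rw [← ENNReal.ofReal_add (mul_nonneg (norm_nonneg _) hwt.le)
      (mul_nonneg (norm_nonneg _) hwt.le)]
    refine ENNReal.ofReal_le_ofReal ?_
    rw [← add_mul]
    refine mul_le_mul_of_nonneg_right ?_ hwt.le
    have e1 : ∑ k ∈ Finset.range n', q k * cpow (pw a b) k t = qf t := by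
      rw [hqf]
      simp only [Finset.sum_apply, Pi.smul_apply, smul_eq_mul, gm_cpow_eq a b _ t ht']
    have e2 : ∑ k ∈ Finset.range n, d k * cpow (pw 1 b) k t = p t := by
      rw [hp]
      simp only [Finset.sum_apply, Pi.smul_apply, smul_eq_mul, gm_cpow_eq 1 b _ t ht']
    rw [e1, e2]
    have e3 : h t - qf t = (h t - p t) + r t := by
      rw [hrd]
      simp only [Pi.add_apply, Pi.smul_apply, smul_eq_mul]
      ring
    rw [e3]
    exact norm_add_le _ _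
  refine lt_of_le_of_lt hle ?_
  rw [lintegral_add_right']
  · have h3 := ENNReal.add_lt_add hd hrlt'
    rw [← ENNReal.ofReal_add (by positivity) (by positivity), add_halves] at h3
    exact h3
  · exact hrI.aestronglyMeasurable.aemeasurable.ennreal_ofReal

end Pool.Agent.Helper5.PG
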