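import Mathlib
import Pool.Agent.Helper5.Pt.Defs
import Pool.Agent.Helper5.Pe.Ring
import Pool.Agent.Helper5.Pe.CvEbd
import Pool.Agent.Helper5.Pe.CvComm
import Pool.Agent.Helper5.Pe.LapCv
import Pool.Agent.Helper5.Pe.LapEe
import Pool.Agent.Helper5.Pe.EeConv
import Pool.Agent.Helper5.Pt.TtEbd
import Pool.Agent.Helper5.Pt.TtLap
import Pool.Agent.Helper5.Pt.LapPT
import Pool.Agent.Helper5.Pt.LapInj
import Pool.Agent.Helper5.Pt.GenAe
import Pool.Agent.Helper5.Pe.Main1

set_option autoImplicit false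
open MeasureTheory Set Filter Topology

namespace Pool.Agent.Helper5.PG

theorem vg_int {C m : ℝ} {g : ℝ → ℂ} (hg : EBd C m g) {z : ℂ} (hz : m < z.re) :
    IntegrableOn (fun r : ℝ => Complex.exp (-(z * r)) * g r) (Ioi 0) := by
  have h1 : IntegrableOn (fun r : ℝ => C * Real.exp ((m - z.re) * r)) (Ioi 0) :=
    (integrableOn_exp_mul_Ioi (by linarith) 0).const_mul C
  refine Integrable.mono' h1 ?_ ?_
  · have : Measurable fun r : ℝ => Complex.exp (-(z * r)) * g r :=
      (by fun_prop : Measurable fun r : ℝ => Complex.exp (-(z * r))).mul hg.meas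
    exact this.aestronglyMeasurable
  · refine (ae_restrict_iff' measurableSet_Ioi).2 (Eventually.of_forall fun r hr => ?_)
    have hr' : (0:ℝ) < r := hr
    rw [norm_mul, Complex.norm_exp]
    have h2 := hg.bd r hr'
    have h3 : (-(z * (r:ℂ))).re = -(z.re * r) := by simp
    rw [h3]
    calc Real.exp (-(z.re * r)) * ‖g r‖ ≤ Real.exp (-(z.re * r)) * (C * Real.exp (m * r)) := by
          gcongr
      _ = C * (Real.exp (m * r) * Real.exp (-(z.re * r))) := by ring
      _ = C * Real.exp ((m - z.re) * r) := by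
          rw [← Real.exp_add]; congr 2; ring

theorem vg_add {C m D m' : ℝ} {f g : ℝ → ℂ} (hf : EBd C m f) (hg : EBd D m' g) {z : ℂ}
    (hz : m < z.re) (hz' : m' < z.re) : lap (f + g) z = lap f z + lap g z := by
  unfold lap
  rw [← integral_add (vg_int hf hz) (vg_int hg hz')]
  congr 1
  ext r
  simp [mul_add]

theorem vg_smul (a : ℂ) (f : ℝ → ℂ) (z : ℂ) : lap (a • f) z = a * lap f z := by
  unfold lap
  rw [← integral_const_mul]
  congr 1
  ext r
  simp
  ring

theorem vg_cv (f g h : ℝ → ℂ) (hgh : g =ᵐ[volume] h) : cv f g = cv f h := by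
  ext t
  unfold cv
  apply intervalIntegral.integral_congr_ae
  filter_upwards [hgh] with s hs _
  rw [hs]

theorem v_gen (w : ℝ → ℝ) (hw : IsWeight w) (hr : IsRadical w) (C m : ℝ) (ρ : ℝ → ℂ)
    (hρ : EBd C m ρ) (b : ℂ) : IsPolyGen w (TTr ρ (pT 1 b)) := by
  obtain ⟨⟨C0, m0, h0⟩, hlp⟩ := lap_pT 1 le_rfl b
  obtain ⟨C1, m1, h1⟩ := tt_ebd C m C0 m0 ρ (pT 1 b) hρ h0
  obtain ⟨M, hM⟩ := tt_lap C m C0 m0 ρ (pT 1 b) hρ h0
  set v := TTr ρ (pT 1 b) with hv
  have hC0 : 0 ≤ C := hρ.nonneg
  have hC1 : 0 ≤ C1 := h1.nonneg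
  -- common constants
  set K : ℝ := 1 + C + C1 with hK
  set N : ℝ := |m| + |m1| with hN
  have hK1 : 1 ≤ K := by rw [hK]; linarith
  have hN0 : 0 ≤ N := by positivity
  have hvK : EBd K N v := h1.mono (by rw [hK]; linarith)
    (by rw [hN]; have := le_abs_self m1; have := abs_nonneg m; linarith)
  have hρK : EBd K N ρ := hρ.mono (by rw [hK]; linarith)
    (by rw [hN]; have := le_abs_self m; have := abs_nonneg m1; linarith)
  have huK : EBd K N uu := uu_ebd.mono hK1 hN0
  have hK0 : 0 ≤ K := by linarith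
  have e1 : EBd (K * K) (N + 1) (cv uu v) := (cv_ebd K K N hK0 hK0 _ _ huK hvK).2
  have e2 : EBd (K * K) (N + 1) (cv ρ v) := (cv_ebd K K N hK0 hK0 _ _ hρK hvK).2
  have huK' : EBd (K * K) (N + 1) uu := huK.mono (by nlinarith) (by linarith)
  have hKK : 0 ≤ K * K := by positivity
  have e3 : EBd (K * K * (K * K)) (N + 1 + 1) (cv uu (cv ρ v)) :=
    (cv_ebd (K * K) (K * K) (N + 1) hKK hKK _ _ huK' e2).2
  set v' : ℝ → ℂ := uu + (b • cv uu v + (-1 : ℂ) • cv uu (cv ρ v)) with hv'
  have e4 : EBd (‖b‖ * (K * K) + ‖(-1 : ℂ)‖ * (K * K * (K * K))) (max (N + 1) (N + 1 + 1))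
      (b • cv uu v + (-1 : ℂ) • cv uu (cv ρ v)) := (e1.smul b).add (e3.smul (-1))
  have e5 := uu_ebd.add e4
  have huu : uu = ee 0 := by
    ext t
    simp [uu, ee]
  have hae : v =ᵐ[volume] v' := by
    refine lap_inj _ _ _ _ (max (max M (N + 3)) (max (C + b.re + 1) (m + 1))) v v' h1 e5 ?_
    intro z hz
    have z1 : M ≤ z.re := le_trans (le_trans (le_max_left _ _) (le_max_left _ _)) hz
    have z2 : N + 3 ≤ z.re := le_trans (le_trans (le_max_right _ _) (le_max_left _ _)) hz
    have z3 : C + b.re + 1 ≤ z.re := le_trans (le_trans (le_max_left _ _) (le_max_right _ _)) hz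
    have z4 : m + 1 ≤ z.re := le_trans (le_trans (le_max_right _ _) (le_max_right _ _)) hz
    have hR : ‖lap ρ z‖ ≤ C := by
      have := (ee_conv C m hC0 ρ hρ z (by linarith)).2.1
      refine this.trans ?_
      apply div_le_self hC0
      linarith
    have hRre : -C ≤ (lap ρ z).re := by
      have := (abs_le.1 (Complex.abs_re_le_norm (lap ρ z))).1
      linarith
    have hre : b.re < (z + lap ρ z).re := by
      rw [Complex.add_re]; linarith
    have hL : lap v z = (z + lap ρ z - b)⁻¹ := by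
      rw [hM z z1, hlp _ hre]
      simp [Complex.cpow_neg_one, Real.Gamma_one]
    have hne : z + lap ρ z - b ≠ 0 := by
      intro h
      have := congrArg Complex.re h
      rw [Complex.sub_re, Complex.zero_re] at this
      linarith
    have hz0 : z ≠ 0 := by
      intro h
      have := congrArg Complex.re h
      rw [Complex.zero_re] at this
      linarith
    have s1 : lap uu z = 1 / z := by
      rw [huu, lap_ee 0 z (by rw [Complex.zero_re]; linarith), sub_zero]
    have s2 : lap (cv uu v) z = lap uu z * lap v z :=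
      lap_cv K N hK0 _ _ huK hvK z (by linarith)
    have s3 : lap (cv ρ v) z = lap ρ z * lap v z :=
      lap_cv K N hK0 _ _ hρK hvK z (by linarith)
    have s4 : lap (cv uu (cv ρ v)) z = lap uu z * lap (cv ρ v) z :=
      lap_cv (K * K) (N + 1) hKK _ _ huK' e2 z (by linarith)
    rw [hv', vg_add uu_ebd e4 (by linarith) (by
        apply max_lt <;> linarith),
      vg_add (e1.smul b) (e3.smul (-1)) (by linarith) (by linarith), vg_smul, vg_smul, s4, s3, s2,
      s1, hL]
    field_simp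
    ring
  have hrel : v' + (-b) • cv uu v' + cv uu (cv ρ v') = (1 : ℂ) • uu := by
    rw [← vg_cv uu v v' hae, ← vg_cv ρ v v' hae]
    rw [hv']
    ext t
    simp
    ring
  refine gen_ae w hw v' v hae.symm ?_
  have e6 := e5.nonneg
  set K2 : ℝ := 1 + (‖b‖ * (K * K) + ‖(-1 : ℂ)‖ * (K * K * (K * K))) with hK2
  refine main1 w hw hr (K2 + K) (max 0 (max (N + 1) (N + 1 + 1))) (by linarith) (le_max_left _ _)
    v' ρ (e5.mono (by linarith) le_rfl) (hρK.mono (by linarith) ?_) 1 (-b) one_ne_zero hrel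
  refine le_trans ?_ (le_max_right _ _)
  refine le_trans ?_ (le_max_left _ _)
  linarith

end Pool.Agent.Helper5.PG
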