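import Mathlib
import Pool.Agent.Helper5.Pt.Defs
import Pool.Agent.Helper5.Pe.Ring
import Pool.Agent.Helper5.Pt.TtEbd
import Pool.Agent.Helper5.Pt.TtLin
import Pool.Agent.Helper5.Pt.TtCpow
import Pool.Agent.Helper5.Pt.TtNorm
import Pool.Agent.Helper5.Pt.VGen
import Pool.Agent.Helper5.Pt.Wexp
import Pool.Agent.Helper5.Pe.CpowEbd
import Pool.Agent.Helper5.Pt.LapPT
import Pool.Agent.Helper5.Pe.Inl1OfEbd
import Pool.Agent.Helper5.Pt.CpowAe
import Pool.Agent.Helper5.Pe.ExpInt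

set_option autoImplicit false
open MeasureTheory Set Filter Topology

namespace Pool.Agent.Helper5.PG

theorem gplus_lin (C m C1 m1 : ℝ) (ρ f : ℝ → ℂ) (hρ : EBd C m ρ) (hf : EBd C1 m1 f)
    (c : ℕ → ℂ) (n : ℕ) :
    (∃ D M : ℝ, EBd D M (fun t => ∑ k ∈ Finset.range n, c k * cpow f k t)) ∧
    TTr ρ (fun t => ∑ k ∈ Finset.range n, c k * cpow f k t) =ᵐ[volume]
      fun t => ∑ k ∈ Finset.range n, c k * cpow (TTr ρ f) k t := by
  induction n with
  | zero =>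
    refine ⟨⟨0, 0, ?_⟩, ?_⟩
    · simp only [Finset.range_zero, Finset.sum_empty]
      exact ⟨measurable_const, fun t _ => rfl, fun t _ => by simp⟩
    · simp only [Finset.range_zero, Finset.sum_empty]
      apply Filter.Eventually.of_forall
      intro x
      simp [TTr]
  | succ n ih =>
    obtain ⟨⟨D, M, hD⟩, hae⟩ := ih
    obtain ⟨C', m', hC', hcp⟩ := cpow_ebd C1 m1 f hf n
    have heq : (fun t => ∑ k ∈ Finset.range (n + 1), c k * cpow f k t) =
        c n • cpow f n + (fun t => ∑ k ∈ Finset.range n, c k * cpow f k t) := by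
      funext t
      rw [Finset.sum_range_succ, Pi.add_apply, Pi.smul_apply, smul_eq_mul, add_comm]
    rw [heq]
    have h1 : EBd (max C' D) (max m' M) (cpow f n) :=
      hcp.mono (le_max_left _ _) (le_max_left _ _)
    have h2 := hD.mono (le_max_right C' D) (le_max_right m' M)
    refine ⟨⟨_, _, (h1.smul (c n)).add h2⟩, ?_⟩
    rw [tt_lin C m _ _ ρ _ _ hρ h1 h2 (c n)]
    filter_upwards [hae, tt_cpow C m C1 m1 ρ f hρ hf n] with t h3 h4
    rw [Finset.sum_range_succ, Pi.add_apply, Pi.smul_apply, smul_eq_mul, add_comm, h3, h4]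

theorem gplus_cpow (a : ℝ) (b : ℂ) (k : ℕ) :
    ∀ t : ℝ, 0 < t → cpow (pw a b) k t = cpow (pT a b) k t := by
  induction k with
  | zero => intro t ht; simp [cpow, pT, ht]
  | succ k ih =>
    intro t ht
    show (∫ s in (0:ℝ)..t, pw a b (t - s) * cpow (pw a b) k s) =
      ∫ s in (0:ℝ)..t, pT a b (t - s) * cpow (pT a b) k s
    apply intervalIntegral.integral_congr_ae
    have hne : ∀ᵐ s : ℝ, s ≠ t := by
      rw [MeasureTheory.ae_iff]
      simp
    filter_upwards [hne] with s hs hmem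
    rw [uIoc_of_le ht.le] at hmem
    have hst : 0 < t - s := sub_pos.mpr (lt_of_le_of_ne hmem.2 hs)
    rw [ih s hmem.1]
    simp only [pT, if_pos hst]

theorem gplus_int (w : ℝ → ℝ) (hw : IsWeight w) (hr : IsRadical w) (C m : ℝ) (g : ℝ → ℂ)
    (hg : EBd C m g) : IntegrableOn (fun t => ‖g t‖ * w t) (Ioi 0) := by
  have h1 := (inl1_of_ebd w hw hr C m hg.nonneg g hg).1
  have h2 : IntegrableOn (fun t => ‖g t * (w t : ℂ)‖) (Ioi 0) := h1.norm
  refine h2.congr ?_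
  refine (ae_restrict_mem measurableSet_Ioi).mono ?_
  intro t ht
  have h3 : 0 < w t := hw.pos t (le_of_lt ht)
  show ‖g t * (w t : ℂ)‖ = ‖g t‖ * w t
  rw [norm_mul, Complex.norm_real, Real.norm_eq_abs, abs_of_pos h3]

theorem gplus_lint (w : ℝ → ℝ) (hw : IsWeight w) (hr : IsRadical w) (C m : ℝ) (g : ℝ → ℂ)
    (hg : EBd C m g) : ∫⁻ t in Ioi (0:ℝ), ENNReal.ofReal (‖g t‖ * w t) =
      ENNReal.ofReal (∫ t in Ioi (0:ℝ), ‖g t‖ * w t) := by
  symm
  apply ofReal_integral_eq_lintegral_ofReal (gplus_int w hw hr C m g hg)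
  refine (ae_restrict_mem measurableSet_Ioi).mono ?_
  intro t ht
  have h3 : 0 < w t := hw.pos t (le_of_lt ht)
  show 0 ≤ ‖g t‖ * w t
  positivity

theorem gplus (w : ℝ → ℝ) (hw : IsWeight w) (hr : IsRadical w) (C m : ℝ) (ρ : ℝ → ℂ)
    (hρ : EBd C m ρ) (a : ℝ) (ha : 1 ≤ a) (b : ℂ) (ε : ℝ) (hε : 0 < ε)
    (hgen : IsPolyGen (fun t => w t * Real.exp (ε * t)) (pw a b)) :
    IsPolyGen w (TTr ρ (pT a b)) := by
  obtain ⟨C1, m1, hpT⟩ := (lap_pT a ha b).1
  obtain ⟨C2, m2, hp1⟩ := (lap_pT 1 le_rfl b).1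
  obtain ⟨C3, m3, hv⟩ := tt_ebd C m C1 m1 ρ (pT a b) hρ hpT
  refine ⟨(inl1_of_ebd w hw hr C3 m3 hv.nonneg _ hv).1, ?_⟩
  intro h hh η hη
  obtain ⟨K, hK, hnorm⟩ := tt_norm w hw hr ε hε C m ρ hρ
  obtain ⟨hwe, hre⟩ := wexp w hw hr ε
  obtain ⟨n1, d, hd⟩ := (v_gen w hw hr C m ρ hρ b).2 h hh (η / 2) (by positivity)
  obtain ⟨⟨D1, M1, hp⟩, hpae⟩ := gplus_lin C m C2 m2 ρ (pT 1 b) hρ hp1 d n1
  set p : ℝ → ℂ := fun t => ∑ k ∈ Finset.range n1, d k * cpow (pT 1 b) k t with hpdef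
  have hpL := (inl1_of_ebd _ hwe hre D1 M1 hp.nonneg p hp).1
  obtain ⟨n2, q, hq⟩ := hgen.2 p hpL (η / (2 * K)) (by positivity)
  obtain ⟨⟨D2, M2, hq'⟩, hqae⟩ := gplus_lin C m C1 m1 ρ (pT a b) hρ hpT q n2
  set q' : ℝ → ℂ := fun t => ∑ k ∈ Finset.range n2, q k * cpow (pT a b) k t with hqdef
  have hpm := hp.mono (le_max_left D1 D2) (le_max_left M1 M2)
  have hqm := hq'.mono (le_max_right D1 D2) (le_max_right M1 M2)
  have hTr := tt_lin C m _ _ ρ q' p hρ hqm hpm (-1)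
  have hrE := (hqm.smul (-1)).add hpm
  set r : ℝ → ℂ := (-1 : ℂ) • q' + p with hrdef
  obtain ⟨C4, m4, hTrE⟩ := tt_ebd C m _ _ ρ r hρ hrE
  have h1 := hnorm _ _ r hrE
  have h2 : ∫ t in Ioi (0:ℝ), ‖r t‖ * (w t * Real.exp (ε * t)) < η / (2 * K) := by
    have h3 := gplus_lint _ hwe hre _ _ r hrE
    have h4 : ∫⁻ t in Ioi (0:ℝ), ENNReal.ofReal (‖r t‖ * (w t * Real.exp (ε * t))) =
        ∫⁻ t in Ioi (0:ℝ), ENNReal.ofReal (‖p t - ∑ k ∈ Finset.range n2,
          q k * cpow (pw a b) k t‖ * (w t * Real.exp (ε * t))) := by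
      apply setLIntegral_congr_fun measurableSet_Ioi
      intro t ht
      have h5 : r t = p t - ∑ k ∈ Finset.range n2, q k * cpow (pw a b) k t := by
        rw [hrdef, Pi.add_apply, Pi.smul_apply, smul_eq_mul, hqdef]
        have h6 : ∑ k ∈ Finset.range n2, q k * cpow (pw a b) k t =
            ∑ k ∈ Finset.range n2, q k * cpow (pT a b) k t :=
          Finset.sum_congr rfl fun k _ => by rw [gplus_cpow a b k t ht]
        rw [h6]
        ring
      show ENNReal.ofReal (‖r t‖ * (w t * Real.exp (ε * t))) = _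
      rw [h5]
    have h7 : ENNReal.ofReal (∫ t in Ioi (0:ℝ), ‖r t‖ * (w t * Real.exp (ε * t))) <
        ENNReal.ofReal (η / (2 * K)) := by
      rw [← h3]
      exact h4.trans_lt hq
    exact (ENNReal.ofReal_lt_ofReal_iff (by positivity)).mp h7
  have h8 : ∫ t in Ioi (0:ℝ), ‖TTr ρ r t‖ * w t < η / 2 := by
    refine h1.trans_lt ?_
    calc K * ∫ t in Ioi (0:ℝ), ‖r t‖ * (w t * Real.exp (ε * t))
        < K * (η / (2 * K)) := mul_lt_mul_of_pos_left h2 hK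
      _ = η / 2 := by field_simp
  refine ⟨n2, q, ?_⟩
  have h9 : ∀ᵐ t ∂(volume.restrict (Ioi (0:ℝ))),
      ENNReal.ofReal (‖h t - ∑ k ∈ Finset.range n2, q k * cpow (TTr ρ (pT a b)) k t‖ * w t) ≤
      ENNReal.ofReal (‖h t - ∑ k ∈ Finset.range n1, d k * cpow (TTr ρ (pT 1 b)) k t‖ * w t) +
      ENNReal.ofReal (‖TTr ρ r t‖ * w t) := by
    filter_upwards [ae_restrict_of_ae hpae, ae_restrict_of_ae hqae,
      ae_restrict_mem measurableSet_Ioi] with t h10 h11 ht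
    have hwt : 0 < w t := hw.pos t (le_of_lt ht)
    rw [← ENNReal.ofReal_add (by positivity) (by positivity), ← add_mul]
    apply ENNReal.ofReal_le_ofReal
    apply mul_le_mul_of_nonneg_right _ hwt.le
    rw [hTr, Pi.add_apply, Pi.smul_apply, smul_eq_mul, h10, h11]
    refine le_trans (le_of_eq ?_) (norm_add_le _ _)
    congr 1
    ring
  have h12 : AEMeasurable (fun t => ENNReal.ofReal (‖TTr ρ r t‖ * w t))
      (volume.restrict (Ioi (0:ℝ))) :=
    (gplus_int w hw hr _ _ _ hTrE).aestronglyMeasurable.aemeasurable.ennreal_ofReal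
  calc ∫⁻ t in Ioi (0:ℝ), ENNReal.ofReal (‖h t - ∑ k ∈ Finset.range n2,
          q k * cpow (TTr ρ (pT a b)) k t‖ * w t)
      ≤ ∫⁻ t in Ioi (0:ℝ), (ENNReal.ofReal (‖h t - ∑ k ∈ Finset.range n1,
          d k * cpow (TTr ρ (pT 1 b)) k t‖ * w t) + ENNReal.ofReal (‖TTr ρ r t‖ * w t)) :=
        lintegral_mono_ae h9
    _ = (∫⁻ t in Ioi (0:ℝ), ENNReal.ofReal (‖h t - ∑ k ∈ Finset.range n1,
          d k * cpow (TTr ρ (pT 1 b)) k t‖ * w t)) +
        ∫⁻ t in Ioi (0:ℝ), ENNReal.ofReal (‖TTr ρ r t‖ * w t) := lintegral_add_right' _ h12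
    _ < ENNReal.ofReal (η / 2) + ENNReal.ofReal (η / 2) := by
        apply ENNReal.add_lt_add hd
        rw [gplus_lint w hw hr _ _ _ hTrE]
        exact (ENNReal.ofReal_lt_ofReal_iff (by positivity)).mpr h8
    _ = ENNReal.ofReal η := by
        rw [← ENNReal.ofReal_add (by positivity) (by positivity), add_halves]

end Pool.Agent.Helper5.PG
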