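import Mathlib
import Pool.Agent.Helper5.Pt.Defs
import Pool.Agent.Helper5.Pe.Ring
import Pool.Agent.Helper5.Pg.CpowPw

set_option autoImplicit false
open MeasureTheory Set Filter Topology

namespace Pool.Agent.Helper5.PG

theorem pw_shift (a : ℝ) (c : ℂ) (ε t : ℝ) :
    pw a (c + ε) t = pw a c t * ((Real.exp (ε * t) : ℝ) : ℂ) := by
  unfold pw
  rw [Complex.ofReal_exp, mul_assoc, ← Complex.exp_add]
  congr 2
  push_cast
  ring

theorem shift_aux (w : ℝ → ℝ) (a : ℝ) (ha : 0 < a) (c : ℂ) (ε : ℝ)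
    (H : IsPolyGen w (pw a (c + ε))) :
    IsPolyGen (fun t => w t * Real.exp (ε * t)) (pw a c) := by
  obtain ⟨H1, H2⟩ := H
  refine ⟨?_, ?_⟩
  · unfold InL1 at H1 ⊢
    refine H1.congr_fun ?_ measurableSet_Ioi
    intro t _
    simp only [pw_shift]
    push_cast
    ring
  · intro h hh δ hδ
    have hh' : InL1 w (fun t => h t * ((Real.exp (ε * t) : ℝ) : ℂ)) := by
      unfold InL1 at hh ⊢
      refine hh.congr_fun ?_ measurableSet_Ioi
      intro t _
      simp only
      push_cast
      ring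
    obtain ⟨n, c', hn⟩ := H2 _ hh' δ hδ
    choose C hC0 hC using fun k => cpow_pw a ha (c + ε) k
    choose D hD0 hD using fun k => cpow_pw a ha c k
    refine ⟨n, fun k => c' k * (C k : ℂ) / (D k : ℂ), ?_⟩
    refine lt_of_eq_of_lt ?_ hn
    refine setLIntegral_congr_fun measurableSet_Ioi ?_
    intro t ht
    have ht0 : 0 < t := ht
    simp only
    congr 1
    have e1 : (∑ k ∈ Finset.range n, c' k * cpow (pw a (c + ε)) k t)
        = (∑ k ∈ Finset.range n, c' k * (C k : ℂ) / (D k : ℂ) * cpow (pw a c) k t)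
          * ((Real.exp (ε * t) : ℝ) : ℂ) := by
      rw [Finset.sum_mul]
      refine Finset.sum_congr rfl ?_
      intro k _
      rw [hC k t ht0, hD k t ht0, pw_shift]
      have hDk : (D k : ℂ) ≠ 0 := by exact_mod_cast (hD0 k).ne'
      field_simp
    rw [e1, ← sub_mul, norm_mul, Complex.norm_real, Real.norm_eq_abs,
      abs_of_pos (Real.exp_pos _)]
    ring

theorem shift_gen (w : ℝ → ℝ) (hw : IsWeight w) (a : ℝ) (ha : 0 < a) (c : ℂ) (ε : ℝ) :
    IsPolyGen w (pw a (c + ε)) ↔ IsPolyGen (fun t => w t * Real.exp (ε * t)) (pw a c) := by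
  constructor
  · exact shift_aux w a ha c ε
  · intro H
    have h1 : (c + (ε : ℂ)) + ((-ε : ℝ) : ℂ) = c := by push_cast; ring
    have h2 := shift_aux (fun t => w t * Real.exp (ε * t)) a ha (c + ε) (-ε) (by rw [h1]; exact H)
    have h3 : (fun t => (fun t => w t * Real.exp (ε * t)) t * Real.exp (-ε * t)) = w := by
      funext t
      simp only
      rw [mul_assoc, ← Real.exp_add]
      have : ε * t + -ε * t = 0 := by ring
      rw [this, Real.exp_zero, mul_one]
    rw [h3] at h2
    exact h2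

end Pool.Agent.Helper5.PG
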