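import Mathlib
import Pool.Agent.Helper5.Pt.FfEq
import Pool.Agent.Helper5.Pt.Gplus
import Pool.Agent.Helper5.Pt.Gminus
import Pool.Agent.Helper5.Pt.ShiftGen
import Pool.Agent.Helper5.Pt.GenAe
import Pool.Agent.Helper5.Pt.GenSmul
import Pool.Agent.Helper5.Pe.GenCongr
import Pool.Agent.Helper5.Pe.Inl1Pw
import Pool.Agent.Helper5.Pk.GenOfInt
import Pool.Agent.Helper5.Pk.NotGenInt
import Pool.Agent.Helper5.Pk.SmallA

set_option autoImplicit false

open MeasureTheory Set Filter Topology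

namespace Pool.Agent.Helper5.PG

theorem ff_forward (w : ℝ → ℝ) (hw : IsWeight w) (hr : IsRadical w) (a : ℝ) (ha : 1 ≤ a) (b : ℂ)
    (C m : ℝ) (k : ℝ → ℂ) (hk : EBd C m k) (h : IsPolyGen w (pw a (b + (1 : ℝ)))) :
    IsPolyGen w (FF a b k) := by
  obtain ⟨ρ, C', m', hρ, he⟩ := ff_eq a ha b C m k hk
  have h1 := (shift_gen w hw a (by linarith) b 1).mp h
  exact gen_ae w hw _ _ he.symm (gplus w hw hr C' m' ρ hρ a ha b 1 one_pos h1)

theorem ff_backward (w : ℝ → ℝ) (hw : IsWeight w) (hr : IsRadical w) (a : ℝ) (ha : 1 ≤ a) (b : ℂ)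
    (C m : ℝ) (k : ℝ → ℂ) (hk : EBd C m k) (h : IsPolyGen w (FF a b k)) :
    IsPolyGen w (pw a (b + (-1 : ℝ))) := by
  obtain ⟨ρ, C', m', hρ, he⟩ := ff_eq a ha b C m k hk
  exact (shift_gen w hw a (by linarith) b (-1)).mpr
    (gminus w hw hr C' m' ρ hρ a ha b 1 one_pos (gen_ae w hw _ _ he h))

/-- reduction of a general `f` to `FF` -/
theorem form_eq (a : ℝ) (f k : ℝ → ℂ) (c b : ℂ) (hc : c ≠ 0) (hk : Measurable k)
    (hkb : ∃ C m : ℝ, ∀ t, 0 < t → ‖k t‖ ≤ C * Real.exp (m * t))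
    (hf : ∀ t, 0 < t → f t = c * ((t ^ (a - 1) : ℝ) : ℂ) + b * ((t ^ a : ℝ) : ℂ) +
      ∫ s in (0:ℝ)..t, (((t - s) ^ a : ℝ) : ℂ) * k s) :
    ∃ (C m : ℝ) (k1 : ℝ → ℂ), EBd C m k1 ∧ ∀ t, 0 < t → f t = (c • FF a (b / c) k1) t := by
  obtain ⟨C, m, hkb⟩ := hkb
  refine ⟨‖c⁻¹‖ * C, m, fun t => if 0 < t then c⁻¹ * k t else 0, ?_, fun t ht => ?_⟩
  · refine ⟨Measurable.ite measurableSet_Ioi (hk.const_mul _) measurable_const, fun t ht => by
      simp [not_lt.mpr ht], fun t ht => ?_⟩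
    simp only [ht, if_true, norm_mul]
    rw [mul_assoc]
    exact mul_le_mul_of_nonneg_left (hkb t ht) (norm_nonneg _)
  · rw [hf t ht]
    simp only [Pi.smul_apply, smul_eq_mul, FF, ht, if_true]
    have : ∫ s in (0:ℝ)..t, (((t - s) ^ a : ℝ) : ℂ) * (if 0 < s then c⁻¹ * k s else 0)
        = c⁻¹ * ∫ s in (0:ℝ)..t, (((t - s) ^ a : ℝ) : ℂ) * k s := by
      rw [← intervalIntegral.integral_const_mul]
      refine intervalIntegral.integral_congr_ae (ae_of_all _ fun s hs => ?_)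
      rw [uIoc_of_le ht.le] at hs
      simp [hs.1]
      ring
    rw [this]
    field_simp

theorem general_radical (w : ℝ → ℝ) (hw : IsWeight w) (hr : IsRadical w)
    (a : ℝ) (f k : ℝ → ℂ) (c b : ℂ) (ha : 1 ≤ a) (ha2 : a ≤ 2) (hc : c ≠ 0) (hk : Measurable k)
    (hkb : ∃ C m : ℝ, ∀ t, 0 < t → ‖k t‖ ≤ C * Real.exp (m * t))
    (hf : ∀ t, 0 < t → f t = c * ((t ^ (a - 1) : ℝ) : ℂ) + b * ((t ^ a : ℝ) : ℂ) +
      ∫ s in (0:ℝ)..t, (((t - s) ^ a : ℝ) : ℂ) * k s) :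
    IsPolyGen w f := by
  obtain ⟨C, m, k1, hk1, he⟩ := form_eq a f k c b hc hk hkb hf
  refine gen_congr w hw _ f (fun t ht => (he t ht).symm) (gen_smul w hw _ c hc ?_)
  exact ff_forward w hw hr a ha _ C m k1 hk1 (gen_radical w hw hr a (by linarith) ha2 _)

theorem general_iff (w : ℝ → ℝ) (hw : IsWeight w) (hr : IsRadical w) (hanti : AntitoneOn w (Ici 0))
    (hcx : ConvexOn ℝ univ (fun s : ℝ => -Real.log (w (Real.exp s))))
    (a : ℝ) (f k : ℝ → ℂ) (c b : ℂ) (ha : 1 ≤ a) (hc : c ≠ 0) (hk : Measurable k)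
    (hkb : ∃ C m : ℝ, ∀ t, 0 < t → ‖k t‖ ≤ C * Real.exp (m * t))
    (hf : ∀ t, 0 < t → f t = c * ((t ^ (a - 1) : ℝ) : ℂ) + b * ((t ^ a : ℝ) : ℂ) +
      ∫ s in (0:ℝ)..t, (((t - s) ^ a : ℝ) : ℂ) * k s) :
    IsPolyGen w f ↔
      ¬ IntegrableOn (fun t : ℝ => -Real.log (w t) * t ^ (-(1 + a / 2))) (Ioi 1) := by
  obtain ⟨C, m, k1, hk1, he⟩ := form_eq a f k c b hc hk hkb hf
  constructor
  · intro h hint
    have h1 : IsPolyGen w (c • FF a (b / c) k1) := gen_congr w hw f _ he h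
    have h2 : IsPolyGen w (FF a (b / c) k1) := by
      have := gen_smul w hw _ c⁻¹ (inv_ne_zero hc) h1
      rwa [smul_smul, inv_mul_cancel₀ hc, one_smul] at this
    have h3 := ff_backward w hw hr a ha _ C m k1 hk1 h2
    rcases le_or_gt a 2 with h4 | h4
    · exact small_a w hw hr a (by linarith) h4 hint
    · exact not_gen_int w hw hanti a h4 _ hint h3
  · intro hint
    refine gen_congr w hw _ f (fun t ht => (he t ht).symm) (gen_smul w hw _ c hc ?_)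
    exact ff_forward w hw hr a ha _ C m k1 hk1
      (gen_of_int w hw hr hcx a (by linarith) _ hint)

end Pool.Agent.Helper5.PG
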