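import Mathlib

set_option autoImplicit false

open MeasureTheory Set Filter Topology

namespace Pool.Agent.Helper5.PG


theorem taylor_form (n : ℕ) (f : ℝ → ℂ) (hf : ContDiff ℝ (n + 2 : ℕ) f)
    (h0 : ∀ j < n, iteratedDeriv j f 0 = 0) (t : ℝ) (ht : 0 < t) :
    f t = (iteratedDeriv n f 0 / (n.factorial : ℂ)) * ((t ^ (((n : ℝ) + 1) - 1) : ℝ) : ℂ) +
      (iteratedDeriv (n + 1) f 0 / ((n + 1).factorial : ℂ)) * ((t ^ ((n : ℝ) + 1) : ℝ) : ℂ) +
      ∫ s in (0:ℝ)..t, (((t - s) ^ ((n : ℝ) + 1) : ℝ) : ℂ) *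
        (iteratedDeriv (n + 2) f s / ((n + 1).factorial : ℂ)) := by
  have hu : UniqueDiffOn ℝ (uIcc (0:ℝ) t) := uniqueDiffOn_uIcc ht.ne
  have hd : ∀ j ≤ n + 2, ∀ s ∈ uIcc (0:ℝ) t,
      iteratedDerivWithin j f (uIcc (0:ℝ) t) s = iteratedDeriv j f s := by
    intro j hj s hs
    refine iteratedDerivWithin_eq_iteratedDeriv hu ?_ hs
    exact (hf.of_le (by exact_mod_cast hj)).contDiffAt
  have h0m : (0:ℝ) ∈ uIcc (0:ℝ) t := left_mem_uIcc
  have h1 := taylor_integral_remainder (f := f) (x := t) (x₀ := 0) (n := n + 1) hf.contDiffOn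
  have h2 : taylorWithinEval f (n + 1) (uIcc 0 t) 0 t =
      (iteratedDeriv n f 0 / (n.factorial : ℂ)) * ((t ^ (((n : ℝ) + 1) - 1) : ℝ) : ℂ) +
      (iteratedDeriv (n + 1) f 0 / ((n + 1).factorial : ℂ)) * ((t ^ ((n : ℝ) + 1) : ℝ) : ℂ) := by
    rw [taylor_within_apply, Finset.sum_range_succ, Finset.sum_range_succ,
      Finset.sum_eq_zero, zero_add, hd n (by omega) 0 h0m, hd (n + 1) (by omega) 0 h0m]
    · have e1 : t ^ (((n : ℝ) + 1) - 1) = t ^ n := by
        rw [add_sub_cancel_right, Real.rpow_natCast]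
      have e2 : t ^ ((n : ℝ) + 1) = t ^ (n + 1) := by
        rw [← Real.rpow_natCast]; push_cast; rfl
      rw [e1, e2, Complex.real_smul, Complex.real_smul]
      push_cast
      rw [sub_zero]
      ring
    · intro j hj
      rw [hd j (by have := Finset.mem_range.1 hj; omega) 0 h0m, h0 j (Finset.mem_range.1 hj),
        smul_zero]
  rw [← h2, ← sub_eq_iff_eq_add', h1]
  refine intervalIntegral.integral_congr fun s hs => ?_
  have hs' := hs
  rw [uIcc_of_le ht.le] at hs'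
  have e3 : (t - s) ^ ((n : ℝ) + 1) = (t - s) ^ (n + 1) := by
    rw [← Real.rpow_natCast]; push_cast; rfl
  show ((t - s) ^ (n + 1) / ((n + 1).factorial : ℝ)) • iteratedDerivWithin (n + 1 + 1) f (uIcc 0 t) s = _
  rw [hd (n + 2) le_rfl s hs, e3, Complex.real_smul]
  push_cast
  ring

theorem expw_reg (p : ℝ) (hp : 1 < p) :
    AntitoneOn (fun t : ℝ => Real.exp (-(t ^ p))) (Ici 0) ∧
    ConvexOn ℝ univ (fun s : ℝ => -Real.log (Real.exp (-((Real.exp s) ^ p)))) ∧
    ∀ a : ℝ, 0 < a →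
      (¬ IntegrableOn (fun t : ℝ => -Real.log (Real.exp (-(t ^ p))) * t ^ (-(1 + a / 2))) (Ioi 1)
        ↔ a ≤ 2 * p) := by
  refine ⟨?_, ?_, ?_⟩
  · intro a ha b hb hab
    have : a ^ p ≤ b ^ p := Real.rpow_le_rpow ha hab (by linarith)
    exact Real.exp_le_exp.2 (neg_le_neg this)
  · have h : (fun s : ℝ => -Real.log (Real.exp (-((Real.exp s) ^ p)))) =
        fun s : ℝ => Real.exp (p * s) := by
      funext s
      rw [Real.log_exp, neg_neg, ← Real.exp_mul, mul_comm]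
    rw [h]
    have hc : ConvexOn ℝ univ Real.exp := convexOn_exp
    have := hc.comp_linearMap (p • (LinearMap.id : ℝ →ₗ[ℝ] ℝ))
    simpa [Function.comp_def] using this
  · intro a ha
    have h : ∀ t ∈ Ioi (1:ℝ), -Real.log (Real.exp (-(t ^ p))) * t ^ (-(1 + a / 2)) =
        t ^ (p - (1 + a / 2)) := by
      intro t ht
      have ht0 : (0:ℝ) < t := lt_trans one_pos ht
      rw [Real.log_exp, neg_neg, ← Real.rpow_add ht0, sub_eq_add_neg]
    rw [integrableOn_congr_fun h measurableSet_Ioi, integrableOn_Ioi_rpow_iff one_pos]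
    constructor
    · intro h1; by_contra h2; exact h1 (by linarith [not_le.1 h2])
    · intro h1 h2; linarith

end Pool.Agent.Helper5.PG
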